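import Mathlib

set_option autoImplicit false

/-!
# Measure preserving maps on products: small lemmas
-/

open MeasureTheory Set Filter Topology ProbabilityTheory
open scoped ENNReal NNReal

namespace Pool.Agent.Y313.RM

section
variable {α β γ δ : Type*} [MeasurableSpace α] [MeasurableSpace β] [MeasurableSpace γ]
  [MeasurableSpace δ]

/-- change of variables for a measure preserving map which need not be injective -/
theorem mp_int {E : Type*} [NormedAddCommGroup E] [NormedSpace ℝ E]
    {μ : Measure α} {ν : Measure β} {φ : α → β} (h : MeasurePreserving φ μ ν) {f : β → E}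
    (hf : AEStronglyMeasurable f ν) : ∫ x, f (φ x) ∂μ = ∫ y, f y ∂ν := by
  rw [← h.map_eq, integral_map h.measurable.aemeasurable]
  rwa [h.map_eq]

/-- an almost everywhere property can be pulled back -/
theorem mp_ae {μ : Measure α} {ν : Measure β} {φ : α → β} (h : MeasurePreserving φ μ ν)
    {P : β → Prop} (hP : ∀ᵐ y ∂ν, P y) : ∀ᵐ x ∂μ, P (φ x) :=
  h.quasiMeasurePreserving.ae hP

/-- an almost everywhere property can be pushed forward -/
theorem mp_ae_of {μ : Measure α} {ν : Measure β} {φ : α → β} (h : MeasurePreserving φ μ ν)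
    {P : β → Prop} (hm : MeasurableSet {y | P y}) (hP : ∀ᵐ x ∂μ, P (φ x)) : ∀ᵐ y ∂ν, P y := by
  rw [← h.map_eq, ae_map_iff h.measurable.aemeasurable hm]
  exact hP

/-- Fibres of a fibred measure preserving map. -/
theorem ae_mp {μ : Measure α} {ν : Measure β} {ν' : Measure γ} [IsFiniteMeasure μ]
    [IsFiniteMeasure ν] [IsFiniteMeasure ν'] [MeasurableSpace.CountablyGenerated γ]
    {φ : α × β → γ} (hφ : Measurable φ)
    (h : MeasurePreserving (fun p : α × β => (p.1, φ p)) (μ.prod ν) (μ.prod ν')) :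
    ∀ᵐ x ∂μ, MeasurePreserving (fun y => φ (x, y)) ν ν' := by
  have hφx : ∀ x, Measurable fun y => φ (x, y) := fun x =>
    hφ.comp (measurable_const.prodMk measurable_id)
  let κ : Kernel α γ := ⟨fun x => ν.map (fun y => φ (x, y)), by
    refine Measure.measurable_of_measurable_coe _ (fun s hs => ?_)
    have h1 : ∀ x, ν.map (fun y => φ (x, y)) s = ν (Prod.mk x ⁻¹' (φ ⁻¹' s)) := by
      intro x
      rw [Measure.map_apply (hφx x) hs]
      rfl
    simp only [h1]
    exact measurable_measure_prodMk_left (hφ hs)⟩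
  have hκ : ∀ x, κ x = ν.map (fun y => φ (x, y)) := fun x => rfl
  have : IsFiniteKernel κ := ⟨⟨ν univ, measure_lt_top _ _, fun x => by
    rw [hκ, Measure.map_apply (hφx x) MeasurableSet.univ]
    exact measure_mono (subset_univ _)⟩⟩
  have h2 : μ ⊗ₘ κ = μ ⊗ₘ (Kernel.const α ν') := by
    rw [Measure.compProd_const]
    ext s hs
    rw [Measure.compProd_apply hs, ← h.map_eq, Measure.map_apply h.measurable hs,
      Measure.prod_apply (h.measurable hs)]
    refine lintegral_congr fun x => ?_
    rw [hκ, Measure.map_apply (hφx x) (measurable_prodMk_left hs)]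
    rfl
  have h3 := Kernel.ae_eq_of_compProd_eq h2
  filter_upwards [h3] with x hx
  refine ⟨hφx x, ?_⟩
  rw [← hκ, hx]
  rfl

/-- Fibres of a fibred measure preserving map, the other side. -/
theorem ae_mp' {μ : Measure α} {ν : Measure β} {μ' : Measure γ} [IsFiniteMeasure μ]
    [IsFiniteMeasure ν] [IsFiniteMeasure μ'] [MeasurableSpace.CountablyGenerated γ]
    {φ : α × β → γ} (hφ : Measurable φ)
    (h : MeasurePreserving (fun p : α × β => (φ p, p.2)) (μ.prod ν) (μ'.prod ν)) :
    ∀ᵐ y ∂ν, MeasurePreserving (fun x => φ (x, y)) μ μ' := by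
  have h1 : MeasurePreserving (fun p : β × α => (p.1, φ p.swap)) (ν.prod μ) (ν.prod μ') := by
    have h2 := (Measure.measurePreserving_swap (μ := μ') (ν := ν)).comp
      (h.comp (Measure.measurePreserving_swap (μ := ν) (ν := μ)))
    exact h2
  exact ae_mp (hφ.comp measurable_swap) h1

/-- left commutation of products -/
theorem mp_lcomm {μ : Measure α} {ν : Measure β} {τ : Measure γ} [SFinite μ] [SFinite ν]
    [SFinite τ] :
    MeasurePreserving (fun p : α × β × γ => (p.2.1, p.1, p.2.2)) (μ.prod (ν.prod τ))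
      (ν.prod (μ.prod τ)) := by
  have h1 := (measurePreserving_prodAssoc μ ν τ).symm
  have h2 := (Measure.measurePreserving_swap (μ := μ) (ν := ν)).prod (MeasurePreserving.id τ)
  have h3 := measurePreserving_prodAssoc ν μ τ
  exact h3.comp (h2.comp h1)

/-- almost everywhere statements for products, from nested ones -/
theorem ae_prod_of {μ : Measure α} {ν : Measure β} [SFinite ν] {P : α × β → Prop}
    (hm : MeasurableSet {p | P p}) (h : ∀ᵐ x ∂μ, ∀ᵐ y ∂ν, P (x, y)) : ∀ᵐ p ∂(μ.prod ν), P p :=
  (Measure.ae_prod_iff_ae_ae hm).2 h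

/-- A real function of two independent variables which only depends on each of them. -/
theorem const_of_two {μ : Measure α} {ν : Measure β} [IsProbabilityMeasure μ]
    [IsProbabilityMeasure ν] {δ : Type*} {f : α → δ} {g : β → δ}
    (h : ∀ᵐ p ∂(μ.prod ν), f p.1 = g p.2) : ∃ c, (∀ᵐ x ∂μ, f x = c) ∧ ∀ᵐ y ∂ν, g y = c := by
  have h1 := Measure.ae_ae_of_ae_prod h
  obtain ⟨x0, hx0⟩ := h1.exists
  refine ⟨f x0, ?_, hx0.mono fun y hy => hy.symm⟩
  have h2 : ∀ᵐ p ∂(ν.prod μ), f p.2 = g p.1 :=
    mp_ae (Measure.measurePreserving_swap (μ := ν) (ν := μ)) h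
  have h3 := Measure.ae_ae_of_ae_prod h2
  obtain ⟨y, hy1, hy2⟩ := (h3.and hx0).exists
  filter_upwards [hy1] with x hx
  rw [hx, ← hy2]

end

end Pool.Agent.Y313.RM
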