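import Pool.Agent.Y313.RM.MPx

set_option autoImplicit false

/-!
# Dynkin arguments, mixing of products, a zero-one law
-/

open MeasureTheory Set Filter Topology
open scoped ENNReal NNReal

namespace Pool.Agent.Y313.RM

section
variable {Ω : Type*} [mΩ : MeasurableSpace Ω]

theorem dynkin_tendsto (m : Measure Ω) [IsFiniteMeasure m] {C : Set (Set Ω)}
    (hC : mΩ = MeasurableSpace.generateFrom C) (hpi : IsPiSystem C) (huniv : univ ∈ C)
    {a b : ℕ → Measure Ω} (ha : ∀ n, a n ≤ m) (hb : ∀ n, b n ≤ m)
    (h : ∀ A ∈ C, Tendsto (fun n => (a n).real A - (b n).real A) atTop (𝓝 0))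
    (A : Set Ω) (hA : MeasurableSet A) :
    Tendsto (fun n => (a n).real A - (b n).real A) atTop (𝓝 0) := by
  have fa : ∀ n, IsFiniteMeasure (a n) := fun n => isFiniteMeasure_of_le m (ha n)
  have fb : ∀ n, IsFiniteMeasure (b n) := fun n => isFiniteMeasure_of_le m (hb n)
  induction A, hA using MeasurableSpace.induction_on_inter hC hpi with
  | empty => simp
  | basic A hA => exact h A hA
  | compl A hA ih =>
    have h1 : ∀ n, (a n).real Aᶜ - (b n).real Aᶜ
        = ((a n).real univ - (b n).real univ) - ((a n).real A - (b n).real A) := by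
      intro n
      have := fa n
      have := fb n
      rw [measureReal_compl hA, measureReal_compl hA]
      ring
    simp only [h1]
    simpa using (h univ huniv).sub ih
  | iUnion A hd hA ih =>
    have hreal : ∀ (ν : Measure Ω) [IsFiniteMeasure ν],
        ν.real (⋃ i, A i) = ∑' i, ν.real (A i) := by
      intro ν _
      simp only [Measure.real]
      rw [measure_iUnion hd hA, ENNReal.tsum_toReal_eq fun i => measure_ne_top ν _]
    have hsum : ∀ (ν : Measure Ω) [IsFiniteMeasure ν], Summable fun i => ν.real (A i) := by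
      intro ν _
      refine ENNReal.summable_toReal ?_
      rw [← measure_iUnion hd hA]
      exact measure_ne_top ν _
    have h1 : ∀ n, (a n).real (⋃ i, A i) - (b n).real (⋃ i, A i)
        = ∑' i, ((a n).real (A i) - (b n).real (A i)) := by
      intro n
      have := fa n
      have := fb n
      rw [hreal (a n), hreal (b n), (hsum (a n)).tsum_sub (hsum (b n))]
    simp only [h1]
    have h2 := tendsto_tsum_of_dominated_convergence (𝓕 := atTop)
      (f := fun n i => (a n).real (A i) - (b n).real (A i)) (g := fun _ => (0 : ℝ))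
      (bound := fun i => m.real (A i)) (hsum m) ih
      (Eventually.of_forall fun n i => by
        have g1 : (a n).real (A i) ≤ m.real (A i) := by
          simp only [Measure.real]
          exact ENNReal.toReal_mono (measure_ne_top m _) (ha n _)
        have g2 : (b n).real (A i) ≤ m.real (A i) := by
          simp only [Measure.real]
          exact ENNReal.toReal_mono (measure_ne_top m _) (hb n _)
        have g3 : 0 ≤ (a n).real (A i) := measureReal_nonneg
        have g4 : 0 ≤ (b n).real (A i) := measureReal_nonneg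
        rw [Real.norm_eq_abs, abs_le]
        constructor <;> linarith)
    simpa using h2

theorem split_real {I : Type*} [DecidableEq I] (i0 : I) (A : I → Set Ω) {Θ₀ : Type*}
    [MeasurableSpace Θ₀] (Q : Measure Θ₀)
    (β : I → Θ₀ → Ω) (hβ : ∀ i, Measurable (β i)) (B : Set Ω) (hB : MeasurableSet B) :
    ((Q.restrict (⋂ i, ⋂ (_ : i ≠ i0), β i ⁻¹' A i)).map (β i0)).real B
      = Q.real (⋂ i, β i ⁻¹' (Function.update A i0 B) i) := by
  rw [map_measureReal_apply (hβ i0) hB, measureReal_restrict_apply ((hβ i0) hB)]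
  congr 1
  ext x
  simp only [mem_inter_iff, mem_preimage, mem_iInter]
  constructor
  · rintro ⟨h1, h2⟩ i
    by_cases hi : i = i0
    · subst hi
      simpa using h1
    · simpa [Function.update_of_ne hi] using h2 i hi
  · intro h1
    refine ⟨by simpa using h1 i0, fun i hi => ?_⟩
    simpa [Function.update_of_ne hi] using h1 i

theorem split_le {m : Measure Ω} {I : Type*} (i0 : I) (A : I → Set Ω) {Θ₀ : Type*}
    [MeasurableSpace Θ₀] (Q : Measure Θ₀)
    (β : I → Θ₀ → Ω) (hβ : ∀ i, MeasurePreserving (β i) Q m) :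
    (Q.restrict (⋂ i, ⋂ (_ : i ≠ i0), β i ⁻¹' A i)).map (β i0) ≤ m := by
  rw [← (hβ i0).map_eq]
  exact Measure.map_mono Measure.restrict_le_self (hβ i0).measurable

/-- Dynkin argument for several times. -/
theorem dynkinI {I : Type*} [Fintype I] [DecidableEq I] (m : Measure Ω) [IsFiniteMeasure m]
    {C : Set (Set Ω)} (hC : mΩ = MeasurableSpace.generateFrom C) (hpi : IsPiSystem C)
    (huniv : univ ∈ C) {Θ Θ' : Type*} [MeasurableSpace Θ] [MeasurableSpace Θ']
    {P : Measure Θ} {P' : Measure Θ'}
    {α : ℕ → I → Θ → Ω} (hα : ∀ n i, MeasurePreserving (α n i) P m)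
    {α' : ℕ → I → Θ' → Ω} (hα' : ∀ n i, MeasurePreserving (α' n i) P' m)
    (h : ∀ A : I → Set Ω, (∀ i, A i ∈ C) →
      Tendsto (fun n => P.real (⋂ i, α n i ⁻¹' A i) - P'.real (⋂ i, α' n i ⁻¹' A i))
        atTop (𝓝 0)) (A : I → Set Ω) (hA : ∀ i, MeasurableSet (A i)) :
    Tendsto (fun n => P.real (⋂ i, α n i ⁻¹' A i) - P'.real (⋂ i, α' n i ⁻¹' A i))
        atTop (𝓝 0) := by
  have hCm : ∀ B ∈ C, MeasurableSet B := by
    intro B hB
    rw [hC]
    exact MeasurableSpace.measurableSet_generateFrom hB
  have key : ∀ S : Finset I, ∀ A : I → Set Ω, (∀ i, MeasurableSet (A i)) →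
      (∀ i, i ∉ S → A i ∈ C) →
      Tendsto (fun n => P.real (⋂ i, α n i ⁻¹' A i) - P'.real (⋂ i, α' n i ⁻¹' A i))
        atTop (𝓝 0) := by
    intro S
    induction S using Finset.induction_on with
    | empty =>
      intro A _ hA
      exact h A fun i => hA i (Finset.notMem_empty i)
    | insert i0 S hi0 ih =>
      intro A hAm hA
      have h1 := dynkin_tendsto m hC hpi huniv
        (a := fun n => (P.restrict (⋂ i, ⋂ (_ : i ≠ i0), α n i ⁻¹' A i)).map (α n i0))
        (b := fun n => (P'.restrict (⋂ i, ⋂ (_ : i ≠ i0), α' n i ⁻¹' A i)).map (α' n i0))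
        (fun n => split_le i0 A P (α n) (hα n)) (fun n => split_le i0 A P' (α' n) (hα' n)) (by
          intro B hB
          refine (ih (Function.update A i0 B) ?_ ?_).congr fun n => ?_
          · intro i
            by_cases hi : i = i0
            · subst hi
              simpa using hCm B hB
            · simpa [Function.update_of_ne hi] using hAm i
          · intro i hi
            by_cases hi2 : i = i0
            · subst hi2
              simpa using hB
            · rw [Function.update_of_ne hi2]
              exact hA i (by simp [hi, hi2])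
          · rw [split_real i0 A P (α n) (fun i => (hα n i).measurable) B (hCm B hB),
              split_real i0 A P' (α' n) (fun i => (hα' n i).measurable) B (hCm B hB)]) (A i0) (hAm i0)
      refine h1.congr fun n => ?_
      rw [split_real i0 A P (α n) (fun i => (hα n i).measurable) (A i0) (hAm i0),
        split_real i0 A P' (α' n) (fun i => (hα' n i).measurable) (A i0) (hAm i0)]
      simp only [Function.update_eq_self]
  exact key Finset.univ A hA fun i hi => absurd (Finset.mem_univ i) hi

/-- strong mixing -/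
def Mx (m : Measure Ω) (S : Ω → Ω) : Prop :=
  ∀ A B : Set Ω, MeasurableSet A → MeasurableSet B →
    Tendsto (fun n : ℕ => m.real (A ∩ S^[n] ⁻¹' B)) atTop (𝓝 (m.real A * m.real B))

theorem iInter_bool {Θ : Type*} (f : Bool → Set Θ) : (⋂ i, f i) = f true ∩ f false := by
  ext x
  simp [Set.mem_iInter, and_comm]

/-- two-fold version of the Dynkin argument -/
theorem dynkin2 (m : Measure Ω) [IsFiniteMeasure m]
    {C : Set (Set Ω)} (hC : mΩ = MeasurableSpace.generateFrom C) (hpi : IsPiSystem C)
    (huniv : univ ∈ C) {Θ Θ' : Type*} [MeasurableSpace Θ] [MeasurableSpace Θ']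
    {P : Measure Θ} {P' : Measure Θ'}
    {α β : ℕ → Θ → Ω} (hα : ∀ n, MeasurePreserving (α n) P m)
    (hβ : ∀ n, MeasurePreserving (β n) P m)
    {α' β' : ℕ → Θ' → Ω} (hα' : ∀ n, MeasurePreserving (α' n) P' m)
    (hβ' : ∀ n, MeasurePreserving (β' n) P' m)
    (h : ∀ A ∈ C, ∀ B ∈ C,
      Tendsto (fun n => P.real (α n ⁻¹' A ∩ β n ⁻¹' B) - P'.real (α' n ⁻¹' A ∩ β' n ⁻¹' B))
        atTop (𝓝 0)) (A B : Set Ω) (hA : MeasurableSet A) (hB : MeasurableSet B) :
    Tendsto (fun n => P.real (α n ⁻¹' A ∩ β n ⁻¹' B) - P'.real (α' n ⁻¹' A ∩ β' n ⁻¹' B))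
        atTop (𝓝 0) := by
  have h1 := dynkinI (I := Bool) m hC hpi huniv (P := P) (P' := P')
    (α := fun n i => if i then α n else β n) (α' := fun n i => if i then α' n else β' n)
    (by
      intro n i
      cases i
      · simpa using hβ n
      · simpa using hα n)
    (by
      intro n i
      cases i
      · simpa using hβ' n
      · simpa using hα' n)
    (by
      intro A hA
      simpa [iInter_bool] using h (A true) (hA true) (A false) (hA false))
    (fun i => if i then A else B) (by
      intro i
      cases i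
      · simpa using hB
      · simpa using hA)
  simpa [iInter_bool] using h1

theorem mx_of_pi {m : Measure Ω} [IsProbabilityMeasure m] {S : Ω → Ω}
    (hS : MeasurePreserving S m m)
    {C : Set (Set Ω)} (hC : mΩ = MeasurableSpace.generateFrom C) (hpi : IsPiSystem C)
    (huniv : univ ∈ C) (h : ∀ A ∈ C, ∀ B ∈ C,
      Tendsto (fun n : ℕ => m.real (A ∩ S^[n] ⁻¹' B)) atTop (𝓝 (m.real A * m.real B))) :
    Mx m S := by
  intro A B hA hB
  have h1 := dynkin2 m hC hpi huniv (P := m) (P' := m.prod m) (α := fun _ => id)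
    (β := fun n => S^[n]) (α' := fun _ => Prod.fst) (β' := fun _ => Prod.snd)
    (fun _ => MeasurePreserving.id m) (fun n => hS.iterate n)
    (fun _ => measurePreserving_fst) (fun _ => measurePreserving_snd)
    (by
      intro A hA B hB
      have h2 : ∀ n : ℕ, (m.prod m).real (Prod.fst ⁻¹' A ∩ Prod.snd ⁻¹' B)
          = m.real A * m.real B := by
        intro n
        rw [← Set.prod_eq, measureReal_prod_prod]
      have h3 := (h A hA B hB).sub_const (m.real A * m.real B)
      rw [sub_self] at h3
      refine h3.congr fun n => ?_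
      rw [h2 n]
      rfl) A B hA hB
  have h2 : (m.prod m).real (Prod.fst ⁻¹' A ∩ Prod.snd ⁻¹' B) = m.real A * m.real B := by
    rw [← Set.prod_eq, measureReal_prod_prod]
  simp only [preimage_id] at h1
  have h3 := h1.add_const (m.real A * m.real B)
  rw [zero_add] at h3
  refine h3.congr fun n => ?_
  rw [h2]
  ring

theorem iter_pi {ι X : Type*} (T : X → X) (n : ℕ) :
    (fun (x : ι → X) i => T (x i))^[n] = fun x i => T^[n] (x i) := by
  induction n with
  | zero => rfl
  | succ n ih =>
    rw [Function.iterate_succ', ih]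
    ext x i
    simp only [Function.comp_apply, Function.iterate_succ_apply']

theorem mx_pi {X : Type*} [MeasurableSpace X] {μ : Measure X} [IsProbabilityMeasure μ]
    {T : X → X} (hT : MeasurePreserving T μ μ) (h : Mx μ T) (ι : Type*) [Fintype ι] :
    Mx (Measure.pi fun _ : ι => μ) (fun (x : ι → X) i => T (x i)) := by
  refine mx_of_pi (measurePreserving_pi _ _ fun _ => hT) generateFrom_pi.symm isPiSystem_pi ?_ ?_
  · exact ⟨fun _ => univ, fun _ _ => MeasurableSet.univ, by simp⟩
  · rintro _ ⟨a, ha, rfl⟩ _ ⟨b, hb, rfl⟩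
    have h1 : ∀ n : ℕ, (univ.pi a ∩ (fun (x : ι → X) i => T (x i))^[n] ⁻¹' univ.pi b)
        = univ.pi fun i => a i ∩ T^[n] ⁻¹' b i := by
      intro n
      rw [iter_pi]
      ext x
      simp only [mem_inter_iff, Set.mem_pi, mem_preimage, mem_univ, true_implies]
      exact ⟨fun h i => ⟨h.1 i, h.2 i⟩, fun h => ⟨fun i => (h i).1, fun i => (h i).2⟩⟩
    have h2 : ∀ s : ι → Set X, (Measure.pi fun _ : ι => μ).real (univ.pi s)
        = ∏ i, μ.real (s i) := by
      intro s
      simp only [Measure.real, Measure.pi_pi, ENNReal.toReal_prod]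
    simp only [h1, h2]
    rw [← Finset.prod_mul_distrib]
    refine tendsto_finsetProd _ fun i _ => ?_
    exact h (a i) (b i) (ha i (mem_univ i)) (hb i (mem_univ i))

theorem Mx.ergodic {m : Measure Ω} [IsProbabilityMeasure m] {S : Ω → Ω}
    (hS : MeasurePreserving S m m) (h : Mx m S) : Ergodic S m := by
  refine ⟨hS, ⟨?_⟩⟩
  intro s hs hinv
  have h1 := h s s hs hs
  have h2 : ∀ n : ℕ, S^[n] ⁻¹' s = s := by
    intro n
    induction n with
    | zero => rfl
    | succ n ih => rw [Function.iterate_succ', preimage_comp, hinv, ih]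
  simp only [h2, inter_self] at h1
  have h3 := tendsto_nhds_unique tendsto_const_nhds h1
  rw [eventuallyConst_set']
  rcases mul_eq_zero.1 (show m.real s * (m.real s - 1) = 0 by linarith) with h4 | h4
  · left
    rw [measureReal_eq_zero_iff] at h4
    exact ae_eq_empty.2 h4
  · right
    have h5 : m.real sᶜ = 0 := by
      rw [measureReal_compl hs]
      simp
      linarith
    rw [measureReal_eq_zero_iff] at h5
    exact ae_eq_univ.2 h5

/-- Zero-one law: fibres of an invariant set over the nonmixing factor are trivial. -/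
theorem zero_one {V R : Type*} [MeasurableSpace V] [MeasurableSpace R] {m : Measure V}
    [IsProbabilityMeasure m] {l : Measure R} [IsProbabilityMeasure l] {S : V → V}
    (hS : MeasurePreserving S m m) (hmix : Mx m S) {U : R → R} (hU : MeasurePreserving U l l)
    {E : Set (V × R)} (hE : MeasurableSet E)
    (hinv : ∀ᵐ p ∂(m.prod l), (S p.1, U p.2) ∈ E ↔ p ∈ E) :
    ∀ᵐ c ∂l, m.real {v | (v, c) ∈ E} = 0 ∨ m.real {v | (v, c) ∈ E} = 1 := by
  let φ : R → ℝ := fun c => m.real {v | (v, c) ∈ E}
  have mφ : Measurable φ := (measurable_measure_prodMk_right hE).ennreal_toReal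
  have φ0 : ∀ c, 0 ≤ φ c := fun c => measureReal_nonneg
  have φ1 : ∀ c, φ c ≤ 1 := fun c => measureReal_le_one
  have hSU : MeasurePreserving (Prod.map S U) (m.prod l) (m.prod l) := hS.prod hU
  have hiter : ∀ n : ℕ, (Prod.map S U)^[n] = Prod.map S^[n] U^[n] := fun n =>
    Prod.map_iterate S U n
  -- invariance under iterates
  have hinvn : ∀ n : ℕ, ∀ᵐ p ∂(m.prod l), (Prod.map S U)^[n] p ∈ E ↔ p ∈ E := by
    intro n
    induction n with
    | zero => exact Eventually.of_forall fun p => Iff.rfl
    | succ n ih =>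
      filter_upwards [ih, mp_ae (hSU.iterate n) hinv] with p h1 h2
      rw [Function.iterate_succ_apply', ← h1]
      exact h2
  have hφn : ∀ n : ℕ, ∀ᵐ c ∂l, φ (U^[n] c) = φ c := by
    intro n
    have h1 := Measure.ae_ae_of_ae_prod (mp_ae (Measure.measurePreserving_swap (μ := l)
      (ν := m)) (hinvn n))
    filter_upwards [h1] with c hc
    have hms : MeasurableSet {v | (v, U^[n] c) ∈ E} := measurable_prodMk_right hE
    have h2 : m.real {v | (v, U^[n] c) ∈ E} = m.real (S^[n] ⁻¹' {v | (v, U^[n] c) ∈ E}) := by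
      rw [measureReal_def, measureReal_def, (hS.iterate n).measure_preimage
        hms.nullMeasurableSet]
    show m.real {v | (v, U^[n] c) ∈ E} = m.real {v | (v, c) ∈ E}
    rw [h2]
    refine measureReal_congr ?_
    filter_upwards [hc] with v hv
    rw [hiter] at hv
    exact propext hv
  -- convergence
  have h1 := dynkin2 (m.prod l) generateFrom_prod.symm isPiSystem_prod
    ⟨univ, MeasurableSet.univ, univ, MeasurableSet.univ, univ_prod_univ⟩
    (P := m.prod l) (P' := m.prod (m.prod l)) (α := fun _ => id)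
    (β := fun n => (Prod.map S U)^[n])
    (α' := fun _ p => (p.1, p.2.2)) (β' := fun n p => (p.2.1, U^[n] p.2.2))
    (fun _ => MeasurePreserving.id _) (fun n => hSU.iterate n)
    (fun _ => (MeasurePreserving.id m).prod measurePreserving_snd)
    (fun n => ((MeasurePreserving.id m).prod (hU.iterate n)).comp measurePreserving_snd)
    (by
      rintro _ ⟨A1, hA1, C1, hC1, rfl⟩ _ ⟨A2, hA2, C2, hC2, rfl⟩
      have e1 : ∀ n : ℕ, (m.prod l).real (id ⁻¹' (A1 ×ˢ C1) ∩
          (Prod.map S U)^[n] ⁻¹' (A2 ×ˢ C2))
          = m.real (A1 ∩ S^[n] ⁻¹' A2) * l.real (C1 ∩ U^[n] ⁻¹' C2) := by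
        intro n
        rw [← measureReal_prod_prod, hiter]
        congr 1
        ext p
        simp only [mem_inter_iff, mem_preimage, mem_prod, id, Prod.map]
        tauto
      have e2 : ∀ n : ℕ, (m.prod (m.prod l)).real
          ((fun p : V × V × R => (p.1, p.2.2)) ⁻¹' (A1 ×ˢ C1) ∩
          (fun p : V × V × R => (p.2.1, U^[n] p.2.2)) ⁻¹' (A2 ×ˢ C2))
          = m.real A1 * (m.real A2 * l.real (C1 ∩ U^[n] ⁻¹' C2)) := by
        intro n
        rw [← measureReal_prod_prod, ← measureReal_prod_prod]
        congr 1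
        ext p
        simp only [mem_inter_iff, mem_preimage, mem_prod]
        tauto
      simp only [e1, e2]
      have h2 : ∀ n : ℕ, m.real (A1 ∩ S^[n] ⁻¹' A2) * l.real (C1 ∩ U^[n] ⁻¹' C2)
          - m.real A1 * (m.real A2 * l.real (C1 ∩ U^[n] ⁻¹' C2))
          = (m.real (A1 ∩ S^[n] ⁻¹' A2) - m.real A1 * m.real A2)
            * l.real (C1 ∩ U^[n] ⁻¹' C2) := fun n => by ring
      simp only [h2]
      have h3 := (hmix A1 A2 hA1 hA2).sub_const (m.real A1 * m.real A2)
      rw [sub_self] at h3
      refine h3.zero_mul_isBoundedUnder_le ?_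
      exact isBoundedUnder_of ⟨1, fun n => by
        simp only [Function.comp_apply]
        rw [Real.norm_eq_abs, abs_of_nonneg measureReal_nonneg]
        exact measureReal_le_one⟩) E E hE hE
  have e3 : ∀ n : ℕ, (m.prod l).real (id ⁻¹' E ∩ (Prod.map S U)^[n] ⁻¹' E)
      = ∫ c, φ c ∂l := by
    intro n
    have h2 : (m.prod l).real (id ⁻¹' E ∩ (Prod.map S U)^[n] ⁻¹' E) = (m.prod l).real E := by
      refine measureReal_congr ?_
      filter_upwards [hinvn n] with p hp
      refine propext ?_
      show (p ∈ E ∧ (Prod.map S U)^[n] p ∈ E) ↔ p ∈ E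
      tauto
    rw [h2, measureReal_def, Measure.prod_apply_symm hE, ← integral_toReal]
    · rfl
    · exact (measurable_measure_prodMk_right hE).aemeasurable
    · exact Eventually.of_forall fun c => measure_lt_top _ _
  have e4 : ∀ n : ℕ, (m.prod (m.prod l)).real
      ((fun p : V × V × R => (p.1, p.2.2)) ⁻¹' E ∩
      (fun p : V × V × R => (p.2.1, U^[n] p.2.2)) ⁻¹' E) = ∫ c, φ c ^ 2 ∂l := by
    intro n
    have hm : MeasurableSet ((fun p : V × V × R => (p.1, p.2.2)) ⁻¹' E ∩
      (fun p : V × V × R => (p.2.1, U^[n] p.2.2)) ⁻¹' E) := by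
      have hUn : Measurable U^[n] := hU.measurable.iterate n
      refine MeasurableSet.inter ?_ ?_
      · exact (measurable_fst.prodMk (measurable_snd.comp measurable_snd)) hE
      · exact ((measurable_fst.comp measurable_snd).prodMk
          (hUn.comp (measurable_snd.comp measurable_snd))) hE
    have hmp := (measurePreserving_prodAssoc m m l)
    have hm' := hmp.measurable hm
    rw [measureReal_def, ← hmp.measure_preimage hm.nullMeasurableSet,
      Measure.prod_apply_symm hm', ← integral_toReal]
    · refine integral_congr_ae ?_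
      filter_upwards [hφn n] with c hc
      have h2 : ((fun x : V × V => (x, c)) ⁻¹' (MeasurableEquiv.prodAssoc ⁻¹'
          ((fun p : V × V × R => (p.1, p.2.2)) ⁻¹' E ∩
          (fun p : V × V × R => (p.2.1, U^[n] p.2.2)) ⁻¹' E)))
          = {v | (v, c) ∈ E} ×ˢ {v | (v, U^[n] c) ∈ E} := by
        ext x
        rfl
      rw [h2, Measure.prod_prod, ENNReal.toReal_mul]
      show φ c * φ (U^[n] c) = φ c ^ 2
      rw [hc, sq]
    · exact (measurable_measure_prodMk_right hm').aemeasurable
    · exact Eventually.of_forall fun c => measure_lt_top _ _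
  simp only [e3, e4] at h1
  have h2 := tendsto_nhds_unique tendsto_const_nhds h1
  have i1 : Integrable φ l := Integrable.of_bound mφ.aestronglyMeasurable 1
    (Eventually.of_forall fun c => by
      rw [Real.norm_eq_abs, abs_of_nonneg (φ0 c)]
      exact φ1 c)
  have i2 : Integrable (fun c => φ c ^ 2) l :=
    Integrable.of_bound (mφ.pow_const 2).aestronglyMeasurable 1
    (Eventually.of_forall fun c => by
      rw [Real.norm_eq_abs, abs_of_nonneg (by positivity)]
      exact pow_le_one₀ (φ0 c) (φ1 c))
  have h3 : ∫ c, (φ c - φ c ^ 2) ∂l = 0 := by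
    rw [integral_sub i1 i2, h2]
  have h4 := (integral_eq_zero_iff_of_nonneg (fun c => by
    show 0 ≤ φ c - φ c ^ 2
    nlinarith [φ0 c, φ1 c]) (i1.sub i2)).1 h3
  filter_upwards [h4] with c hc
  have hc' : φ c - φ c ^ 2 = 0 := hc
  rcases mul_eq_zero.1 (show φ c * (1 - φ c) = 0 by linarith) with h5 | h5
  · left
    exact h5
  · right
    have : φ c = 1 := by linarith
    exact this

end

end Pool.Agent.Y313.RM
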