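import Pool.Agent.Y313.RM.Dyn1
import Pool.Agent.H716R2.MixK

set_option autoImplicit false

/-!
# Limit joinings: marginals and functoriality
-/

open MeasureTheory Set Filter Topology ProbabilityTheory
open scoped ENNReal NNReal

namespace Pool.Agent.Y313.RM

section
variable {X : Type*} [MeasurableSpace X]

theorem rect_mem {ι : Type*} [Fintype ι] {α : Type*} [MeasurableSpace α] {b : ι → Set α}
    (hb : ∀ i, MeasurableSet (b i)) :
    (univ.pi b) ∈ (pi univ '' pi univ fun _ : ι => {s : Set α | MeasurableSet s}) :=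
  ⟨b, fun i _ => hb i, rfl⟩

theorem univ_mem_rect (ι : Type*) [Fintype ι] (α : Type*) [MeasurableSpace α] :
    univ ∈ (pi univ '' pi univ fun _ : ι => {s : Set α | MeasurableSet s}) :=
  ⟨fun _ => univ, fun _ _ => MeasurableSet.univ, by simp⟩

/-- measures on matrices are determined by rectangles -/
theorem pi_of_rect {L I : Type*} [Fintype L] [Fintype I] {σ : L → Measure (I → X)}
    [∀ l, IsProbabilityMeasure (σ l)] {Q : Measure (L → I → X)}
    (h : ∀ b : L → I → Set X, (∀ l i, MeasurableSet (b l i)) →
      Q {C | ∀ l i, C l i ∈ b l i} = ∏ l, σ l (univ.pi (b l))) : Measure.pi σ = Q := by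
  refine Measure.pi_eq_generateFrom
    (C := fun _ => (pi univ '' pi univ fun _ : I => {s : Set X | MeasurableSet s}))
    (fun _ => generateFrom_pi) (fun _ => isPiSystem_pi)
    (fun l => ⟨fun _ => univ, fun _ => univ_mem_rect I X, fun _ => measure_lt_top _ _,
      iUnion_const univ⟩) ?_
  intro s hs
  choose b hb1 hb2 using hs
  have e1 : univ.pi s = {C | ∀ l i, C l i ∈ b l i} := by
    ext C
    simp only [Set.mem_pi, mem_univ, true_implies, ← hb2]
    rfl
  rw [e1, h b fun l i => hb1 l i (mem_univ i)]
  exact Finset.prod_congr rfl fun l _ => by rw [hb2]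

theorem mp_transpose (μ : Measure X) [IsProbabilityMeasure μ] (A B : Type*) [Fintype A]
    [Fintype B] :
    MeasurePreserving (fun (Z : A → B → X) b a => Z a b)
      (Measure.pi fun _ : A => Measure.pi fun _ : B => μ)
      (Measure.pi fun _ : B => Measure.pi fun _ : A => μ) := by
  have hm : Measurable (fun (Z : A → B → X) b a => Z a b) := by
    refine measurable_pi_iff.2 fun b => measurable_pi_iff.2 fun a => ?_
    exact (measurable_pi_apply b).comp (measurable_pi_apply a)
  refine ⟨hm, ?_⟩
  symm
  refine pi_of_rect fun b hb => ?_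
  rw [Measure.map_apply hm]
  · have e1 : ((fun (Z : A → B → X) b a => Z a b) ⁻¹' {C | ∀ l i, C l i ∈ b l i})
        = univ.pi fun a => univ.pi fun l => b l a := by
      ext Z
      simp only [mem_preimage, Set.mem_pi, mem_univ, true_implies]
      exact ⟨fun h a l => h l a, fun h l a => h a l⟩
    rw [e1, Measure.pi_pi]
    simp only [Measure.pi_pi]
    rw [Finset.prod_comm]
  · have e1 : {C : B → A → X | ∀ l i, C l i ∈ b l i} = univ.pi fun l => univ.pi (b l) := by
      ext C
      simp only [Set.mem_pi, mem_univ, true_implies]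
      rfl
    rw [e1]
    exact MeasurableSet.univ_pi fun l => MeasurableSet.univ_pi fun i => hb l i

theorem mp_perm (μ : Measure X) [IsProbabilityMeasure μ] {n : ℕ} (σ : Equiv.Perm (Fin n)) :
    MeasurePreserving (fun (y : Fin n → X) j => y (σ j)) (Measure.pi fun _ => μ)
      (Measure.pi fun _ => μ) := by
  have hm : Measurable (fun (y : Fin n → X) j => y (σ j)) :=
    measurable_pi_iff.2 fun j => measurable_pi_apply _
  refine ⟨hm, ?_⟩
  symm
  refine Measure.pi_eq fun s hs => ?_
  rw [Measure.map_apply hm (MeasurableSet.univ_pi hs)]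
  have e1 : ((fun (y : Fin n → X) j => y (σ j)) ⁻¹' univ.pi s)
      = univ.pi fun j => s (σ.symm j) := by
    ext y
    simp only [mem_preimage, Set.mem_pi, mem_univ, true_implies]
    constructor
    · intro h j
      simpa using h (σ.symm j)
    · intro h j
      simpa using h (σ j)
  rw [e1, Measure.pi_pi]
  exact Equiv.prod_comp σ.symm fun j => μ (s j)

/-- All marginals on `k + 1` of the `k + 2` coordinates are independent. -/
def Good (μ : Measure X) {k : ℕ} (σ : Measure (Fin (k + 2) → X)) : Prop :=
  ∀ e : Fin (k + 1) → Fin (k + 2), Function.Injective e →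
    MeasurePreserving (fun (x : Fin (k + 2) → X) j => x (e j)) σ
      (Measure.pi fun _ : Fin (k + 1) => μ)

theorem good_of_succAbove {μ : Measure X} [IsProbabilityMeasure μ] {k : ℕ}
    {σ : Measure (Fin (k + 2) → X)}
    (h : ∀ q : Fin (k + 2), MeasurePreserving
      (fun (x : Fin (k + 2) → X) (j : Fin (k + 1)) => x (q.succAbove j)) σ
      (Measure.pi fun _ : Fin (k + 1) => μ)) : Good μ σ := by
  intro e he
  have hns : ¬ Function.Surjective e := by
    intro hs
    have := Fintype.card_of_bijective ⟨he, hs⟩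
    simp at this
  simp only [Function.Surjective, not_forall, not_exists] at hns
  obtain ⟨q, hq⟩ := hns
  have hex : ∀ j, ∃ j', q.succAbove j' = e j := fun j => Fin.exists_succAbove_eq (hq j)
  choose s hs using hex
  have sinj : Function.Injective s := by
    intro a b hab
    apply he
    rw [← hs a, ← hs b, hab]
  let σ' : Equiv.Perm (Fin (k + 1)) := Equiv.ofBijective s (Finite.injective_iff_bijective.1 sinj)
  have h1 := (mp_perm μ σ').comp (h q)
  have e1 : (fun (y : Fin (k + 1) → X) j => y (σ' j)) ∘
      (fun (x : Fin (k + 2) → X) (j : Fin (k + 1)) => x (q.succAbove j))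
      = fun (x : Fin (k + 2) → X) j => x (e j) := by
    ext x j
    simp only [Function.comp_apply]
    have : σ' j = s j := rfl
    rw [this, hs]
  rwa [e1] at h1

open Pool.Agent.H716R2 in
theorem good_of_conv {μ : Measure X} [IsProbabilityMeasure μ] {T : X ≃ᵐ X} {k : ℕ}
    (hfact : FactSet μ T (k + 1)) {t : ℕ → Fin (k + 2) → ℕ} (ht : Spread t)
    {lam : Measure (Fin (k + 2) → X)} [IsProbabilityMeasure lam]
    (hconv : ∀ A : Fin (k + 2) → Set X, (∀ i, MeasurableSet (A i)) →
      Tendsto (fun n => μ.real (⋂ i, (⇑T)^[t n i] ⁻¹' A i)) atTop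
        (𝓝 (lam.real (univ.pi A)))) : Good μ lam := by
  refine good_of_succAbove fun q => ?_
  have hm : Measurable (fun (x : Fin (k + 2) → X) (j : Fin (k + 1)) => x (q.succAbove j)) :=
    measurable_pi_iff.2 fun j => measurable_pi_apply _
  refine ⟨hm, ?_⟩
  symm
  refine Measure.pi_eq fun s hs => ?_
  rw [Measure.map_apply hm (MeasurableSet.univ_pi hs)]
  let B : Fin (k + 2) → Set X := q.insertNth (α := fun _ => Set X) univ s
  have hB : ∀ i, MeasurableSet (B i) := by
    intro i
    refine Fin.succAboveCases q ?_ (fun j => ?_) i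
    · simp [B]
    · simpa [B] using hs j
  have h1 := hconv B hB
  have h2 := hfact (fun n j => t n (q.succAbove j)) (ht.succAbove q) s hs
  have e1 : ∀ n, (⋂ i, (⇑T)^[t n i] ⁻¹' B i) = ⋂ j, (⇑T)^[t n (q.succAbove j)] ⁻¹' s j := by
    intro n
    ext x
    simp only [mem_iInter, mem_preimage]
    constructor
    · intro h j
      simpa [B] using h (q.succAbove j)
    · intro h i
      refine Fin.succAboveCases q ?_ (fun j => ?_) i
      · simp [B]
      · simpa [B] using h j
  simp only [e1] at h1
  have h3 := tendsto_nhds_unique h1 h2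
  have e2 : ((fun (x : Fin (k + 2) → X) (j : Fin (k + 1)) => x (q.succAbove j)) ⁻¹' univ.pi s)
      = univ.pi B := by
    ext x
    simp only [mem_preimage, Set.mem_pi, mem_univ, true_implies]
    constructor
    · intro h i
      refine Fin.succAboveCases q ?_ (fun j => ?_) i
      · simp [B]
      · simpa [B] using h j
    · intro h j
      simpa [B] using h (q.succAbove j)
  rw [e2, ← ENNReal.ofReal_toReal (measure_ne_top lam (univ.pi B))]
  have h4 : (lam (univ.pi B)).toReal = ∏ i, μ.real (s i) := h3
  rw [h4, ENNReal.ofReal_prod_of_nonneg fun i _ => measureReal_nonneg]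
  exact Finset.prod_congr rfl fun i _ => ENNReal.ofReal_toReal (measure_ne_top μ _)

/-- the one-dimensional marginals of a good measure -/
theorem Good.eval {μ : Measure X} [IsProbabilityMeasure μ] {k : ℕ}
    {σ : Measure (Fin (k + 2) → X)} (h : Good μ σ) (i : Fin (k + 2)) :
    MeasurePreserving (fun x : Fin (k + 2) → X => x i) σ μ := by
  obtain ⟨q, hq⟩ : ∃ q : Fin (k + 2), q ≠ i := exists_ne i
  obtain ⟨j, hj⟩ := Fin.exists_succAbove_eq hq.symm
  have h1 := h (fun j => q.succAbove j) Fin.succAbove_right_injective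
  have h2 := (measurePreserving_eval (fun _ : Fin (k + 1) => μ) j).comp h1
  have e1 : (Function.eval j ∘ fun (x : Fin (k + 2) → X) j => x (q.succAbove j))
      = fun x : Fin (k + 2) → X => x i := by
    ext x
    simp [hj]
  rwa [e1] at h2

/-- invariance of the limit -/
theorem inv_of_conv {μ : Measure X} {T : X ≃ᵐ X}
    (hT : MeasurePreserving T μ μ) {I : Type*} [Fintype I] {t : ℕ → I → ℕ}
    {lam : Measure (I → X)} [IsProbabilityMeasure lam]
    (hconv : ∀ A : I → Set X, (∀ i, MeasurableSet (A i)) →
      Tendsto (fun n => μ.real (⋂ i, (⇑T)^[t n i] ⁻¹' A i)) atTop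
        (𝓝 (lam.real (univ.pi A)))) :
    MeasurePreserving (fun (x : I → X) i => T (x i)) lam lam := by
  have hm : Measurable (fun (x : I → X) i => T (x i)) :=
    measurable_pi_iff.2 fun i => T.measurable.comp (measurable_pi_apply i)
  refine ⟨hm, ?_⟩
  have := Measure.isProbabilityMeasure_map (μ := lam) hm.aemeasurable
  refine ext_of_generate_finite _ generateFrom_pi.symm isPiSystem_pi ?_ (by simp)
  rintro _ ⟨b, hb, rfl⟩
  have hb' : ∀ i, MeasurableSet (b i) := fun i => hb i (mem_univ i)
  rw [Measure.map_apply hm (MeasurableSet.univ_pi hb')]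
  have e0 : ((fun (x : I → X) i => T (x i)) ⁻¹' univ.pi b) = univ.pi fun i => T ⁻¹' b i := by
    ext x
    simp [Set.mem_pi]
  rw [e0]
  have h1 := hconv (fun i => T ⁻¹' b i) fun i => T.measurable (hb' i)
  have h2 := hconv b hb'
  have e1 : ∀ n, μ.real (⋂ i, (⇑T)^[t n i] ⁻¹' (T ⁻¹' b i))
      = μ.real (⋂ i, (⇑T)^[t n i] ⁻¹' b i) := by
    intro n
    have e2 : (⋂ i, (⇑T)^[t n i] ⁻¹' (T ⁻¹' b i)) = T ⁻¹' (⋂ i, (⇑T)^[t n i] ⁻¹' b i) := by
      ext x
      simp only [mem_iInter, mem_preimage]
      refine forall_congr' fun i => ?_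
      have : T ((⇑T)^[t n i] x) = (⇑T)^[t n i] (T x) := by
        rw [← Function.iterate_succ_apply (⇑T), Function.iterate_succ_apply' (⇑T)]
      rw [this]
    rw [e2]
    exact hT.measureReal_preimage (MeasurableSet.iInter fun i =>
      (T.measurable.iterate (t n i)) (hb' i)).nullMeasurableSet
  simp only [e1] at h1
  have h3 := tendsto_nhds_unique h1 h2
  rwa [measureReal_def, measureReal_def,
    ENNReal.toReal_eq_toReal_iff' (measure_ne_top _ _) (measure_ne_top _ _)] at h3

/-- **Functoriality.** -/
theorem functor {μ : Measure X} [IsProbabilityMeasure μ] {T : X ≃ᵐ X}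
    (hT : MeasurePreserving T μ μ) {I : Type*} [Fintype I] {t : ℕ → I → ℕ}
    {lam : Measure (I → X)} [IsProbabilityMeasure lam]
    (hmarg : ∀ i, MeasurePreserving (fun x : I → X => x i) lam μ)
    (hconv : ∀ A : I → Set X, (∀ i, MeasurableSet (A i)) →
      Tendsto (fun n => μ.real (⋂ i, (⇑T)^[t n i] ⁻¹' A i)) atTop
        (𝓝 (lam.real (univ.pi A))))
    (J : Type*) [Fintype J] (Q : I → Set (J → X)) (hQ : ∀ i, MeasurableSet (Q i)) :
    Tendsto (fun n => (Measure.pi fun _ : J => μ).real
      (⋂ i, (fun (x : J → X) j => T (x j))^[t n i] ⁻¹' Q i)) atTop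
      (𝓝 ((Measure.pi fun _ : J => lam).real {C | ∀ i, (fun l => C l i) ∈ Q i})) := by
  classical
  have hTJ : MeasurePreserving (fun (x : J → X) j => T (x j)) (Measure.pi fun _ : J => μ)
      (Measure.pi fun _ : J => μ) := measurePreserving_pi _ _ fun _ => hT
  have hcol : ∀ i, MeasurePreserving (fun (C : J → I → X) l => C l i)
      (Measure.pi fun _ : J => lam) (Measure.pi fun _ : J => μ) := fun i =>
    measurePreserving_pi _ _ fun _ => hmarg i
  have h1 := dynkinI (I := I) (Measure.pi fun _ : J => μ) generateFrom_pi.symm isPiSystem_pi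
    (univ_mem_rect J X) (P := Measure.pi fun _ : J => μ) (P' := Measure.pi fun _ : J => lam)
    (α := fun n i => (fun (x : J → X) j => T (x j))^[t n i])
    (α' := fun _ i C l => C l i)
    (fun n i => hTJ.iterate _) (fun _ i => hcol i) (by
      intro A hA
      choose b hb1 hb2 using hA
      have hb1' : ∀ i l, MeasurableSet (b i l) := fun i l => hb1 i l (mem_univ l)
      have e1 : ∀ n, (Measure.pi fun _ : J => μ).real
          (⋂ i, (fun (x : J → X) j => T (x j))^[t n i] ⁻¹' A i)
          = ∏ l : J, μ.real (⋂ i, (⇑T)^[t n i] ⁻¹' b i l) := by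
        intro n
        have e2 : (⋂ i, (fun (x : J → X) j => T (x j))^[t n i] ⁻¹' A i)
            = univ.pi fun l => ⋂ i, (⇑T)^[t n i] ⁻¹' b i l := by
          ext x
          simp only [mem_iInter, mem_preimage, iter_pi, ← hb2, Set.mem_pi, mem_univ,
            true_implies]
          exact ⟨fun h l i => h i l, fun h i l => h l i⟩
        rw [e2]
        simp only [Measure.real, Measure.pi_pi, ENNReal.toReal_prod]
      have e3 : (Measure.pi fun _ : J => lam).real (⋂ i, (fun (C : J → I → X) l => C l i) ⁻¹' A i)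
          = ∏ l : J, lam.real (univ.pi fun i => b i l) := by
        have e2 : (⋂ i, (fun (C : J → I → X) l => C l i) ⁻¹' A i)
            = univ.pi fun l => univ.pi fun i => b i l := by
          ext C
          simp only [mem_iInter, mem_preimage, ← hb2, Set.mem_pi, mem_univ,
            true_implies]
          exact ⟨fun h l i => h i l, fun h i l => h l i⟩
        rw [e2]
        simp only [Measure.real, Measure.pi_pi, ENNReal.toReal_prod]
      simp only [e1, e3]
      have h2 : Tendsto (fun n => ∏ l : J, μ.real (⋂ i, (⇑T)^[t n i] ⁻¹' b i l)) atTop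
          (𝓝 (∏ l : J, lam.real (univ.pi fun i => b i l))) :=
        tendsto_finsetProd _ fun l _ => hconv (fun i => b i l) fun i => hb1' i l
      have h3 := h2.sub_const (∏ l : J, lam.real (univ.pi fun i => b i l))
      rwa [sub_self] at h3) Q hQ
  have e4 : (⋂ i, (fun (C : J → I → X) l => C l i) ⁻¹' Q i)
      = {C | ∀ i, (fun l => C l i) ∈ Q i} := by
    ext C
    simp
  simp only [e4] at h1
  have h2 := h1.add_const
    ((Measure.pi fun _ : J => lam).real {C : J → I → X | ∀ i, (fun l => C l i) ∈ Q i})
  rw [zero_add] at h2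
  refine h2.congr fun n => ?_
  ring

/-- Equivariant measure preserving maps act on limit joinings. -/
theorem gpres {μ : Measure X} [IsProbabilityMeasure μ] {T : X ≃ᵐ X}
    (hT : MeasurePreserving T μ μ) {I : Type*} [Fintype I] {t : ℕ → I → ℕ}
    {lam : Measure (I → X)} [IsProbabilityMeasure lam]
    (hmarg : ∀ i, MeasurePreserving (fun x : I → X => x i) lam μ)
    (hconv : ∀ A : I → Set X, (∀ i, MeasurableSet (A i)) →
      Tendsto (fun n => μ.real (⋂ i, (⇑T)^[t n i] ⁻¹' A i)) atTop
        (𝓝 (lam.real (univ.pi A))))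
    (J : Type*) [Fintype J] {G : (J → X) → (J → X)}
    (hG : MeasurePreserving G (Measure.pi fun _ : J => μ) (Measure.pi fun _ : J => μ))
    (hGT : ∀ᵐ u ∂(Measure.pi fun _ : J => μ), G (fun j => T (u j)) = fun j => T (G u j)) :
    MeasurePreserving (fun (C : J → I → X) l i => G (fun l' => C l' i) l)
      (Measure.pi fun _ : J => lam) (Measure.pi fun _ : J => lam) := by
  have mcol : ∀ i, Measurable fun (C : J → I → X) l => C l i := fun i =>
    measurable_pi_iff.2 fun l => (measurable_pi_apply i).comp (measurable_pi_apply l)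
  have hm : Measurable (fun (C : J → I → X) l i => G (fun l' => C l' i) l) :=
    measurable_pi_iff.2 fun l => measurable_pi_iff.2 fun i =>
      (measurable_pi_apply l).comp (hG.measurable.comp (mcol i))
  have hTJ : MeasurePreserving (fun (x : J → X) j => T (x j)) (Measure.pi fun _ : J => μ)
      (Measure.pi fun _ : J => μ) := measurePreserving_pi _ _ fun _ => hT
  have hGn : ∀ n : ℕ, ∀ᵐ u ∂(Measure.pi fun _ : J => μ),
      G ((fun (x : J → X) j => T (x j))^[n] u) = (fun (x : J → X) j => T (x j))^[n] (G u) := by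
    intro n
    induction n with
    | zero => exact Eventually.of_forall fun u => rfl
    | succ n ih =>
      filter_upwards [ih, mp_ae (hTJ.iterate n) hGT] with u h1 h2
      rw [Function.iterate_succ_apply', Function.iterate_succ_apply', ← h1]
      exact h2
  refine ⟨hm, ?_⟩
  symm
  refine pi_of_rect fun b hb => ?_
  have mrect : MeasurableSet {C : J → I → X | ∀ l i, C l i ∈ b l i} := by
    have e1 : {C : J → I → X | ∀ l i, C l i ∈ b l i} = univ.pi fun l => univ.pi (b l) := by
      ext C
      simp only [Set.mem_pi, mem_univ, true_implies]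
      rfl
    rw [e1]
    exact MeasurableSet.univ_pi fun l => MeasurableSet.univ_pi fun i => hb l i
  rw [Measure.map_apply hm mrect]
  have mR : ∀ i, MeasurableSet (univ.pi fun l => b l i) := fun i =>
    MeasurableSet.univ_pi fun l => hb l i
  have h1 := functor hT hmarg hconv J (fun i => G ⁻¹' (univ.pi fun l => b l i))
    fun i => hG.measurable (mR i)
  have h2 := functor hT hmarg hconv J (fun i => univ.pi fun l => b l i) mR
  have e1 : ∀ n, (Measure.pi fun _ : J => μ).real
      (⋂ i, (fun (x : J → X) j => T (x j))^[t n i] ⁻¹' (G ⁻¹' (univ.pi fun l => b l i)))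
      = (Measure.pi fun _ : J => μ).real
      (⋂ i, (fun (x : J → X) j => T (x j))^[t n i] ⁻¹' (univ.pi fun l => b l i)) := by
    intro n
    have mI : MeasurableSet (⋂ i, (fun (x : J → X) j => T (x j))^[t n i] ⁻¹'
        (univ.pi fun l => b l i)) :=
      MeasurableSet.iInter fun i => (hTJ.measurable.iterate (t n i)) (mR i)
    rw [← hG.measureReal_preimage mI.nullMeasurableSet]
    refine measureReal_congr ?_
    have hall : ∀ᵐ u ∂(Measure.pi fun _ : J => μ), ∀ i,
        G ((fun (x : J → X) j => T (x j))^[t n i] u)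
          = (fun (x : J → X) j => T (x j))^[t n i] (G u) := by
      rw [ae_all_iff]
      exact fun i => hGn _
    filter_upwards [hall] with u hu
    refine propext ?_
    show (u ∈ ⋂ i, (fun (x : J → X) j => T (x j))^[t n i] ⁻¹'
      (G ⁻¹' (univ.pi fun l => b l i))) ↔
      (G u ∈ ⋂ i, (fun (x : J → X) j => T (x j))^[t n i] ⁻¹' (univ.pi fun l => b l i))
    simp only [mem_iInter, mem_preimage]
    refine forall_congr' fun i => ?_
    rw [hu i]
  simp only [e1] at h1
  have h3 := tendsto_nhds_unique h1 h2
  have e2 : ((fun (C : J → I → X) l i => G (fun l' => C l' i) l) ⁻¹'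
      {C | ∀ l i, C l i ∈ b l i})
      = {C : J → I → X | ∀ i, (fun l => C l i) ∈ G ⁻¹' (univ.pi fun l => b l i)} := by
    ext C
    simp only [mem_preimage, Set.mem_pi, mem_univ, true_implies]
    exact ⟨fun h i l => h l i, fun h l i => h i l⟩
  have e3 : {C : J → I → X | ∀ i, (fun l => C l i) ∈ (univ.pi fun l => b l i)}
      = univ.pi fun l => univ.pi (b l) := by
    ext C
    simp only [Set.mem_pi, mem_univ, true_implies]
    exact ⟨fun h l i => h i l, fun h i l => h l i⟩
  rw [e2]
  rw [measureReal_def, measureReal_def,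
    ENNReal.toReal_eq_toReal_iff' (measure_ne_top _ _) (measure_ne_top _ _)] at h3
  rw [h3, e3, Measure.pi_pi]

end

end Pool.Agent.Y313.RM
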