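import Pool.Agent.Y313.RM.Dyn2

set_option autoImplicit false
set_option linter.unusedSectionVars false

/-!
# Graph components of limit joinings: the closure relation
-/

open MeasureTheory Set Filter Topology ProbabilityTheory
open scoped ENNReal NNReal

namespace Pool.Agent.Y313.RM

section
variable {X : Type*} [MeasurableSpace X]

theorem mp_cond {Θ : Type*} [MeasurableSpace Θ] {l : Measure Θ} {U : Θ → Θ}
    (hU : MeasurePreserving U l l) {E : Set Θ} (hE : MeasurableSet E)
    (hinv : ∀ᵐ x ∂l, U x ∈ E ↔ x ∈ E) : MeasurePreserving U (l[|E]) (l[|E]) := by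
  have h1 := hU.restrict_preimage hE
  have h2 : l.restrict (U ⁻¹' E) = l.restrict E := by
    refine Measure.restrict_congr_set ?_
    filter_upwards [hinv] with x hx
    exact propext hx
  rw [h2] at h1
  exact h1.smul_measure _

theorem Mx.factor {Ω Θ : Type*} [MeasurableSpace Ω] [MeasurableSpace Θ] {m : Measure Ω}
    {S : Ω → Ω} {l : Measure Θ} {U : Θ → Θ} (hmix : Mx m S) (hS : MeasurePreserving S m m)
    (hU : Measurable U)
    {i : Ω → Θ} (hi : MeasurePreserving i m l) (hc : ∀ᵐ x ∂m, i (S x) = U (i x)) : Mx l U := by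
  have hcn : ∀ n : ℕ, ∀ᵐ x ∂m, i (S^[n] x) = U^[n] (i x) := by
    intro n
    induction n with
    | zero => exact Eventually.of_forall fun u => rfl
    | succ n ih =>
      filter_upwards [ih, mp_ae (hS.iterate n) hc] with x h1 h2
      rw [Function.iterate_succ_apply', Function.iterate_succ_apply', ← h1]
      exact h2
  intro A B hA hB
  have h1 := hmix (i ⁻¹' A) (i ⁻¹' B) (hi.measurable hA) (hi.measurable hB)
  rw [hi.measureReal_preimage hA.nullMeasurableSet, hi.measureReal_preimage hB.nullMeasurableSet]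
    at h1
  refine h1.congr fun n => ?_
  rw [← hi.measureReal_preimage (hA.inter (hU.iterate n hB)).nullMeasurableSet]
  refine measureReal_congr ?_
  filter_upwards [hcn n] with x hx
  refine propext ?_
  show (i x ∈ A ∧ i (S^[n] x) ∈ B) ↔ (i x ∈ A ∧ U^[n] (i x) ∈ B)
  rw [hx]

theorem mp_insert {n : ℕ} {Θ : Type*} [MeasurableSpace Θ] (Γ : Fin (n + 1) → Measure Θ)
    [∀ l, IsProbabilityMeasure (Γ l)] (l : Fin (n + 1)) :
    MeasurePreserving (fun q : Θ × (Fin n → Θ) => l.insertNth (α := fun _ => Θ) q.1 q.2)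
      ((Γ l).prod (Measure.pi fun j => Γ (l.succAbove j))) (Measure.pi Γ) :=
  (measurePreserving_piFinSuccAbove (α := fun _ => Θ) Γ l).symm

/-- absolutely continuous invariant measures inherit the marginals -/
theorem good_of_ac {μ : Measure X} [IsProbabilityMeasure μ] {T : X → X}
    (hT : MeasurePreserving T μ μ) (hmix : Mx μ T) {k : ℕ} {lam ρ : Measure (Fin (k + 2) → X)}
    [IsProbabilityMeasure ρ] (hlam : Good μ lam) (hac : ρ ≪ lam)
    (hρ : MeasurePreserving (fun (x : Fin (k + 2) → X) i => T (x i)) ρ ρ) : Good μ ρ := by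
  intro e he
  have h1 := hlam e he
  have hTJ : MeasurePreserving (fun (x : Fin (k + 1) → X) j => T (x j))
      (Measure.pi fun _ => μ) (Measure.pi fun _ => μ) := measurePreserving_pi _ _ fun _ => hT
  have herg := (mx_pi hT hmix (Fin (k + 1))).ergodic hTJ
  refine ⟨h1.measurable, ?_⟩
  have hac2 : ρ.map (fun (x : Fin (k + 2) → X) j => x (e j)) ≪ (Measure.pi fun _ => μ) := by
    rw [← h1.map_eq]
    exact hac.map h1.measurable
  have := Measure.isProbabilityMeasure_map (μ := ρ) h1.measurable.aemeasurable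
  refine herg.eq_of_absolutelyContinuous ⟨hTJ.measurable, ?_⟩ hac2
  rw [Measure.map_map hTJ.measurable h1.measurable]
  have e1 : (fun (x : Fin (k + 1) → X) j => T (x j)) ∘ (fun (x : Fin (k + 2) → X) j => x (e j))
      = (fun (x : Fin (k + 2) → X) j => x (e j)) ∘ (fun (x : Fin (k + 2) → X) i => T (x i)) := rfl
  rw [e1, ← Measure.map_map h1.measurable hρ.measurable, hρ.map_eq]

variable [MeasurableEq X]

/-- the graph set -/
def Gr {k : ℕ} (p : Fin (k + 2)) (F : (Fin (k + 1) → X) → X) : Set (Fin (k + 2) → X) :=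
  {x | x p = F (fun j => x (p.succAbove j))}

theorem Gr_meas {k : ℕ} (p : Fin (k + 2)) {F : (Fin (k + 1) → X) → X} (hF : Measurable F) :
    MeasurableSet (Gr p F) :=
  measurableSet_eq_fun (measurable_pi_apply p)
    (hF.comp (measurable_pi_iff.2 fun _ => measurable_pi_apply _))

theorem Gr_inv {μ : Measure X} {T : X ≃ᵐ X} {k : ℕ} {lam : Measure (Fin (k + 2) → X)}
    (hlam : Good μ lam) (p : Fin (k + 2)) {F : (Fin (k + 1) → X) → X}
    (hFT : ∀ᵐ v ∂(Measure.pi fun _ : Fin (k + 1) => μ), F (fun j => T (v j)) = T (F v)) :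
    ∀ᵐ x ∂lam, (fun i => T (x i)) ∈ Gr p F ↔ x ∈ Gr p F := by
  filter_upwards [mp_ae (hlam (fun j => p.succAbove j) Fin.succAbove_right_injective) hFT]
    with x hx
  show T (x p) = F (fun j => T (x (p.succAbove j))) ↔ x p = F (fun j => x (p.succAbove j))
  rw [hx]
  exact T.injective.eq_iff

/-- a good probability measure carried by the graph of `F` -/
structure OnGr (μ : Measure X) (T : X → X) {k : ℕ} (p : Fin (k + 2)) (F : (Fin (k + 1) → X) → X)
    (γ : Measure (Fin (k + 2) → X)) : Prop where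
  prob : IsProbabilityMeasure γ
  good : Good μ γ
  inv : MeasurePreserving (fun (x : Fin (k + 2) → X) i => T (x i)) γ γ
  gr : ∀ᵐ x ∂γ, x ∈ Gr p F

theorem onGr_cond {μ : Measure X} [IsProbabilityMeasure μ] {T : X ≃ᵐ X}
    (hT : MeasurePreserving T μ μ) (hmix : Mx μ T) {k : ℕ} {lam : Measure (Fin (k + 2) → X)}
    [IsProbabilityMeasure lam] (hlam : Good μ lam)
    (hinv : MeasurePreserving (fun (x : Fin (k + 2) → X) i => T (x i)) lam lam)
    (p : Fin (k + 2)) {F : (Fin (k + 1) → X) → X} (hF : Measurable F)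
    (hFT : ∀ᵐ v ∂(Measure.pi fun _ : Fin (k + 1) => μ), F (fun j => T (v j)) = T (F v))
    (hpos : lam (Gr p F) ≠ 0) : OnGr μ T p F (lam[|Gr p F]) := by
  have := cond_isProbabilityMeasure (μ := lam) hpos
  have h1 := mp_cond hinv (Gr_meas p hF) (Gr_inv hlam p hFT)
  exact ⟨this, good_of_ac hT hmix hlam cond_absolutelyContinuous h1, h1,
    ae_cond_mem (Gr_meas p hF)⟩

theorem iota_meas {k : ℕ} (p : Fin (k + 2)) {F : (Fin (k + 1) → X) → X} (hF : Measurable F) :
    Measurable (fun v : Fin (k + 1) → X => p.insertNth (α := fun _ => X) (F v) v) :=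
  (MeasurableEquiv.piFinSuccAbove (fun _ => X) p).symm.measurable.comp
    (hF.prodMk measurable_id)

theorem OnGr.iota {μ : Measure X} {T : X → X} {k : ℕ} {p : Fin (k + 2)}
    {F : (Fin (k + 1) → X) → X} (hF : Measurable F) {γ : Measure (Fin (k + 2) → X)}
    (h : OnGr μ T p F γ) :
    MeasurePreserving (fun v : Fin (k + 1) → X => p.insertNth (α := fun _ => X) (F v) v)
      (Measure.pi fun _ => μ) γ := by
  have h1 := h.good (fun j => p.succAbove j) Fin.succAbove_right_injective
  refine ⟨iota_meas p hF, ?_⟩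
  rw [← h1.map_eq, Measure.map_map (iota_meas p hF) h1.measurable]
  have h2 : ((fun v : Fin (k + 1) → X => p.insertNth (α := fun _ => X) (F v) v) ∘
      fun (x : Fin (k + 2) → X) j => x (p.succAbove j)) =ᵐ[γ] id := by
    filter_upwards [h.gr] with x hx
    have hx' : x p = F (fun j => x (p.succAbove j)) := hx
    simp only [Function.comp_apply, id]
    rw [← hx']
    exact Fin.insertNth_self_removeNth p x
  rw [Measure.map_congr h2, Measure.map_id]

/-- replacing one input by the output preserves the product measure -/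
theorem OnGr.upd {μ : Measure X} {T : X → X} {k : ℕ} {p : Fin (k + 2)}
    {F : (Fin (k + 1) → X) → X} (hF : Measurable F) {γ : Measure (Fin (k + 2) → X)}
    (h : OnGr μ T p F γ) (j1 : Fin (k + 1)) :
    MeasurePreserving (fun v : Fin (k + 1) → X => Function.update v j1 (F v))
      (Measure.pi fun _ => μ) (Measure.pi fun _ => μ) := by
  have hinj : Function.Injective (fun j : Fin (k + 1) => if j = j1 then p else p.succAbove j) := by
    intro a b hab
    simp only at hab
    split_ifs at hab with h1 h2 h2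
    · rw [h1, h2]
    · exact absurd hab.symm (Fin.succAbove_ne p b)
    · exact absurd hab (Fin.succAbove_ne p a)
    · exact Fin.succAbove_right_injective hab
  have h1 := (h.good _ hinj).comp (h.iota hF)
  have e1 : (fun (x : Fin (k + 2) → X) j => x (if j = j1 then p else p.succAbove j)) ∘
      (fun v : Fin (k + 1) → X => p.insertNth (α := fun _ => X) (F v) v)
      = fun v : Fin (k + 1) → X => Function.update v j1 (F v) := by
    ext v j
    simp only [Function.comp_apply]
    split_ifs with h2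
    · subst h2
      simp
    · simp [Function.update_of_ne h2]
  rwa [e1] at h1

theorem OnGr.mpF {μ : Measure X} [IsProbabilityMeasure μ] {T : X → X} {k : ℕ} {p : Fin (k + 2)}
    {F : (Fin (k + 1) → X) → X} (hF : Measurable F) {γ : Measure (Fin (k + 2) → X)}
    (h : OnGr μ T p F γ) : MeasurePreserving F (Measure.pi fun _ => μ) μ := by
  have h1 := (measurePreserving_eval (fun _ : Fin (k + 1) => μ) 0).comp (h.upd hF 0)
  have e1 : (Function.eval (0 : Fin (k + 1))) ∘
      (fun v : Fin (k + 1) → X => Function.update v 0 (F v)) = F := by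
    ext v
    simp
  rwa [e1] at h1

theorem rows_mp {μ : Measure X} [IsProbabilityMeasure μ] {k n : ℕ}
    {Γ : Fin n → Measure (Fin (k + 2) → X)} [∀ l, IsProbabilityMeasure (Γ l)]
    (hΓ : ∀ l, Good μ (Γ l)) (i : Fin (k + 2)) :
    MeasurePreserving (fun (C : Fin n → Fin (k + 2) → X) l => C l i) (Measure.pi Γ)
      (Measure.pi fun _ => μ) :=
  measurePreserving_pi _ _ fun l => (hΓ l).eval i

theorem allrows_mp {μ : Measure X} [IsProbabilityMeasure μ] {k n : ℕ}
    {Γ : Fin n → Measure (Fin (k + 2) → X)} [∀ l, IsProbabilityMeasure (Γ l)]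
    (hΓ : ∀ l, Good μ (Γ l)) (p : Fin (k + 2)) :
    MeasurePreserving (fun (C : Fin n → Fin (k + 2) → X) (j : Fin (k + 1)) l =>
      C l (p.succAbove j)) (Measure.pi Γ)
      (Measure.pi fun _ => Measure.pi fun _ => μ) := by
  have h1 : MeasurePreserving (fun (C : Fin n → Fin (k + 2) → X) l (j : Fin (k + 1)) =>
      C l (p.succAbove j)) (Measure.pi Γ) (Measure.pi fun _ => Measure.pi fun _ => μ) :=
    measurePreserving_pi _ _ fun l =>
      hΓ l (fun j => p.succAbove j) Fin.succAbove_right_injective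
  exact (mp_transpose μ (Fin n) (Fin (k + 1))).comp h1

theorem outs_mp {μ : Measure X} [IsProbabilityMeasure μ] {k : ℕ}
    {F : (Fin (k + 1) → X) → X} (hF : MeasurePreserving F (Measure.pi fun _ => μ) μ)
    {Γ : Fin (k + 1) → Measure (Fin (k + 2) → X)} [∀ l, IsProbabilityMeasure (Γ l)]
    (hΓ : ∀ l, Good μ (Γ l)) (p : Fin (k + 2)) :
    MeasurePreserving (fun (C : Fin (k + 1) → Fin (k + 2) → X) (j : Fin (k + 1)) =>
      F fun l => C l (p.succAbove j)) (Measure.pi Γ) (Measure.pi fun _ => μ) :=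
  (measurePreserving_pi (fun _ : Fin (k + 1) => Measure.pi fun _ : Fin (k + 1) => μ)
    (fun _ => μ) fun _ => hF).comp (allrows_mp hΓ p)

/-- the closure set -/
def Cl {k : ℕ} (p : Fin (k + 2)) (F : (Fin (k + 1) → X) → X) :
    Set (Fin (k + 1) → Fin (k + 2) → X) :=
  {C | F (fun l => C l p) = F (fun j => F fun l => C l (p.succAbove j))}

theorem Cl_meas {k : ℕ} (p : Fin (k + 2)) {F : (Fin (k + 1) → X) → X} (hF : Measurable F) :
    MeasurableSet (Cl p F) := by
  have hrow : ∀ i : Fin (k + 2), Measurable fun (C : Fin (k + 1) → Fin (k + 2) → X) l => C l i :=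
    fun i => measurable_pi_iff.2 fun l => (measurable_pi_apply i).comp (measurable_pi_apply l)
  exact measurableSet_eq_fun (hF.comp (hrow p))
    (hF.comp (measurable_pi_iff.2 fun j => hF.comp (hrow _)))

theorem Cl_inv {μ : Measure X} [IsProbabilityMeasure μ] {T : X ≃ᵐ X} {k : ℕ}
    (p : Fin (k + 2)) {F : (Fin (k + 1) → X) → X}
    (hF : MeasurePreserving F (Measure.pi fun _ => μ) μ)
    (hFT : ∀ᵐ v ∂(Measure.pi fun _ : Fin (k + 1) => μ), F (fun j => T (v j)) = T (F v))
    {Γ : Fin (k + 1) → Measure (Fin (k + 2) → X)} [∀ l, IsProbabilityMeasure (Γ l)]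
    (hΓ : ∀ l, Good μ (Γ l)) :
    ∀ᵐ C ∂(Measure.pi Γ), (fun l i => T (C l i)) ∈ Cl p F ↔ C ∈ Cl p F := by
  have h1 := mp_ae (rows_mp hΓ p) hFT
  have h2 := mp_ae (outs_mp hF hΓ p) hFT
  have h3 : ∀ᵐ C ∂(Measure.pi Γ), ∀ j : Fin (k + 1),
      F (fun l => T (C l (p.succAbove j))) = T (F fun l => C l (p.succAbove j)) := by
    rw [ae_all_iff]
    exact fun j => mp_ae (rows_mp hΓ (p.succAbove j)) hFT
  filter_upwards [h1, h2, h3] with C g1 g2 g3
  show F (fun l => T (C l p)) = F (fun j => F fun l => T (C l (p.succAbove j))) ↔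
    F (fun l => C l p) = F (fun j => F fun l => C l (p.succAbove j))
  simp only [g3]
  rw [g1, g2]
  exact T.injective.eq_iff

end

end Pool.Agent.Y313.RM
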