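import Pool.Agent.Y313.RM.Dyn3

set_option autoImplicit false
set_option linter.unusedSectionVars false

/-!
# The closure relation for a graph component
-/

open MeasureTheory Set Filter Topology ProbabilityTheory
open scoped ENNReal NNReal

namespace Pool.Agent.Y313.RM

section
variable {X : Type*} [MeasurableSpace X] [MeasurableEq X]

theorem fib_inv {V R : Type*} [MeasurableSpace V] [MeasurableSpace R] {m : Measure V}
    [SFinite m] {l : Measure R} [SFinite l] {S : V → V}
    (hS : MeasurePreserving S m m) {U : R → R}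
    {E : Set (V × R)} (hE : MeasurableSet E)
    (hinv : ∀ᵐ p ∂(m.prod l), (S p.1, U p.2) ∈ E ↔ p ∈ E) :
    ∀ᵐ c ∂l, m {v | (v, U c) ∈ E} = m {v | (v, c) ∈ E} := by
  have h1 := Measure.ae_ae_of_ae_prod (mp_ae (Measure.measurePreserving_swap (μ := l)
    (ν := m)) hinv)
  filter_upwards [h1] with c hc
  have hms : MeasurableSet {v | (v, U c) ∈ E} := measurable_prodMk_right hE
  rw [← hS.measure_preimage hms.nullMeasurableSet]
  refine measure_congr ?_
  filter_upwards [hc] with v hv
  exact propext hv

theorem closure_exists {μ : Measure X} [IsProbabilityMeasure μ] {T : X ≃ᵐ X}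
    (hT : MeasurePreserving T μ μ) (hmix : Mx μ T) {k : ℕ} {t : ℕ → Fin (k + 2) → ℕ}
    {lam : Measure (Fin (k + 2) → X)} [IsProbabilityMeasure lam] (hlam : Good μ lam)
    (hconv : ∀ A : Fin (k + 2) → Set X, (∀ i, MeasurableSet (A i)) →
      Tendsto (fun n => μ.real (⋂ i, (⇑T)^[t n i] ⁻¹' A i)) atTop
        (𝓝 (lam.real (univ.pi A))))
    (p : Fin (k + 2)) {F : (Fin (k + 1) → X) → X} (hF : Measurable F)
    (hFT : ∀ᵐ v ∂(Measure.pi fun _ : Fin (k + 1) => μ), F (fun j => T (v j)) = T (F v))
    (hpos : lam (Gr p F) ≠ 0) (j1 : Fin (k + 1)) :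
    ∃ ρ0 : Measure (Fin (k + 2) → X), IsProbabilityMeasure ρ0 ∧ Good μ ρ0 ∧
      ∀ᵐ C ∂(Measure.pi (Function.update (fun _ : Fin (k + 1) => lam[|Gr p F]) j1 ρ0)),
        C ∈ Cl p F := by
  have hinv := inv_of_conv hT hconv
  have hγ := onGr_cond hT hmix hlam hinv p hF hFT hpos
  have pγ := hγ.prob
  have hFmp := hγ.mpF hF
  have hG := hγ.upd hF j1
  have hGT : ∀ᵐ u ∂(Measure.pi fun _ : Fin (k + 1) => μ),
      Function.update (fun j => T (u j)) j1 (F fun j => T (u j))
        = fun j => T (Function.update u j1 (F u) j) := by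
    filter_upwards [hFT] with u hu
    ext j
    by_cases hj : j = j1
    · subst hj
      simp [hu]
    · simp [Function.update_of_ne hj]
  have hB := gpres hT (fun i => hlam.eval i) hconv (Fin (k + 1)) hG hGT
  have mE := Gr_meas p hF
  have mCl := Cl_meas p hF
  have m𝓔 : MeasurableSet (univ.pi fun _ : Fin (k + 1) => Gr p F) :=
    MeasurableSet.univ_pi fun _ => mE
  have h1 : (Measure.pi fun _ : Fin (k + 1) => lam)
      {C | (∀ j, C (j1.succAbove j) ∈ Gr p F) ∧ C ∈ Cl p F} = lam (Gr p F) ^ (k + 1) := by
    have e1 := hB.measure_preimage m𝓔.nullMeasurableSet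
    rw [Measure.pi_pi, Finset.prod_const, Finset.card_univ, Fintype.card_fin] at e1
    rw [← e1]
    congr 1
    ext C
    simp only [mem_preimage, Set.mem_pi, mem_univ, true_implies]
    have hcol1 : (fun i => Function.update (fun l' => C l' i) j1 (F fun l' => C l' i) j1)
        = fun i => F fun l' => C l' i := by
      ext i
      simp
    have hcol2 : ∀ j, (fun i => Function.update (fun l' => C l' i) j1
        (F fun l' => C l' i) (j1.succAbove j)) = C (j1.succAbove j) := by
      intro j
      ext i
      rw [Function.update_of_ne (Fin.succAbove_ne j1 j)]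
    constructor
    · rintro ⟨g1, g2⟩ l
      refine Fin.succAboveCases j1 ?_ (fun j => ?_) l
      · rw [hcol1]
        exact g2
      · rw [hcol2]
        exact g1 j
    · intro g
      refine ⟨fun j => ?_, ?_⟩
      · have := g (j1.succAbove j)
        rwa [hcol2] at this
      · have := g j1
        rw [hcol1] at this
        exact this
  -- the product description
  let ins : (Fin (k + 2) → X) × (Fin k → Fin (k + 2) → X) → (Fin (k + 1) → Fin (k + 2) → X) :=
    fun q => j1.insertNth (α := fun _ => Fin (k + 2) → X) q.1 q.2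
  have mins : Measurable ins :=
    (MeasurableEquiv.piFinSuccAbove (fun _ => Fin (k + 2) → X) j1).symm.measurable
  let E2 : Set ((Fin k → Fin (k + 2) → X) × (Fin (k + 2) → X)) := {q | ins q.swap ∈ Cl p F}
  have mE2 : MeasurableSet E2 := (mins.comp measurable_swap) mCl
  have hΛ : (Measure.pi fun _ : Fin k => lam).prod lam
      ((univ.pi fun _ => Gr p F) ×ˢ univ ∩ E2) = lam (Gr p F) ^ (k + 1) := by
    have a1 := (mp_insert (fun _ : Fin (k + 1) => lam) j1).comp
      (Measure.measurePreserving_swap (μ := Measure.pi fun _ : Fin k => lam) (ν := lam))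
    have a2 := a1.measure_preimage (s := {C | (∀ j, C (j1.succAbove j) ∈ Gr p F) ∧ C ∈ Cl p F})
      (by
        have hmm : MeasurableSet {C : Fin (k + 1) → Fin (k + 2) → X |
            ∀ j, C (j1.succAbove j) ∈ Gr p F} := by
          have : {C : Fin (k + 1) → Fin (k + 2) → X | ∀ j, C (j1.succAbove j) ∈ Gr p F}
              = ⋂ j, (fun C => C (j1.succAbove j)) ⁻¹' Gr p F := by
            ext C
            simp
          rw [this]
          exact MeasurableSet.iInter fun j => (measurable_pi_apply _) mE
        exact (hmm.inter mCl).nullMeasurableSet)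
    rw [h1] at a2
    rw [← a2]
    congr 1
    ext q
    simp only [mem_inter_iff, mem_prod, Set.mem_pi, mem_univ, true_implies, and_true,
      mem_preimage, Function.comp_apply]
    refine and_congr ?_ Iff.rfl
    refine forall_congr' fun j => ?_
    simp
  have hΓk : (Measure.pi fun _ : Fin k => lam[|Gr p F])
      = ((lam (Gr p F))⁻¹ ^ k) • (Measure.pi fun _ : Fin k => lam).restrict
        (univ.pi fun _ => Gr p F) := by
    rw [Measure.restrict_pi_pi]
    refine Measure.pi_eq fun s _ => ?_
    rw [Measure.smul_apply, Measure.pi_pi, smul_eq_mul]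
    simp only [ProbabilityTheory.cond, Measure.smul_apply, smul_eq_mul]
    rw [Finset.prod_mul_distrib, Finset.prod_const, Finset.card_univ, Fintype.card_fin]
  have hE2 : (Measure.pi fun _ : Fin k => lam[|Gr p F]).prod lam E2 = lam (Gr p F) := by
    rw [hΓk, Measure.prod_smul_left, Measure.restrict_prod_eq_prod_univ, Measure.smul_apply,
      Measure.restrict_apply mE2, inter_comm, hΛ, smul_eq_mul, pow_succ, ← mul_assoc,
      ← mul_pow, ENNReal.inv_mul_cancel hpos (measure_ne_top _ _), one_pow, one_mul]
  -- invariance of `E2`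
  let S : (Fin (k + 2) → X) → (Fin (k + 2) → X) := fun x i => T (x i)
  have hSk : MeasurePreserving (fun (V : Fin k → Fin (k + 2) → X) j => S (V j))
      (Measure.pi fun _ : Fin k => lam[|Gr p F]) (Measure.pi fun _ : Fin k => lam[|Gr p F]) :=
    measurePreserving_pi _ _ fun _ => hγ.inv
  have hE2inv : ∀ᵐ q ∂((Measure.pi fun _ : Fin k => lam[|Gr p F]).prod lam),
      ((fun j => S (q.1 j)), S q.2) ∈ E2 ↔ q ∈ E2 := by
    let Γ' : Fin (k + 1) → Measure (Fin (k + 2) → X) :=
      Function.update (fun _ => lam[|Gr p F]) j1 lam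
    have pΓ' : ∀ l, IsProbabilityMeasure (Γ' l) := by
      intro l
      by_cases hl : l = j1
      · subst hl
        simpa [Γ'] using (inferInstance : IsProbabilityMeasure lam)
      · simpa [Γ', Function.update_of_ne hl] using pγ
    have gΓ' : ∀ l, Good μ (Γ' l) := by
      intro l
      by_cases hl : l = j1
      · subst hl
        simpa [Γ'] using hlam
      · simpa [Γ', Function.update_of_ne hl] using hγ.good
    have a0 := mp_insert Γ' j1
    have e1 : Γ' j1 = lam := by simp [Γ']
    have e2 : (fun j => Γ' (j1.succAbove j)) = fun _ : Fin k => lam[|Gr p F] := by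
      ext1 j
      simp [Γ']
    rw [e1, e2] at a0
    have a1 := a0.comp (Measure.measurePreserving_swap
      (μ := Measure.pi fun _ : Fin k => lam[|Gr p F]) (ν := lam))
    have a2 := mp_ae a1 (Cl_inv (T := T) p hFmp hFT gΓ')
    filter_upwards [a2] with q hq
    have e3 : ins (Prod.swap ((fun j => S (q.1 j)), S q.2))
        = fun l i => T (ins q.swap l i) := by
      ext l i
      refine Fin.succAboveCases j1 ?_ (fun j => ?_) l
      · simp [ins, S]
      · simp [ins, S]
    show ins (Prod.swap ((fun j => S (q.1 j)), S q.2)) ∈ Cl p F ↔ ins q.swap ∈ Cl p F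
    rw [e3]
    exact hq
  have hγmix : Mx (lam[|Gr p F]) S :=
    Mx.factor (mx_pi hT hmix (Fin (k + 1))) (measurePreserving_pi _ _ fun _ => hT)
      hinv.measurable (hγ.iota hF) (by
        filter_upwards [hFT] with v hv
        ext i
        refine Fin.succAboveCases p ?_ (fun j => ?_) i
        · simp [hv, S]
        · simp [S])
  have hkmix : Mx (Measure.pi fun _ : Fin k => lam[|Gr p F])
      (fun (V : Fin k → Fin (k + 2) → X) j => S (V j)) := mx_pi hγ.inv hγmix (Fin k)
  have hzo := zero_one hSk hkmix hinv mE2 hE2inv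
  have hfi := fib_inv hSk mE2 hE2inv
  -- the good set
  let Es : Set (Fin (k + 2) → X) :=
    {c | (Measure.pi fun _ : Fin k => lam[|Gr p F]) {V | (V, c) ∈ E2} = 1}
  have mEs : MeasurableSet Es :=
    (measurable_measure_prodMk_right mE2) (measurableSet_singleton 1)
  have hEs : lam Es = lam (Gr p F) := by
    rw [← hE2, Measure.prod_apply_symm mE2, ← lintegral_indicator_one mEs]
    refine lintegral_congr_ae ?_
    filter_upwards [hzo] with c hc
    by_cases hcE : c ∈ Es
    · rw [indicator_of_mem hcE]
      exact hcE.symm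
    · rw [indicator_of_notMem hcE]
      rcases hc with h2 | h2
      · rw [measureReal_eq_zero_iff] at h2
        exact h2.symm
      · exfalso
        apply hcE
        show (Measure.pi fun _ : Fin k => lam[|Gr p F]) {V | (V, c) ∈ E2} = 1
        rw [measureReal_def] at h2
        rw [← ENNReal.ofReal_toReal (measure_ne_top (Measure.pi fun _ : Fin k => lam[|Gr p F])
          {V | (V, c) ∈ E2}), h2, ENNReal.ofReal_one]
  have hEs0 : lam Es ≠ 0 := by rw [hEs]; exact hpos
  have hEsinv : ∀ᵐ c ∂lam, S c ∈ Es ↔ c ∈ Es := by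
    filter_upwards [hfi] with c hc
    show (Measure.pi fun _ : Fin k => lam[|Gr p F]) {V | (V, S c) ∈ E2} = 1 ↔
      (Measure.pi fun _ : Fin k => lam[|Gr p F]) {V | (V, c) ∈ E2} = 1
    rw [hc]
  have pρ := cond_isProbabilityMeasure (μ := lam) hEs0
  have hρinv := mp_cond hinv mEs hEsinv
  refine ⟨lam[|Es], pρ, good_of_ac hT hmix hlam cond_absolutelyContinuous hρinv, ?_⟩
  let Γ : Fin (k + 1) → Measure (Fin (k + 2) → X) :=
    Function.update (fun _ => lam[|Gr p F]) j1 (lam[|Es])
  have pΓ : ∀ l, IsProbabilityMeasure (Γ l) := by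
    intro l
    by_cases hl : l = j1
    · subst hl
      simpa [Γ] using pρ
    · simpa [Γ, Function.update_of_ne hl] using pγ
  have a0 := mp_insert Γ j1
  have e1 : Γ j1 = lam[|Es] := by simp [Γ]
  have e2 : (fun j => Γ (j1.succAbove j)) = fun _ : Fin k => lam[|Gr p F] := by
    ext1 j
    simp [Γ]
  rw [e1, e2] at a0
  refine mp_ae_of a0 mCl ?_
  refine ae_prod_of (mins mCl) ?_
  filter_upwards [ae_cond_mem mEs] with c hc
  have hms : MeasurableSet {V | (V, c) ∈ E2} := measurable_prodMk_right mE2
  have h3 := (mem_ae_iff_prob_eq_one (μ := Measure.pi fun _ : Fin k => lam[|Gr p F]) hms).2 hc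
  exact h3

end

end Pool.Agent.Y313.RM
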