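import Pool.Agent.Y313.RM.Dyn2

set_option autoImplicit false
set_option linter.unusedSectionVars false

/-!
# From sets to functions
-/

open MeasureTheory Set Filter Topology ProbabilityTheory
open scoped ENNReal NNReal

namespace Pool.Agent.Y313.RM

section
variable {X : Type*} [MeasurableSpace X]

theorem norm_prod_le_one {ι : Type*} (S : Finset ι) (f : ι → ℂ) (h : ∀ i, ‖f i‖ ≤ 1) :
    ‖∏ i ∈ S, f i‖ ≤ 1 := by
  rw [norm_prod]
  exact Finset.prod_le_one (fun i _ => norm_nonneg _) fun i _ => h i

theorem lim_fun {μ : Measure X} [IsProbabilityMeasure μ] {I : Type*} [Fintype I]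
    {P : ℕ → Measure (I → X)} {lam : Measure (I → X)}
    [∀ n, IsProbabilityMeasure (P n)] [IsProbabilityMeasure lam]
    (hP : ∀ n i, MeasurePreserving (fun x : I → X => x i) (P n) μ)
    (hlam : ∀ i, MeasurePreserving (fun x : I → X => x i) lam μ)
    (hconv : ∀ A : I → Set X, (∀ i, MeasurableSet (A i)) →
      Tendsto (fun n => (P n).real (univ.pi A)) atTop (𝓝 (lam.real (univ.pi A))))
    (g : I → X → ℂ) (hg : ∀ i, Measurable (g i)) (hb : ∀ i x, ‖g i x‖ ≤ 1) :
    Tendsto (fun n => ∫ x, ∏ i, g i (x i) ∂(P n)) atTop (𝓝 (∫ x, ∏ i, g i (x i) ∂lam)) := by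
  classical
  have key : ∀ S : Finset I, ∀ g : I → X → ℂ, (∀ i, Measurable (g i)) →
      (∀ i x, ‖g i x‖ ≤ 1) →
      (∀ i, i ∉ S → ∃ A : Set X, MeasurableSet A ∧ g i = A.indicator (fun _ => (1 : ℂ))) →
      Tendsto (fun n => ∫ x, ∏ i, g i (x i) ∂(P n)) atTop
        (𝓝 (∫ x, ∏ i, g i (x i) ∂lam)) := by
    intro S
    induction S using Finset.induction_on with
    | empty =>
      intro g hg hb hS
      choose A hA1 hA2 using fun i => hS i (Finset.notMem_empty i)
      have e0 : ∀ x : I → X, ∏ i, g i (x i) = (univ.pi A).indicator (fun _ => (1 : ℂ)) x := by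
        intro x
        simp only [hA2]
        by_cases hx : x ∈ univ.pi A
        · rw [indicator_of_mem hx]
          refine Finset.prod_eq_one fun i _ => ?_
          rw [indicator_of_mem (hx i (mem_univ i))]
        · rw [indicator_of_notMem hx]
          simp only [Set.mem_pi, mem_univ, true_implies, not_forall] at hx
          obtain ⟨i, hi⟩ := hx
          refine Finset.prod_eq_zero (Finset.mem_univ i) ?_
          rw [indicator_of_notMem hi]
      have e1 : ∀ Q : Measure (I → X), ∫ x, ∏ i, g i (x i) ∂Q
          = ((Q.real (univ.pi A) : ℝ) : ℂ) := by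
        intro Q
        simp only [e0]
        rw [integral_indicator (MeasurableSet.univ_pi hA1)]
        simp
      simp only [e1]
      exact (Complex.continuous_ofReal.tendsto _).comp (hconv A hA1)
    | insert a S haS ih =>
      intro g hg hb hS
      let W : (I → X) → ℂ := fun x => ∏ i ∈ Finset.univ.erase a, g i (x i)
      have mW : Measurable W := Finset.measurable_prod _ fun i _ =>
        (hg i).comp (measurable_pi_apply i)
      have bW : ∀ x, ‖W x‖ ≤ 1 := fun x => norm_prod_le_one _ _ fun i => hb i _
      have hint : ∀ {φ : X → ℂ} (_ : Integrable φ μ) (Q : Measure (I → X))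
          (_ : MeasurePreserving (fun x : I → X => x a) Q μ),
          Integrable (fun x => φ (x a) * W x) Q := by
        intro φ hφ Q hQ
        exact ((hQ.integrable_comp hφ.aestronglyMeasurable).2 hφ).mul_bdd (c := 1)
          mW.aestronglyMeasurable (Eventually.of_forall bW)
      have hbd : ∀ {φ ψ : X → ℂ} (_ : Integrable φ μ) (_ : Integrable ψ μ) (Q : Measure (I → X))
          (_ : MeasurePreserving (fun x : I → X => x a) Q μ),
          ‖∫ x, φ (x a) * W x ∂Q - ∫ x, ψ (x a) * W x ∂Q‖ ≤ ∫ x, ‖φ x - ψ x‖ ∂μ := by
        intro φ ψ hφ hψ Q hQ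
        rw [← integral_sub (hint hφ Q hQ) (hint hψ Q hQ)]
        refine (norm_integral_le_integral_norm _).trans ?_
        rw [← mp_int hQ (f := fun x => ‖φ x - ψ x‖) (hφ.sub hψ).norm.aestronglyMeasurable]
        refine integral_mono ((hint hφ Q hQ).sub (hint hψ Q hQ)).norm
          ((hQ.integrable_comp (hφ.sub hψ).norm.aestronglyMeasurable).2 (hφ.sub hψ).norm)
          fun x => ?_
        simp only [Function.comp_apply]
        rw [← sub_mul, norm_mul]
        exact mul_le_of_le_one_right (norm_nonneg _) (bW x)
      have hmain : ∀ φ : X → ℂ, Integrable φ μ →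
          Tendsto (fun n => ∫ x, φ (x a) * W x ∂(P n)) atTop
            (𝓝 (∫ x, φ (x a) * W x ∂lam)) := by
        intro φ hφ
        refine Integrable.induction (fun φ : X → ℂ =>
          Tendsto (fun n => ∫ x, φ (x a) * W x ∂(P n)) atTop
            (𝓝 (∫ x, φ (x a) * W x ∂lam))) ?_ ?_ ?_ ?_ hφ
        · intro c A hA _
          let g' : I → X → ℂ := Function.update g a (A.indicator (fun _ => (1 : ℂ)))
          have h1 := ih g' (by
            intro i
            by_cases hi : i = a
            · subst hi
              simp only [g', Function.update_self]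
              exact measurable_const.indicator hA
            · simp only [g', Function.update_of_ne hi]
              exact hg i) (by
            intro i x
            by_cases hi : i = a
            · subst hi
              simp only [g', Function.update_self]
              by_cases hx : x ∈ A <;> simp [hx]
            · simp only [g', Function.update_of_ne hi]
              exact hb i x) (by
            intro i hi
            by_cases hia : i = a
            · subst hia
              exact ⟨A, hA, by simp [g']⟩
            · simp only [g', Function.update_of_ne hia]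
              exact hS i (by simp [hia, hi]))
          have e1 : ∀ Q : Measure (I → X), c * ∫ x, ∏ i, g' i (x i) ∂Q
              = ∫ x, A.indicator (fun _ => c) (x a) * W x ∂Q := by
            intro Q
            rw [← integral_const_mul]
            congr 1
            ext x
            rw [← Finset.mul_prod_erase _ _ (Finset.mem_univ a)]
            have e3 : ∏ i ∈ Finset.univ.erase a, g' i (x i) = W x := by
              refine Finset.prod_congr rfl (fun i hi => ?_)
              simp only [g', Function.update_of_ne (Finset.ne_of_mem_erase hi)]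
            rw [e3, ← mul_assoc]
            congr 1
            simp only [g', Function.update_self]
            by_cases hx : x a ∈ A <;> simp [hx]
          have h2 := h1.const_mul c
          simp only [e1] at h2
          exact h2
        · intro φ ψ _ hφ hψ Pφ Pψ
          have h := Pφ.add Pψ
          have e1 : ∀ (Q : Measure (I → X)) (_ : MeasurePreserving (fun x : I → X => x a) Q μ),
              ∫ x, φ (x a) * W x ∂Q + ∫ x, ψ (x a) * W x ∂Q
                = ∫ x, (φ + ψ) (x a) * W x ∂Q := by
            intro Q hQ
            rw [← integral_add (hint hφ Q hQ) (hint hψ Q hQ)]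
            congr 1
            ext x
            simp [add_mul]
          rw [e1 lam (hlam a)] at h
          exact h.congr fun n => e1 (P n) (hP n a)
        · refine isClosed_of_closure_subset ?_
          intro φ hφ
          rw [Metric.mem_closure_iff] at hφ
          simp only [Set.mem_ofPred_eq]
          rw [Metric.tendsto_atTop]
          intro ε hε
          obtain ⟨ψ, hψ, hφψ⟩ := hφ (ε / 3) (by positivity)
          simp only [Set.mem_ofPred_eq] at hψ
          rw [Metric.tendsto_atTop] at hψ
          obtain ⟨N, hN⟩ := hψ (ε / 3) (by positivity)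
          refine ⟨N, fun n hn => ?_⟩
          have hφi : Integrable φ μ := L1.integrable_coeFn φ
          have hψi : Integrable ψ μ := L1.integrable_coeFn ψ
          have hd : ∫ x, ‖φ x - ψ x‖ ∂μ < ε / 3 := by
            have : dist φ ψ = ∫ x, ‖φ x - ψ x‖ ∂μ := by
              rw [dist_eq_norm, L1.norm_eq_integral_norm]
              apply integral_congr_ae
              filter_upwards [Lp.coeFn_sub φ ψ] with x hx
              rw [hx]; rfl
            rw [← this]; exact hφψ
          have h1 := hbd hφi hψi (P n) (hP n a)
          have h3 := hbd hφi hψi lam (hlam a)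
          have h2 := hN n hn
          rw [dist_eq_norm] at h2 ⊢
          rw [norm_sub_rev] at h3
          calc ‖∫ x, φ (x a) * W x ∂(P n) - ∫ x, φ (x a) * W x ∂lam‖
              = ‖(∫ x, φ (x a) * W x ∂(P n) - ∫ x, ψ (x a) * W x ∂(P n))
                + (∫ x, ψ (x a) * W x ∂(P n) - ∫ x, ψ (x a) * W x ∂lam)
                + (∫ x, ψ (x a) * W x ∂lam - ∫ x, φ (x a) * W x ∂lam)‖ := by congr 1; ring
            _ ≤ ‖∫ x, φ (x a) * W x ∂(P n) - ∫ x, ψ (x a) * W x ∂(P n)‖
                + ‖∫ x, ψ (x a) * W x ∂(P n) - ∫ x, ψ (x a) * W x ∂lam‖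
                + ‖∫ x, ψ (x a) * W x ∂lam - ∫ x, φ (x a) * W x ∂lam‖ := norm_add₃_le
            _ < ε := by linarith
        · intro φ ψ hφψ hφ Pφ
          have e1 : ∀ (Q : Measure (I → X)) (_ : MeasurePreserving (fun x : I → X => x a) Q μ),
              ∫ x, φ (x a) * W x ∂Q = ∫ x, ψ (x a) * W x ∂Q := by
            intro Q hQ
            refine integral_congr_ae ?_
            filter_upwards [mp_ae hQ hφψ] with x hx
            rw [hx]
          rw [e1 lam (hlam a)] at Pφ
          exact Pφ.congr fun n => e1 (P n) (hP n a)
      have hga : Integrable (g a) μ :=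
        Integrable.of_bound (hg a).aestronglyMeasurable 1 (Eventually.of_forall (hb a))
      have h1 := hmain (g a) hga
      have e2 : ∀ x : I → X, g a (x a) * W x = ∏ i, g i (x i) := fun x =>
        Finset.mul_prod_erase _ (fun i => g i (x i)) (Finset.mem_univ a)
      simp only [e2] at h1
      exact h1
  exact key Finset.univ g hg hb fun i hi => absurd (Finset.mem_univ i) hi

/-- correlations of bounded functions converge -/
theorem lim_corr {μ : Measure X} [IsProbabilityMeasure μ] {T : X ≃ᵐ X}
    (hT : MeasurePreserving T μ μ) {I : Type*} [Fintype I] {t : ℕ → I → ℕ}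
    {lam : Measure (I → X)} [IsProbabilityMeasure lam]
    (hmarg : ∀ i, MeasurePreserving (fun x : I → X => x i) lam μ)
    (hconv : ∀ A : I → Set X, (∀ i, MeasurableSet (A i)) →
      Tendsto (fun n => μ.real (⋂ i, (⇑T)^[t n i] ⁻¹' A i)) atTop
        (𝓝 (lam.real (univ.pi A))))
    (g : I → X → ℂ) (hg : ∀ i, Measurable (g i)) (hb : ∀ i x, ‖g i x‖ ≤ 1) :
    Tendsto (fun n => ∫ x, ∏ i, g i ((⇑T)^[t n i] x) ∂μ) atTop
      (𝓝 (∫ x, ∏ i, g i (x i) ∂lam)) := by
  have hm : ∀ n, Measurable fun (x : X) (i : I) => (⇑T)^[t n i] x := fun n =>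
    measurable_pi_iff.2 fun i => T.measurable.iterate (t n i)
  let P : ℕ → Measure (I → X) := fun n => μ.map fun (x : X) (i : I) => (⇑T)^[t n i] x
  have pP : ∀ n, IsProbabilityMeasure (P n) := fun n =>
    Measure.isProbabilityMeasure_map (hm n).aemeasurable
  have mpP : ∀ n, MeasurePreserving (fun (x : X) (i : I) => (⇑T)^[t n i] x) μ (P n) :=
    fun n => (hm n).measurePreserving μ
  have h1 := lim_fun (P := P) (lam := lam) (μ := μ) (fun n i => by
      refine ⟨measurable_pi_apply i, ?_⟩
      rw [Measure.map_map (measurable_pi_apply i) (hm n)]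
      exact (hT.iterate (t n i)).map_eq) hmarg (fun A hA => by
      refine (hconv A hA).congr fun n => ?_
      rw [← (mpP n).measureReal_preimage (MeasurableSet.univ_pi hA).nullMeasurableSet]
      congr 1
      ext x
      simp [Set.mem_pi]) g hg hb
  refine h1.congr fun n => ?_
  have mg : Measurable fun x : I → X => ∏ i, g i (x i) :=
    Finset.measurable_prod _ fun i _ => (hg i).comp (measurable_pi_apply i)
  exact (mp_int (mpP n) mg.aestronglyMeasurable).symm

end

end Pool.Agent.Y313.RM
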