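import Pool.Agent.Y313.RM.KKp
import Pool.Agent.Y313.RM.Lim
import Pool.Agent.Results.MP_2a7625_an.CorrelationRigidity

set_option autoImplicit false
set_option linter.unusedSectionVars false

/-!
# Limit joinings have no graph component
-/

open MeasureTheory Set Filter Topology ProbabilityTheory
open scoped ENNReal NNReal

namespace Pool.Agent.Y313.RM

open Pool.Agent.H716R2

section
variable {X : Type*} [MeasurableSpace X]

theorem erg_const {μ : Measure X} [IsProbabilityMeasure μ] {T : X ≃ᵐ X}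
    (hT : MeasurePreserving T μ μ) {k : ℕ} (hk : 1 ≤ k) (hfact : FactSet μ T (k + 1))
    {f : X → ℂ} (mf : Measurable f) (uf : ∀ x, ‖f x‖ = 1) {d : ℕ} (hd : 0 < d) {c : ℂ}
    (h : ∀ᵐ x ∂μ, f ((⇑T)^[d] x) = c * f x) : ‖∫ x, f x ∂μ‖ = 1 := by
  have hc : ‖c‖ = 1 := by
    obtain ⟨x, hx⟩ := h.exists
    have := congrArg norm hx
    rw [norm_mul, uf, uf, mul_one] at this
    exact this.symm
  have hiter : ∀ j : ℕ, ∀ᵐ x ∂μ, f ((⇑T)^[d * j] x) = c ^ j * f x := by
    intro j
    induction j with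
    | zero => exact Eventually.of_forall fun x => by simp
    | succ j ih =>
      filter_upwards [ih, mp_ae (hT.iterate (d * j)) h] with x h1 h2
      rw [Nat.mul_succ, add_comm, Function.iterate_add_apply, h2, h1, pow_succ]
      ring
  let i0 : Fin (k + 1) := 0
  let i1 : Fin (k + 1) := ⟨1, by omega⟩
  have h01 : i0 ≠ i1 := by
    intro h
    have := congrArg Fin.val h
    simp [i0, i1] at this
  let g : Fin (k + 1) → X → ℂ := fun i =>
    if i = i0 then fun x => (starRingEnd ℂ) (f x) else if i = i1 then f else fun _ => 1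
  have gm : ∀ i, Measurable (g i) := by
    intro i
    simp only [g]
    split_ifs
    · exact conj_meas mf
    · exact mf
    · exact measurable_const
  have gb : ∀ i x, ‖g i x‖ ≤ 1 := by
    intro i x
    simp only [g]
    split_ifs
    · rw [RCLike.norm_conj, uf]
    · rw [uf]
    · simp
  let s : ℕ → Fin (k + 1) → ℕ := fun N i => (i : ℕ) * (d * N)
  have hs : Spread s := by
    intro N
    filter_upwards [eventually_ge_atTop N] with n hn
    intro i j hij
    have h1 : (i : ℕ) + 1 ≤ j := hij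
    simp only [s]
    calc (i : ℕ) * (d * n) + N ≤ (i : ℕ) * (d * n) + d * n := by
          have : n ≤ d * n := Nat.le_mul_of_pos_left n hd
          omega
      _ = ((i : ℕ) + 1) * (d * n) := by ring
      _ ≤ (j : ℕ) * (d * n) := Nat.mul_le_mul_right _ h1
  have h1 := fact_fun (𝕜 := ℂ) hT hfact hs g gm fun i => ⟨1, gb i⟩
  have e1 : ∏ i, ∫ x, g i x ∂μ = (starRingEnd ℂ) (∫ x, f x ∂μ) * ∫ x, f x ∂μ := by
    rw [Fintype.prod_eq_mul i0 i1 h01 (by
      rintro i ⟨h2, h3⟩
      simp [g, h2, h3])]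
    simp only [g, if_true, if_neg h01.symm]
    rw [integral_conj]
  have e2 : ∀ n, ∫ x, ∏ i, g i ((⇑T)^[s n i] x) ∂μ = c ^ n := by
    intro n
    have h2 : ∀ᵐ x ∂μ, ∏ i, g i ((⇑T)^[s n i] x) = c ^ n := by
      filter_upwards [hiter n] with x hx
      rw [Fintype.prod_eq_mul i0 i1 h01 (by
        rintro i ⟨h2, h3⟩
        simp [g, h2, h3])]
      have e3 : s n i0 = 0 := by simp [s, i0]
      have e4 : s n i1 = d * n := by simp [s, i1]
      simp only [g, if_true, if_neg h01.symm]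
      rw [e3, e4, hx]
      simp only [Function.iterate_zero, id]
      calc (starRingEnd ℂ) (f x) * (c ^ n * f x) = ((starRingEnd ℂ) (f x) * f x) * c ^ n := by ring
        _ = c ^ n := by rw [unit_conj_mul (uf x), one_mul]
    rw [integral_congr_ae (g := fun _ => c ^ n) h2]
    simp
  simp only [e1, e2] at h1
  have h3 := h1.norm
  simp only [norm_pow, hc, one_pow, norm_mul, RCLike.norm_conj] at h3
  have h4 := tendsto_nhds_unique tendsto_const_nhds h3
  nlinarith [norm_nonneg (∫ x, f x ∂μ)]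

theorem shift_const {μ : Measure X} [IsProbabilityMeasure μ] {T : X ≃ᵐ X}
    (hT : MeasurePreserving T μ μ) {k : ℕ} (hk : 1 ≤ k) (hfact : FactSet μ T (k + 1))
    {f : X → ℂ} (mf : Measurable f) (uf : ∀ x, ‖f x‖ = 1) {n m : ℕ} (hmn : m < n) {c : ℂ}
    (h : ∀ᵐ x ∂μ, f ((⇑T)^[n] x) = c * f ((⇑T)^[m] x)) : ‖∫ x, f x ∂μ‖ = 1 := by
  refine erg_const hT hk hfact mf uf (Nat.sub_pos_of_lt hmn) (c := c) ?_
  refine mp_ae_of (hT.iterate m) (measurableSet_eq_fun (mf.comp (T.measurable.iterate _))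
    (mf.const_mul c)) ?_
  filter_upwards [h] with x hx
  rw [← Function.iterate_add_apply, Nat.sub_add_cancel hmn.le]
  exact hx

/-- the functions of the orthogonality relations -/
noncomputable def An {k : ℕ} (T : X → X) (p : Fin (k + 2)) (f : X → ℂ)
    (u : Fin (k + 1) → X → ℂ) (n : ℕ) : Fin (k + 2) → X → ℂ :=
  p.insertNth (α := fun _ => X → ℂ) (fun x => f (T^[n] x))
    (fun j x => (starRingEnd ℂ) (u j (T^[n] x)))

variable [MeasurableEq X]

theorem orth {μ : Measure X} [IsProbabilityMeasure μ] {T : X ≃ᵐ X}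
    (hT : MeasurePreserving T μ μ) {k : ℕ} (hk : 1 ≤ k) (hfact : FactSet μ T (k + 1))
    {t : ℕ → Fin (k + 2) → ℕ} (ht : Spread t)
    {lam : Measure (Fin (k + 2) → X)} [IsProbabilityMeasure lam] (hlam : Good μ lam)
    (hconv : ∀ A : Fin (k + 2) → Set X, (∀ i, MeasurableSet (A i)) →
      Tendsto (fun n => μ.real (⋂ i, (⇑T)^[t n i] ⁻¹' A i)) atTop
        (𝓝 (lam.real (univ.pi A))))
    {p : Fin (k + 2)} {F : (Fin (k + 1) → X) → X} (hF : Measurable F)
    (hFT : ∀ᵐ v ∂(Measure.pi fun _ : Fin (k + 1) => μ), F (fun j => T (v j)) = T (F v))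
    {γ : Measure (Fin (k + 2) → X)} (hγ : OnGr μ T p F γ) {f : X → ℂ}
    {u : Fin (k + 1) → X → ℂ} (hf : KK μ F f) (hu : ∀ l, KK μ F (u l))
    (hf1 : ‖∫ x, f x ∂μ‖ ≠ 1) {n m : ℕ} (hnm : n ≠ m) :
    ∫ x, ∏ i, (An T p f u n i (x i) * (starRingEnd ℂ) (An T p f u m i (x i))) ∂lam = 0 := by
  have hA : ∀ n i, KK μ F (An T p f u n i) := by
    intro n i
    refine Fin.succAboveCases p ?_ (fun j => ?_) i
    · simp only [An, Fin.insertNth_apply_same]
      exact KK.iter hT hFT hf n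
    · simp only [An, Fin.insertNth_apply_succAbove]
      exact (KK.iter hT hFT (hu j) n).conj
  let h : Fin (k + 2) → X → ℂ := fun i x =>
    An T p f u n i x * (starRingEnd ℂ) (An T p f u m i x)
  have hh : ∀ i, KK μ F (h i) := fun i => (hA n i).mul (hA m i).conj
  have hlim := lim_corr hT (fun i => hlam.eval i) hconv h (fun i => (hh i).1)
    (fun i x => ((hh i).2.1 x).le)
  have hθ : ∀ N, KK μ F fun x => ∏ i, h i ((⇑T)^[t N i] x) := fun N =>
    KK.prod Finset.univ fun i => KK.iter hT hFT (hh i) (t N i)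
  by_contra hne
  have hev := hlim.eventually_ne hne
  have hmix := mixing_of_factSet hk hfact
  have hcorr : ∀ N : ℕ, ∃ s : Fin (k + 2) → ℕ, (∀ i j, i < j → s i + N ≤ s j) ∧
      1 - (0 : ℝ) ≤ ‖∫ x, ∏ j, h j ((⇑T)^[s j] x) ∂μ‖ := by
    intro N
    obtain ⟨M, hM1, hM2⟩ := (hev.and (ht N)).exists
    refine ⟨t M, hM2, ?_⟩
    rcases (hθ M).integral hk hF hγ with h1 | h1
    · exact absurd h1 hM1
    · rw [h1]
      norm_num
  obtain ⟨c, hc1, hc2⟩ := Pool.Agent.Results.MP_2a7625_an.CorrelationRigidity.result μ T hT hmix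
    (k + 2) (by omega) h (fun j => (hh j).1) (fun j x => (hh j).2.1 x) 0 (by norm_num) hcorr p
  rw [mul_zero] at hc2
  have i3 : Integrable (fun x => ‖h p x - c‖ ^ 2) μ := by
    refine Integrable.of_bound (((hh p).1.sub_const c).norm.pow_const 2).aestronglyMeasurable 4
      (Eventually.of_forall fun x => ?_)
    rw [Real.norm_eq_abs, abs_of_nonneg (by positivity)]
    have h6 : ‖h p x - c‖ ≤ 2 := by
      calc ‖h p x - c‖ ≤ ‖h p x‖ + ‖c‖ := norm_sub_le _ _
        _ = 2 := by rw [(hh p).2.1 x, hc1]; norm_num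
    nlinarith [norm_nonneg (h p x - c)]
  have hc3 : ∫ x, ‖h p x - c‖ ^ 2 ∂μ = 0 :=
    le_antisymm hc2 (integral_nonneg fun x => by positivity)
  have hc4 : ∀ᵐ x ∂μ, f ((⇑T)^[n] x) * (starRingEnd ℂ) (f ((⇑T)^[m] x)) = c := by
    have h6 := (integral_eq_zero_iff_of_nonneg (fun x => by positivity) i3).1 hc3
    filter_upwards [h6] with x hx
    have hx' : ‖h p x - c‖ ^ 2 = 0 := hx
    have h7 : ‖h p x - c‖ = 0 := by simpa using hx'
    have h8 := sub_eq_zero.1 (norm_eq_zero.1 h7)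
    simpa [h, An] using h8
  obtain ⟨mf, uf, -⟩ := hf
  apply hf1
  rcases lt_or_gt_of_ne hnm with hlt | hlt
  · refine shift_const hT hk hfact mf uf hlt (c := (starRingEnd ℂ) c) ?_
    filter_upwards [hc4] with x hx
    rw [← hx, map_mul, Complex.conj_conj]
    calc f ((⇑T)^[m] x) = ((starRingEnd ℂ) (f ((⇑T)^[n] x)) * f ((⇑T)^[n] x)) * f ((⇑T)^[m] x) := by
          rw [unit_conj_mul (uf _), one_mul]
      _ = _ := by ring
  · refine shift_const hT hk hfact mf uf hlt (c := c) ?_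
    filter_upwards [hc4] with x hx
    rw [← hx, mul_assoc, unit_conj_mul (uf _), mul_one]

theorem graph_small {μ : Measure X} [IsProbabilityMeasure μ] {T : X ≃ᵐ X}
    (hT : MeasurePreserving T μ μ) {k : ℕ} (hk : 1 ≤ k) (hfact : FactSet μ T (k + 1))
    {t : ℕ → Fin (k + 2) → ℕ} (ht : Spread t)
    {lam : Measure (Fin (k + 2) → X)} [IsProbabilityMeasure lam] (hlam : Good μ lam)
    (hconv : ∀ A : Fin (k + 2) → Set X, (∀ i, MeasurableSet (A i)) →
      Tendsto (fun n => μ.real (⋂ i, (⇑T)^[t n i] ⁻¹' A i)) atTop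
        (𝓝 (lam.real (univ.pi A))))
    {p : Fin (k + 2)} {F : (Fin (k + 1) → X) → X} (hF : Measurable F)
    (hFT : ∀ᵐ v ∂(Measure.pi fun _ : Fin (k + 1) => μ), F (fun j => T (v j)) = T (F v))
    {γ : Measure (Fin (k + 2) → X)} (hγ : OnGr μ T p F γ) {f : X → ℂ}
    {u : Fin (k + 1) → X → ℂ} (hf : KK μ F f) (hu : ∀ l, KK μ F (u l))
    (hfu : ∀ᵐ v ∂(Measure.pi fun _ : Fin (k + 1) => μ), f (F v) = ∏ l, u l (v l))
    (hf1 : ‖∫ x, f x ∂μ‖ ≠ 1) (M : ℕ) : (M : ℝ) ^ 2 * lam.real (Gr p F) ≤ M := by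
  have hA : ∀ n i, Measurable (An T p f u n i) ∧ ∀ x, ‖An T p f u n i x‖ = 1 := by
    intro n i
    refine Fin.succAboveCases p ?_ (fun j => ?_) i
    · simp only [An, Fin.insertNth_apply_same]
      exact ⟨hf.1.comp (T.measurable.iterate n), fun x => hf.2.1 _⟩
    · simp only [An, Fin.insertNth_apply_succAbove]
      exact ⟨conj_meas ((hu j).1.comp (T.measurable.iterate n)), fun x => by
        rw [RCLike.norm_conj, (hu j).2.1]⟩
  let g : ℕ → (Fin (k + 2) → X) → ℂ := fun n x => ∏ i, An T p f u n i (x i)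
  have mg : ∀ n, Measurable (g n) := fun n => Finset.measurable_prod _ fun i _ =>
    (hA n i).1.comp (measurable_pi_apply i)
  have ug : ∀ n x, ‖g n x‖ = 1 := fun n x => norm_prod_one _ _ fun i => (hA n i).2 _
  let S : (Fin (k + 2) → X) → ℂ := fun x => ∑ n ∈ Finset.range M, g n x
  have mS : Measurable S := Finset.measurable_sum _ fun n _ => mg n
  have bS : ∀ x, ‖S x‖ ≤ M := by
    intro x
    refine (norm_sum_le _ _).trans ?_
    simp [ug]
  have hint : ∀ n m, ∫ x, g n x * (starRingEnd ℂ) (g m x) ∂lam = if n = m then 1 else 0 := by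
    intro n m
    split_ifs with hnm
    · subst hnm
      have : ∀ x, g n x * (starRingEnd ℂ) (g n x) = 1 := fun x => unit_mul_conj (ug n x)
      simp only [this]
      simp
    · have e1 : ∀ x, g n x * (starRingEnd ℂ) (g m x)
          = ∏ i, (An T p f u n i (x i) * (starRingEnd ℂ) (An T p f u m i (x i))) := by
        intro x
        simp only [g]
        rw [map_prod, Finset.prod_mul_distrib]
      simp only [e1]
      exact orth hT hk hfact ht hlam hconv hF hFT hγ hf hu hf1 hnm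
  have igg : ∀ n m, Integrable (fun x => g n x * (starRingEnd ℂ) (g m x)) lam := fun n m =>
    Integrable.of_bound ((mg n).mul (conj_meas (mg m))).aestronglyMeasurable 1
      (Eventually.of_forall fun x => by rw [norm_mul, RCLike.norm_conj, ug, ug, one_mul])
  have hS2 : ∫ x, ‖S x‖ ^ 2 ∂lam = M := by
    have e1 : ∀ x, ((‖S x‖ ^ 2 : ℝ) : ℂ)
        = ∑ n ∈ Finset.range M, ∑ m ∈ Finset.range M, g n x * (starRingEnd ℂ) (g m x) := by
      intro x
      rw [← Complex.normSq_eq_norm_sq, ← Complex.mul_conj]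
      simp only [S]
      rw [map_sum, Finset.sum_mul_sum]
    have e2 : ∫ x, ((‖S x‖ ^ 2 : ℝ) : ℂ) ∂lam = (M : ℂ) := by
      simp only [e1]
      rw [integral_finsetSum _ fun n _ => integrable_finsetSum _ fun m _ => igg n m]
      have e3 : ∀ n ∈ Finset.range M, ∫ x, ∑ m ∈ Finset.range M,
          g n x * (starRingEnd ℂ) (g m x) ∂lam = 1 := by
        intro n hn
        rw [integral_finsetSum _ fun m _ => igg n m]
        simp only [hint]
        simp only [Finset.sum_ite_eq, hn, if_true]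
      rw [Finset.sum_congr rfl e3]
      simp
    rw [integral_complex_ofReal] at e2
    exact_mod_cast e2
  have iS : Integrable (fun x => ‖S x‖ ^ 2) lam :=
    Integrable.of_bound (mS.norm.pow_const 2).aestronglyMeasurable ((M : ℝ) ^ 2)
      (Eventually.of_forall fun x => by
        rw [Real.norm_eq_abs, abs_of_nonneg (by positivity)]
        exact pow_le_pow_left₀ (norm_nonneg _) (bS x) 2)
  have mGr := Gr_meas p hF
  have hpi := hlam (fun j => p.succAbove j) Fin.succAbove_right_injective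
  have hone : ∀ᵐ x ∂lam, x ∈ Gr p F → ‖S x‖ ^ 2 = (M : ℝ) ^ 2 := by
    have h1 : ∀ᵐ x ∂lam, ∀ n : ℕ, x ∈ Gr p F → g n x = 1 := by
      rw [ae_all_iff]
      intro n
      have hTJ : MeasurePreserving (fun (x : Fin (k + 1) → X) j => (⇑T)^[n] (x j))
        (Measure.pi fun _ => μ) (Measure.pi fun _ => μ) :=
        measurePreserving_pi _ _ fun _ => hT.iterate n
      filter_upwards [mp_ae hpi (equiv_iter hT hFT n), mp_ae hpi (mp_ae hTJ hfu)] with x h2 h3
      intro hx
      have hx' : x p = F (fun j => x (p.succAbove j)) := hx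
      simp only [g]
      rw [Fin.prod_univ_succAbove _ p]
      simp only [An, Fin.insertNth_apply_same, Fin.insertNth_apply_succAbove]
      rw [hx', ← h2, h3, ← map_prod]
      exact unit_mul_conj (norm_prod_one _ _ fun l => (hu l).2.1 _)
    filter_upwards [h1] with x hx hxG
    have h2 : S x = M := by
      simp only [S]
      rw [Finset.sum_congr rfl fun n _ => hx n hxG]
      simp
    rw [h2]
    simp
  calc (M : ℝ) ^ 2 * lam.real (Gr p F) = ∫ x in Gr p F, (M : ℝ) ^ 2 ∂lam := by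
        rw [setIntegral_const, smul_eq_mul, mul_comm]
    _ = ∫ x in Gr p F, ‖S x‖ ^ 2 ∂lam := by
        refine setIntegral_congr_ae mGr ?_
        filter_upwards [hone] with x hx hxG
        exact (hx hxG).symm
    _ ≤ ∫ x, ‖S x‖ ^ 2 ∂lam := setIntegral_le_integral iS (Eventually.of_forall fun x => by
        positivity)
    _ = M := hS2

/-- **Main theorem.** -/
theorem no_graph [StandardBorelSpace X] {μ : Measure X}
    [IsProbabilityMeasure μ] {T : X ≃ᵐ X}
    (hT : MeasurePreserving T μ μ) {k : ℕ} (hk : 1 ≤ k) (hfact : FactSet μ T (k + 1))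
    {B : Set X} (hB : MeasurableSet B) (hB0 : 0 < μ.real B) (hB1 : μ.real B < 1)
    {t : ℕ → Fin (k + 2) → ℕ} (ht : Spread t)
    {lam : Measure (Fin (k + 2) → X)} [IsProbabilityMeasure lam]
    (hconv : ∀ A : Fin (k + 2) → Set X, (∀ i, MeasurableSet (A i)) →
      Tendsto (fun n => μ.real (⋂ i, (⇑T)^[t n i] ⁻¹' A i)) atTop
        (𝓝 (lam.real (univ.pi A))))
    {p : Fin (k + 2)} {F : (Fin (k + 1) → X) → X} (hF : Measurable F)
    (hFT : ∀ᵐ v ∂(Measure.pi fun _ : Fin (k + 1) => μ), F (fun j => T (v j)) = T (F v)) :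
    lam (Gr p F) = 0 := by
  by_contra hpos
  have hlam := good_of_conv hfact ht hconv
  have hinv := inv_of_conv hT hconv
  have hmix : Mx μ T := mixing_of_factSet hk hfact
  have hγ := onGr_cond hT hmix hlam hinv p hF hFT hpos
  have pγ := hγ.prob
  let j1 : Fin (k + 1) := (⟨0, hk⟩ : Fin k).succ
  obtain ⟨ρ0, pρ0, gρ0, hcl⟩ := closure_exists hT hmix hlam hconv p hF hFT hpos j1
  let Γ : Fin (k + 1) → Measure (Fin (k + 2) → X) :=
    Function.update (fun _ => lam[|Gr p F]) j1 ρ0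
  have hΓl : ∀ l, l ≠ j1 → Γ l = lam[|Gr p F] := fun l hl => by
    simp [Γ, Function.update_of_ne hl]
  have hΓj : Γ j1 = ρ0 := by simp [Γ]
  have pΓ : ∀ l, IsProbabilityMeasure (Γ l) := by
    intro l
    by_cases hl : l = j1
    · rw [hl, hΓj]
      exact pρ0
    · rw [hΓl l hl]
      exact pγ
  have gΓ : ∀ l, Good μ (Γ l) := by
    intro l
    by_cases hl : l = j1
    · rw [hl, hΓj]
      exact gρ0
    · rw [hΓl l hl]
      exact hγ.good
  have h0 : (0 : Fin (k + 1)) ≠ j1 := (Fin.succ_ne_zero _).symm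
  have hstat := stat_inst hk hF hγ gΓ (hΓl 0 h0) hcl
  have pρ : IsProbabilityMeasure ((Measure.pi fun l : Fin k => Γ l.succ).map (Ps p)) :=
    Measure.isProbabilityMeasure_map (Ps_meas p).aemeasurable
  obtain ⟨f, u, χ, mf, mu, mχ, uf, uu, uχ, hfu, hf0⟩ := stat_main hstat hB hB0 hB1
  have hKu := KK_first hk hF hγ gΓ hΓl hcl mu mχ uu uχ hfu
  have hu1 : ‖∫ x, u x ∂μ‖ ≠ 1 := by
    intro h1
    have hc := const_of_int mu uu h1
    set c := ∫ y, u y ∂μ
    have h2 : ∀ᵐ q ∂(μ.prod (Measure.pi fun _ : Fin k => μ)), f (F2 F q) = c * χ q.2 := by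
      have h3 : ∀ᵐ q ∂(μ.prod (Measure.pi fun _ : Fin k => μ)), u q.1 = c :=
        mp_ae measurePreserving_fst hc
      filter_upwards [hfu, h3] with q h4 h5
      rw [h4, h5]
    have h3 : ∀ᵐ q ∂(μ.prod (Measure.pi fun _ : Fin k => μ)), f q.1 = c * χ q.2 :=
      mp_ae_of hstat.h2 (measurableSet_eq_fun (mf.comp measurable_fst)
        ((mχ.comp measurable_snd).const_mul c)) h2
    obtain ⟨c', hc', -⟩ := const_of_two (f := f) (g := fun y => c * χ y) h3
    rw [integral_congr_ae (g := fun _ => c') hc'] at hf0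
    simp at hf0
    obtain ⟨x, hx⟩ := hc'.exists
    have := uf x
    rw [hx, hf0, norm_zero] at this
    exact zero_ne_one this
  obtain ⟨mu', uu', w, mw, uw, hw⟩ := hKu
  have hKw : ∀ l, KK μ F (w l) := fun l => KK_factor hF hγ gΓ hΓl hcl mw uw hw l
  have hsmall := graph_small hT hk hfact ht hlam hconv hF hFT hγ ⟨mu', uu', w, mw, uw, hw⟩ hKw
    hw hu1
  have hκ : 0 < lam.real (Gr p F) := by
    rw [measureReal_def]
    exact ENNReal.toReal_pos hpos (measure_ne_top _ _)
  obtain ⟨M, hM⟩ := exists_nat_gt (1 / lam.real (Gr p F))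
  have hM0 : (0 : ℝ) < M := lt_trans (by positivity) hM
  have h1 := hsmall M
  have h2 : 1 < (M : ℝ) * lam.real (Gr p F) := by
    rwa [div_lt_iff₀ hκ] at hM
  nlinarith

end

end Pool.Agent.Y313.RM
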