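import Pool.Agent.Y313.RM.Final

set_option autoImplicit false
set_option linter.unusedSectionVars false

/-!
# Invariant sets version
-/

open MeasureTheory Set Filter Topology ProbabilityTheory
open scoped ENNReal NNReal

namespace Pool.Agent.Y313.RM

open Pool.Agent.H716R2

theorem no_graph_inv {X : Type*} [MeasurableSpace X] [StandardBorelSpace X] {μ : Measure X}
    [IsProbabilityMeasure μ] {T : X ≃ᵐ X}
    (hT : MeasurePreserving T μ μ) {k : ℕ} (hk : 1 ≤ k) (hfact : FactSet μ T (k + 1))
    {B : Set X} (hB : MeasurableSet B) (hB0 : 0 < μ.real B) (hB1 : μ.real B < 1)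
    {t : ℕ → Fin (k + 2) → ℕ} (ht : Spread t)
    {lam : Measure (Fin (k + 2) → X)} [IsProbabilityMeasure lam]
    (hconv : ∀ A : Fin (k + 2) → Set X, (∀ i, MeasurableSet (A i)) →
      Tendsto (fun n => μ.real (⋂ i, (⇑T)^[t n i] ⁻¹' A i)) atTop
        (𝓝 (lam.real (univ.pi A))))
    {p : Fin (k + 2)} {F : (Fin (k + 1) → X) → X} (hF : Measurable F)
    {E : Set (Fin (k + 2) → X)} (hE : MeasurableSet E)
    (hinv : ∀ᵐ x ∂lam, (fun i => T (x i)) ∈ E ↔ x ∈ E)
    (hgr : ∀ᵐ x ∂lam, x ∈ E → x p = F (fun j => x (p.succAbove j))) : lam E = 0 := by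
  by_contra hne
  have hlam := good_of_conv hfact ht hconv
  have hS := inv_of_conv hT hconv
  have hmix : Mx μ T := mixing_of_factSet hk hfact
  have pρ := cond_isProbabilityMeasure (μ := lam) hne
  have hρS := mp_cond hS hE hinv
  have hρ := good_of_ac hT hmix hlam cond_absolutelyContinuous hρS
  have h1 : ∀ᵐ x ∂(lam[|E]), x p = F (fun j => x (p.succAbove j)) := by
    filter_upwards [ae_cond_mem hE,
      (cond_absolutelyContinuous (μ := lam) (s := E)).ae_le hgr] with x g1 g2
    exact g2 g1
  have h2 := mp_ae hρS h1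
  have hFT : ∀ᵐ v ∂(Measure.pi fun _ : Fin (k + 1) => μ), F (fun j => T (v j)) = T (F v) := by
    refine mp_ae_of (hρ (fun j => p.succAbove j) Fin.succAbove_right_injective)
      (measurableSet_eq_fun ?_ (T.measurable.comp hF)) ?_
    · exact hF.comp (measurable_pi_iff.2 fun j => T.measurable.comp (measurable_pi_apply j))
    · filter_upwards [h1, h2] with x g1 g2
      rw [← g1]
      exact g2.symm
  have h3 := no_graph hT hk hfact hB hB0 hB1 ht hconv hF hFT (p := p)
  apply hne
  refine measure_mono_null_ae ?_ h3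
  filter_upwards [hgr] with x hx
  intro hxE
  exact hx hxE

end Pool.Agent.Y313.RM
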