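import Pool.Agent.Y313.RM.Stat4

set_option autoImplicit false

/-!
# Static theorem
-/

open MeasureTheory Set Filter Topology Matrix
open scoped ENNReal NNReal

namespace Pool.Agent.Y313.RM

section
variable {X Y Z : Type*} [MeasurableSpace X] [MeasurableSpace Y] [MeasurableSpace Z]
variable {μ : Measure X} {ν : Measure Y} {τ : Measure Z} {F : X × Y → X} {G : Y × Z → Y}
  {ρ : Measure (Y × Z × Y)}

theorem center_ne [IsProbabilityMeasure μ] {A : Set X} (hA : MeasurableSet A)
    (h0 : 0 < μ.real A) (h1 : μ.real A < 1) :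
    ¬ (∀ᵐ x ∂μ, A.indicator (fun _ => (1 : ℝ)) x - μ.real A = 0) := by
  intro h
  have h2 : ∀ᵐ x ∂μ, x ∉ A := by
    filter_upwards [h] with x hx hxA
    rw [indicator_of_mem hxA] at hx
    linarith
  have h3 : μ A = 0 := by
    have := measure_eq_zero_iff_ae_notMem.2 h2
    exact this
  simp [Measure.real, h3] at h0

/-- **Static theorem.**  The closure relation forces a nonconstant unimodular function with
`f (F (w, x)) = u w * χ x`. -/
theorem stat_main [IsProbabilityMeasure μ] [IsProbabilityMeasure ν] [IsProbabilityMeasure τ]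
    [IsProbabilityMeasure ρ] [MeasurableSpace.CountablyGenerated X]
    [MeasurableSpace.CountablyGenerated Y] (h : Stat μ ν τ F G ρ) {A : Set X}
    (hA : MeasurableSet A) (h0 : 0 < μ.real A) (h1 : μ.real A < 1) :
    ∃ (f u : X → ℂ) (χ : Y → ℂ), Measurable f ∧ Measurable u ∧ Measurable χ ∧
      (∀ x, ‖f x‖ = 1) ∧ (∀ x, ‖u x‖ = 1) ∧ (∀ x, ‖χ x‖ = 1) ∧
      (∀ᵐ p ∂(μ.prod ν), f (F p) = u p.1 * χ p.2) ∧ ∫ x, f x ∂μ = 0 := by
  have mF := h.mF
  have hF2 : ∀ᵐ y ∂ν, MeasurePreserving (fun x => F (x, y)) μ μ := ae_mp' mF h.h2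
  let g : X → ℝ := fun x => A.indicator (fun _ => (1 : ℝ)) x - μ.real A
  have mg : Measurable g := (measurable_const.indicator hA).sub_const _
  have bg : ∀ x, |g x| ≤ 1 := by
    intro x
    simp only [g]
    by_cases hx : x ∈ A
    · rw [indicator_of_mem hx, abs_le]
      constructor <;> linarith
    · rw [indicator_of_notMem hx, abs_le]
      constructor <;> linarith
  have g0 : ∫ x, g x ∂μ = 0 := by
    simp only [g]
    rw [integral_sub ((integrable_const _).indicator hA) (integrable_const _),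
      integral_indicator_const _ hA]
    simp
  obtain ⟨d, q, M, N, hd, mq, qL, qorth, qmean, mM, mN, hM, hNT, hMN, hrel, hNN⟩ :=
    exists_MN h mg bg g0 (center_ne hA h0 h1)
  obtain ⟨r, hr0, hr⟩ := lin_part h hd mM mN hM hNT hMN hNN
  let f0 : X → ℂ := fun w => ∑ i, r i * (q i w : ℂ)
  have mf0 : Measurable f0 := Finset.measurable_sum _ fun i _ =>
    measurable_const.mul (Complex.measurable_ofReal.comp (mq i))
  have rel0 : ∀ᵐ p ∂(ν.prod ν), ∃ c : ℂ, ‖c‖ = 1 ∧
      ∀ᵐ w ∂μ, f0 (F (w, p.1)) = c * f0 (F (w, p.2)) := by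
    filter_upwards [hr, hrel] with p hp1 hp2
    obtain ⟨c, hc1, hc2⟩ := hp1
    refine ⟨c, hc1, ?_⟩
    filter_upwards [hp2] with w hw
    simp only [f0]
    have e1 : ∀ i, r i * (q i (F (w, p.1)) : ℂ)
        = ∑ j, r i * (N p.1 p.2 i j : ℂ) * (q j (F (w, p.2)) : ℂ) := by
      intro i
      rw [hw i]
      push_cast
      rw [Finset.mul_sum]
      exact Finset.sum_congr rfl fun j _ => by ring
    simp only [e1]
    rw [Finset.sum_comm, Finset.mul_sum]
    refine Finset.sum_congr rfl fun j _ => ?_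
    rw [← Finset.sum_mul, hc2 j]
    ring
  have rel1 := Measure.ae_ae_of_ae_prod
    (mp_ae (Measure.measurePreserving_swap (μ := ν) (ν := ν)) rel0)
  obtain ⟨y0, hy0, hy1⟩ := (hF2.and rel1).exists
  have hy1' : ∀ᵐ x ∂ν, ∃ c : ℂ, ‖c‖ = 1 ∧
      ∀ᵐ w ∂μ, f0 (F (w, x)) = c * f0 (F (w, y0)) := hy1
  -- the modulus is constant
  have hK : ∃ K : ℝ, ∀ᵐ b ∂μ, ‖f0 b‖ = K := by
    have a1 : ∀ᵐ p ∂(ν.prod μ), ‖f0 (F (p.2, p.1))‖ = ‖f0 (F (p.2, y0))‖ := by
      refine ae_prod_of ?_ ?_
      · exact measurableSet_eq_fun (mf0.comp (mF.comp (by fun_prop))).norm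
          (mf0.comp (mF.comp (by fun_prop))).norm
      · filter_upwards [hy1'] with x hx
        obtain ⟨c, hc1, hc2⟩ := hx
        filter_upwards [hc2] with w hw
        show ‖f0 (F (w, x))‖ = ‖f0 (F (w, y0))‖
        rw [hw, norm_mul, hc1, one_mul]
    have a2 : ∀ᵐ p ∂(μ.prod ν), ‖f0 (F (p.1, y0))‖ = ‖f0 (F p)‖ :=
      (mp_ae (Measure.measurePreserving_swap (μ := μ) (ν := ν)) a1).mono fun p hp => hp.symm
    have a3 : ∀ᵐ p ∂(μ.prod μ), ‖f0 (F (p.1, y0))‖ = ‖f0 p.2‖ := by
      refine mp_ae_of h.h1 ?_ a2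
      exact measurableSet_eq_fun (mf0.comp (mF.comp (by fun_prop))).norm
          (mf0.comp measurable_snd).norm
    obtain ⟨K, -, hK⟩ := const_of_two (f := fun w => ‖f0 (F (w, y0))‖)
      (g := fun b => ‖f0 b‖) a3
    exact ⟨K, hK⟩
  obtain ⟨K, hK⟩ := hK
  have iq : ∀ i j, Integrable (fun w => (q i w : ℂ) * (q j w : ℂ)) μ := by
    intro i j
    have := ((qL i).integrable_mul (qL j)).ofReal (𝕜 := ℂ)
    refine this.congr (Eventually.of_forall fun w => ?_)
    simp
  have iq1 : ∀ i, Integrable (fun w => (q i w : ℂ)) μ := fun i =>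
    ((qL i).integrable one_le_two).ofReal
  have coef : ∀ j, ∫ w, f0 w * (q j w : ℂ) ∂μ = r j := by
    intro j
    have e1 : ∀ w, f0 w * (q j w : ℂ) = ∑ i, r i * ((q i w : ℂ) * (q j w : ℂ)) := by
      intro w
      simp only [f0]
      rw [Finset.sum_mul]
      exact Finset.sum_congr rfl fun i _ => by ring
    simp only [e1]
    rw [integral_finsetSum _ fun i _ => (iq i j).const_mul _]
    have e2 : ∀ i, ∫ w, r i * ((q i w : ℂ) * (q j w : ℂ)) ∂μ = if i = j then r i else 0 := by
      intro i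
      rw [integral_const_mul]
      have e3 : ∫ w, ((q i w : ℂ) * (q j w : ℂ)) ∂μ = ((∫ w, q i w * q j w ∂μ : ℝ) : ℂ) := by
        rw [← integral_complex_ofReal]
        push_cast
        rfl
      rw [e3, qorth]
      split_ifs <;> simp
    simp only [e2]
    simp
  have hK0 : K ≠ 0 := by
    intro hK0
    apply hr0
    ext j
    rw [← coef j]
    have : ∀ᵐ w ∂μ, f0 w * (q j w : ℂ) = 0 := by
      filter_upwards [hK] with w hw
      rw [hK0, norm_eq_zero] at hw
      rw [hw, zero_mul]
    rw [integral_congr_ae (g := fun _ => (0 : ℂ)) this]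
    simp
  have hKpos : 0 < K := by
    obtain ⟨w, hw⟩ := hK.exists
    rw [← hw] at hK0 ⊢
    exact lt_of_le_of_ne (norm_nonneg _) (Ne.symm hK0)
  have mf0mean : ∫ w, f0 w ∂μ = 0 := by
    simp only [f0]
    rw [integral_finsetSum _ fun i _ => (iq1 i).const_mul _]
    refine Finset.sum_eq_zero fun i _ => ?_
    rw [integral_const_mul, integral_complex_ofReal, qmean]
    simp
  classical
  let f : X → ℂ := fun w => if ‖f0 w‖ = K then f0 w / K else 1
  have mf : Measurable f := Measurable.ite (measurableSet_eq_fun mf0.norm measurable_const)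
    (mf0.div_const _) measurable_const
  have uf : ∀ w, ‖f w‖ = 1 := by
    intro w
    simp only [f]
    split_ifs with hw
    · rw [norm_div, hw, Complex.norm_real, Real.norm_eq_abs, abs_of_pos hKpos, div_self hKpos.ne']
    · simp
  have hff0 : ∀ᵐ w ∂μ, f w = f0 w / K := by
    filter_upwards [hK] with w hw
    simp only [f, hw, if_true]
  let u : X → ℂ := fun w => f (F (w, y0))
  have mu : Measurable u := mf.comp hy0.measurable
  have uu : ∀ w, ‖u w‖ = 1 := fun w => uf _
  let χ0 : Y → ℂ := fun x => ∫ w, f (F (w, x)) * (starRingEnd ℂ) (u w) ∂μ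
  have mχ0 : Measurable χ0 := by
    have h1 : StronglyMeasurable fun p : Y × X => f (F (p.2, p.1)) * (starRingEnd ℂ) (u p.2) :=
      ((mf.comp (mF.comp (by fun_prop))).mul
        (Complex.continuous_conj.measurable.comp (mu.comp measurable_snd))).stronglyMeasurable
    exact (h1.integral_prod_right' (ν := μ)).measurable
  let χ : Y → ℂ := fun x => if ‖χ0 x‖ = 1 then χ0 x else 1
  have mχ : Measurable χ := Measurable.ite (measurableSet_eq_fun mχ0.norm measurable_const)
    mχ0 measurable_const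
  have uχ : ∀ x, ‖χ x‖ = 1 := by
    intro x
    simp only [χ]
    split_ifs with hw
    · exact hw
    · simp
  refine ⟨f, u, χ, mf, mu, mχ, uf, uu, uχ, ?_, ?_⟩
  · have a1 : ∀ᵐ p ∂(ν.prod μ), f (F (p.2, p.1)) = u p.2 * χ p.1 := by
      refine ae_prod_of ?_ ?_
      · exact measurableSet_eq_fun (mf.comp (mF.comp (by fun_prop)))
          ((mu.comp measurable_snd).mul (mχ.comp measurable_fst))
      · filter_upwards [hy1', hF2] with x hx hx2
        obtain ⟨c, hc1, hc2⟩ := hx
        have b1 : ∀ᵐ w ∂μ, f (F (w, x)) = c * u w := by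
          filter_upwards [hc2, mp_ae hx2 hff0, mp_ae hy0 hff0] with w g1 g2 g3
          show f (F (w, x)) = c * f (F (w, y0))
          rw [g2, g3, g1]
          ring
        have b2 : χ0 x = c := by
          have : ∀ᵐ w ∂μ, f (F (w, x)) * (starRingEnd ℂ) (u w) = c := by
            filter_upwards [b1] with w hw
            rw [hw, mul_assoc, Complex.mul_conj, Complex.normSq_eq_norm_sq, uu w]
            simp
          show ∫ w, f (F (w, x)) * (starRingEnd ℂ) (u w) ∂μ = c
          rw [integral_congr_ae (g := fun _ => c) this]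
          simp
        have b3 : χ x = c := by
          show (if ‖χ0 x‖ = 1 then χ0 x else 1) = c
          rw [b2, if_pos hc1]
        filter_upwards [b1] with w hw
        show f (F (w, x)) = u w * χ x
        rw [hw, b3, mul_comm]
    exact mp_ae (Measure.measurePreserving_swap (μ := μ) (ν := ν)) a1
  · rw [integral_congr_ae hff0, integral_div, mf0mean, zero_div]

end

end Pool.Agent.Y313.RM
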