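import Pool.Agent.Y313.RM.Dyn4
import Pool.Agent.Y313.RM.Stat5

set_option autoImplicit false
set_option linter.unusedSectionVars false

/-!
# The closure relation as an instance of the static theorem
-/

open MeasureTheory Set Filter Topology ProbabilityTheory
open scoped ENNReal NNReal

namespace Pool.Agent.Y313.RM

section
variable {X : Type*} [MeasurableSpace X]

theorem mp_uncons (μ : Measure X) [IsProbabilityMeasure μ] (k : ℕ) :
    MeasurePreserving (fun y : Fin (k + 1) → X => (y 0, fun j : Fin k => y j.succ))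
      (Measure.pi fun _ => μ) (μ.prod (Measure.pi fun _ => μ)) := by
  have h := measurePreserving_piFinSuccAbove (α := fun _ => X) (fun _ : Fin (k + 1) => μ) 0
  exact h

theorem mp_cons (μ : Measure X) [IsProbabilityMeasure μ] (k : ℕ) (l : Fin (k + 1)) :
    MeasurePreserving (fun q : X × (Fin k → X) => l.insertNth (α := fun _ => X) q.1 q.2)
      (μ.prod (Measure.pi fun _ => μ)) (Measure.pi fun _ => μ) :=
  mp_insert (fun _ : Fin (k + 1) => μ) l

theorem mp_pair0 (μ : Measure X) [IsProbabilityMeasure μ] {k : ℕ} (j : Fin k) :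
    MeasurePreserving (fun y : Fin (k + 1) → X => (y 0, y j.succ))
      (Measure.pi fun _ => μ) (μ.prod μ) := by
  have h1 := mp_uncons μ k
  have h2 := (MeasurePreserving.id μ).prod (measurePreserving_eval (fun _ : Fin k => μ) j)
  exact h2.comp h1

theorem mp_zip {L A B Θ : Type*} [Fintype L] [MeasurableSpace A] [MeasurableSpace B]
    [MeasurableSpace Θ] (σ : L → Measure Θ) [∀ l, IsProbabilityMeasure (σ l)]
    (a : Measure A) [IsProbabilityMeasure a] (b : Measure B) [IsProbabilityMeasure b]
    {φ : Θ → A × B} (h : ∀ l, MeasurePreserving φ (σ l) (a.prod b)) :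
    MeasurePreserving (fun D : L → Θ => ((fun l => (φ (D l)).1), fun l => (φ (D l)).2))
      (Measure.pi σ) ((Measure.pi fun _ => a).prod (Measure.pi fun _ => b)) := by
  have h1 : MeasurePreserving (fun (D : L → Θ) l => φ (D l)) (Measure.pi σ)
      (Measure.pi fun _ => a.prod b) := measurePreserving_pi _ _ h
  have h2 := measurePreserving_arrowProdEquivProdArrow A B L (fun _ => a) (fun _ => b)
  exact h2.comp h1

theorem inj_upd {k : ℕ} (p : Fin (k + 2)) (j1 : Fin (k + 1)) :
    Function.Injective (fun j : Fin (k + 1) => if j = j1 then p else p.succAbove j) := by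
  intro a b hab
  simp only at hab
  split_ifs at hab with h1 h2 h2
  · rw [h1, h2]
  · exact absurd hab.symm (Fin.succAbove_ne p b)
  · exact absurd hab (Fin.succAbove_ne p a)
  · exact Fin.succAbove_right_injective hab

theorem Good.pair {μ : Measure X} [IsProbabilityMeasure μ] {k : ℕ} (hk : 1 ≤ k)
    {σ : Measure (Fin (k + 2) → X)} (h : Good μ σ) (p : Fin (k + 2)) :
    MeasurePreserving (fun x : Fin (k + 2) → X => (x (p.succAbove 0), x p)) σ (μ.prod μ) := by
  have h1 := (mp_pair0 μ (⟨0, hk⟩ : Fin k)).comp (h _ (inj_upd p (⟨0, hk⟩ : Fin k).succ))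
  have e1 : (fun y : Fin (k + 1) → X => (y 0, y (⟨0, hk⟩ : Fin k).succ)) ∘
      (fun (x : Fin (k + 2) → X) j => x (if j = (⟨0, hk⟩ : Fin k).succ then p
        else p.succAbove j)) = fun x : Fin (k + 2) → X => (x (p.succAbove 0), x p) := by
    ext x
    · simp only [Function.comp_apply]
      rw [if_neg (Fin.succ_ne_zero _).symm]
    · simp
  rwa [e1] at h1

theorem Good.fst_rest {μ : Measure X} [IsProbabilityMeasure μ] {k : ℕ}
    {σ : Measure (Fin (k + 2) → X)} (h : Good μ σ) (p : Fin (k + 2)) :
    MeasurePreserving (fun x : Fin (k + 2) → X =>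
      (x (p.succAbove 0), fun a : Fin k => x (p.succAbove a.succ))) σ
      (μ.prod (Measure.pi fun _ => μ)) :=
  (mp_uncons μ k).comp (h (fun j => p.succAbove j) Fin.succAbove_right_injective)

theorem Good.rest_out {μ : Measure X} [IsProbabilityMeasure μ] {k : ℕ}
    {σ : Measure (Fin (k + 2) → X)} (h : Good μ σ) (p : Fin (k + 2)) :
    MeasurePreserving (fun x : Fin (k + 2) → X =>
      ((fun a : Fin k => x (p.succAbove a.succ)), x p)) σ
      ((Measure.pi fun _ => μ).prod μ) := by
  have h1 := (Measure.measurePreserving_swap (μ := μ)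
    (ν := Measure.pi fun _ : Fin k => μ)).comp
    ((mp_uncons μ k).comp (h _ (inj_upd p 0)))
  have e1 : Prod.swap ∘ (fun y : Fin (k + 1) → X => (y 0, fun j : Fin k => y j.succ)) ∘
      (fun (x : Fin (k + 2) → X) j => x (if j = 0 then p else p.succAbove j))
      = fun x : Fin (k + 2) → X => ((fun a : Fin k => x (p.succAbove a.succ)), x p) := by
    ext x
    · simp only [Function.comp_apply, Prod.swap]
      rw [if_neg (Fin.succ_ne_zero _)]
    · simp
  rwa [e1] at h1

/-- the two-variable form of `F` -/
def F2 {k : ℕ} (F : (Fin (k + 1) → X) → X) (q : X × (Fin k → X)) : X :=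
  F ((0 : Fin (k + 1)).insertNth (α := fun _ => X) q.1 q.2)

/-- the rows below the first one -/
def G2 {k : ℕ} (F : (Fin (k + 1) → X) → X) (q : (Fin k → X) × (Fin k → Fin k → X)) :
    Fin k → X := fun a => F2 F (q.1 a, q.2 a)

/-- the coordinates of the columns other than the first one -/
def Ps {k : ℕ} (p : Fin (k + 2)) (D : Fin k → Fin (k + 2) → X) :
    (Fin k → X) × (Fin k → Fin k → X) × (Fin k → X) :=
  (fun l => D l (p.succAbove 0), fun a l => D l (p.succAbove a.succ), fun l => D l p)

theorem F2_meas {k : ℕ} {F : (Fin (k + 1) → X) → X} (hF : Measurable F) :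
    Measurable (F2 F) :=
  hF.comp (MeasurableEquiv.piFinSuccAbove (fun _ => X) 0).symm.measurable

theorem G2_meas {k : ℕ} {F : (Fin (k + 1) → X) → X} (hF : Measurable F) :
    Measurable (G2 F) := by
  refine measurable_pi_iff.2 fun a => (F2_meas hF).comp ?_
  exact ((measurable_pi_apply a).comp measurable_fst).prodMk
    ((measurable_pi_apply a).comp measurable_snd)

theorem Ps_meas {k : ℕ} (p : Fin (k + 2)) : Measurable (Ps (X := X) p) := by
  have h1 : ∀ (l : Fin k) (i : Fin (k + 2)),
      Measurable fun D : Fin k → Fin (k + 2) → X => D l i := fun l i =>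
    (measurable_pi_apply i).comp (measurable_pi_apply l)
  refine Measurable.prodMk ?_ (Measurable.prodMk ?_ ?_)
  · exact measurable_pi_iff.2 fun l => h1 l _
  · exact measurable_pi_iff.2 fun a => measurable_pi_iff.2 fun l => h1 l _
  · exact measurable_pi_iff.2 fun l => h1 l _

variable [MeasurableEq X]

theorem stat_inst {μ : Measure X} [IsProbabilityMeasure μ] {T : X → X} {k : ℕ} (hk : 1 ≤ k)
    {p : Fin (k + 2)} {F : (Fin (k + 1) → X) → X} (hF : Measurable F)
    {γ : Measure (Fin (k + 2) → X)} (hγ : OnGr μ T p F γ)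
    {Γ : Fin (k + 1) → Measure (Fin (k + 2) → X)} [∀ l, IsProbabilityMeasure (Γ l)]
    (hΓ : ∀ l, Good μ (Γ l)) (hΓ0 : Γ 0 = γ)
    (hcl : ∀ᵐ C ∂(Measure.pi Γ), C ∈ Cl p F) :
    Stat μ (Measure.pi fun _ : Fin k => μ) (Measure.pi fun _ : Fin k => Measure.pi fun _ : Fin k => μ)
      (F2 F) (G2 F) ((Measure.pi fun l : Fin k => Γ l.succ).map (Ps p)) := by
  have pγ := hγ.prob
  have s1 : MeasurePreserving (fun q : X × (Fin k → X) => (q.1, F2 F q))
      (μ.prod (Measure.pi fun _ : Fin k => μ)) (μ.prod μ) := by
    have a1 := (mp_pair0 μ (⟨0, hk⟩ : Fin k)).comp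
      ((hγ.upd hF (⟨0, hk⟩ : Fin k).succ).comp (mp_cons μ k 0))
    have e1 : (fun y : Fin (k + 1) → X => (y 0, y (⟨0, hk⟩ : Fin k).succ)) ∘
        (fun v : Fin (k + 1) → X => Function.update v (⟨0, hk⟩ : Fin k).succ (F v)) ∘
        (fun q : X × (Fin k → X) => (0 : Fin (k + 1)).insertNth (α := fun _ => X) q.1 q.2)
        = fun q : X × (Fin k → X) => (q.1, F2 F q) := by
      ext q
      · simp only [Function.comp_apply]
        rw [Function.update_of_ne (Fin.succ_ne_zero _).symm]
        simp
      · simp only [Function.comp_apply]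
        rw [Function.update_self]
        rfl
    rwa [e1] at a1
  have s2 : MeasurePreserving (fun q : X × (Fin k → X) => (F2 F q, q.2))
      (μ.prod (Measure.pi fun _ : Fin k => μ)) (μ.prod (Measure.pi fun _ : Fin k => μ)) := by
    have a1 := (mp_uncons μ k).comp ((hγ.upd hF 0).comp (mp_cons μ k 0))
    have e1 : (fun y : Fin (k + 1) → X => (y 0, fun j : Fin k => y j.succ)) ∘
        (fun v : Fin (k + 1) → X => Function.update v 0 (F v)) ∘
        (fun q : X × (Fin k → X) => (0 : Fin (k + 1)).insertNth (α := fun _ => X) q.1 q.2)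
        = fun q : X × (Fin k → X) => (F2 F q, q.2) := by
      ext q
      · simp only [Function.comp_apply]
        rw [Function.update_self]
        rfl
      · simp only [Function.comp_apply]
        rw [Function.update_of_ne (Fin.succ_ne_zero _)]
        simp
    rwa [e1] at a1
  have zip := (measurePreserving_arrowProdEquivProdArrow X (Fin k → X) (Fin k) (fun _ => μ)
    (fun _ => Measure.pi fun _ : Fin k => μ)).symm
  have mΨ := Ps_meas (X := X) p
  have pΓ' : ∀ l : Fin k, IsProbabilityMeasure (Γ l.succ) := fun l => inferInstance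
  have Pmp : MeasurePreserving (Ps p) (Measure.pi fun l : Fin k => Γ l.succ)
      ((Measure.pi fun l : Fin k => Γ l.succ).map (Ps p)) := mΨ.measurePreserving _
  refine ⟨F2_meas hF, G2_meas hF, s1, s2, ?_, ?_, ?_, ?_, ?_, ?_⟩
  · exact (mp_zip (fun _ : Fin k => μ.prod (Measure.pi fun _ : Fin k => μ)) μ μ
      fun _ => s1).comp zip
  · exact (mp_zip (fun _ : Fin k => μ.prod (Measure.pi fun _ : Fin k => μ)) μ
      (Measure.pi fun _ : Fin k => μ) fun _ => s2).comp zip
  · refine ⟨by fun_prop, ?_⟩
    rw [Measure.map_map (by fun_prop) mΨ]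
    have a1 := ((MeasurePreserving.id (Measure.pi fun _ : Fin k => μ)).prod
      (mp_transpose μ (Fin k) (Fin k))).comp
      (mp_zip (fun l : Fin k => Γ l.succ) μ (Measure.pi fun _ : Fin k => μ)
      (fun l => (hΓ l.succ).fst_rest p))
    exact a1.map_eq
  · refine ⟨by fun_prop, ?_⟩
    rw [Measure.map_map (by fun_prop) mΨ]
    have a1 := mp_zip (fun l : Fin k => Γ l.succ) μ μ
      (fun l => (hΓ l.succ).pair hk p)
    exact a1.map_eq
  · refine ⟨by fun_prop, ?_⟩
    rw [Measure.map_map (by fun_prop) mΨ]
    have a1 := ((mp_transpose μ (Fin k) (Fin k)).prod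
      (MeasurePreserving.id (Measure.pi fun _ : Fin k => μ))).comp
      (mp_zip (fun l : Fin k => Γ l.succ) (Measure.pi fun _ : Fin k => μ) μ
      (fun l => (hΓ l.succ).rest_out p))
    exact a1.map_eq
  · have mF2 := F2_meas hF
    have mG2 := G2_meas hF
    have pρ : IsProbabilityMeasure ((Measure.pi fun l : Fin k => Γ l.succ).map (Ps p)) :=
      Measure.isProbabilityMeasure_map mΨ.aemeasurable
    refine mp_ae_of ((MeasurePreserving.id (μ.prod (Measure.pi fun _ : Fin k => μ))).prod Pmp)
      (measurableSet_eq_fun ?_ ?_) ?_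
    · exact mF2.comp ((mF2.comp (by fun_prop)).prodMk (mG2.comp (by fun_prop)))
    · exact mF2.comp ((mF2.comp (by fun_prop)).prodMk (by fun_prop))
    · have a0 := mp_insert Γ 0
      rw [hΓ0] at a0
      have a1 := a0.comp (((hγ.iota hF).comp (mp_cons μ k 0)).prod
        (MeasurePreserving.id (Measure.pi fun l : Fin k => Γ ((0 : Fin (k + 1)).succAbove l))))
      have a2 := mp_ae a1 hcl
      have e0 : (fun l : Fin k => Γ ((0 : Fin (k + 1)).succAbove l)) = fun l => Γ l.succ := rfl
      filter_upwards [a2] with q hq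
      have hq' : F (fun l => ((0 : Fin (k + 1)).insertNth (α := fun _ => Fin (k + 2) → X)
          (p.insertNth (α := fun _ => X)
            (F ((0 : Fin (k + 1)).insertNth (α := fun _ => X) q.1.1 q.1.2))
            ((0 : Fin (k + 1)).insertNth (α := fun _ => X) q.1.1 q.1.2)) q.2) l p)
          = F (fun j => F fun l => ((0 : Fin (k + 1)).insertNth (α := fun _ => Fin (k + 2) → X)
          (p.insertNth (α := fun _ => X)
            (F ((0 : Fin (k + 1)).insertNth (α := fun _ => X) q.1.1 q.1.2))
            ((0 : Fin (k + 1)).insertNth (α := fun _ => X) q.1.1 q.1.2)) q.2) l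
              (p.succAbove j)) := hq
      show F2 F (F2 F (q.1.1, fun l => q.2 l (p.succAbove 0)),
        G2 F (q.1.2, fun a l => q.2 l (p.succAbove a.succ)))
        = F2 F (F2 F q.1, fun l => q.2 l p)
      symm
      convert hq' using 1
      · unfold F2
        congr 1
        ext l
        refine Fin.cases ?_ (fun l => ?_) l
        · simp
        · simp
      · unfold G2 F2
        congr 1
        ext j
        refine Fin.cases ?_ (fun j => ?_) j
        · simp only [Fin.insertNth_apply_same]
          congr 1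
          ext l
          refine Fin.cases ?_ (fun l => ?_) l
          · simp
          · simp
        · simp only [Fin.insertNth_zero', Fin.cons_succ]
          congr 1
          ext l
          refine Fin.cases ?_ (fun l => ?_) l
          · simp
          · simp

end

end Pool.Agent.Y313.RM
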