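import Pool.Agent.Y313.RM.PropAB

set_option autoImplicit false
set_option linter.unusedSectionVars false

/-!
# The group of functions whose composition with `F` splits
-/

open MeasureTheory Set Filter Topology ProbabilityTheory
open scoped ENNReal NNReal

namespace Pool.Agent.Y313.RM

section
variable {X : Type*} [MeasurableSpace X]

theorem KK.one {μ : Measure X} {k : ℕ} {F : (Fin (k + 1) → X) → X} : KK μ F fun _ => 1 :=
  ⟨measurable_const, fun _ => by simp, fun _ _ => 1, fun _ => measurable_const,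
    fun _ _ => by simp, Eventually.of_forall fun v => by simp⟩

theorem KK.mul {μ : Measure X} {k : ℕ} {F : (Fin (k + 1) → X) → X} {f g : X → ℂ}
    (hf : KK μ F f) (hg : KK μ F g) : KK μ F fun x => f x * g x := by
  obtain ⟨mf, uf, u, mu, uu, hu⟩ := hf
  obtain ⟨mg, ug, w, mw, uw, hw⟩ := hg
  refine ⟨mf.mul mg, fun x => by rw [norm_mul, uf, ug, one_mul], fun l x => u l x * w l x,
    fun l => (mu l).mul (mw l), fun l x => by rw [norm_mul, uu, uw, one_mul], ?_⟩
  filter_upwards [hu, hw] with v h1 h2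
  rw [h1, h2, Finset.prod_mul_distrib]

theorem KK.conj {μ : Measure X} {k : ℕ} {F : (Fin (k + 1) → X) → X} {f : X → ℂ}
    (hf : KK μ F f) : KK μ F fun x => (starRingEnd ℂ) (f x) := by
  obtain ⟨mf, uf, u, mu, uu, hu⟩ := hf
  refine ⟨conj_meas mf, fun x => by rw [RCLike.norm_conj, uf],
    fun l x => (starRingEnd ℂ) (u l x), fun l => conj_meas (mu l),
    fun l x => by rw [RCLike.norm_conj, uu], ?_⟩
  filter_upwards [hu] with v h1
  rw [h1, map_prod]

theorem KK.prod {μ : Measure X} {k : ℕ} {F : (Fin (k + 1) → X) → X} {ι : Type*}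
    (S : Finset ι) {f : ι → X → ℂ} (hf : ∀ i, KK μ F (f i)) :
    KK μ F fun x => ∏ i ∈ S, f i x := by
  classical
  induction S using Finset.induction_on with
  | empty => simpa using KK.one
  | insert i S hi ih =>
    simp only [Finset.prod_insert hi]
    exact (hf i).mul ih

theorem equiv_iter {μ : Measure X} [IsProbabilityMeasure μ] {T : X ≃ᵐ X}
    (hT : MeasurePreserving T μ μ) {k : ℕ} {F : (Fin (k + 1) → X) → X}
    (hFT : ∀ᵐ v ∂(Measure.pi fun _ : Fin (k + 1) => μ), F (fun j => T (v j)) = T (F v))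
    (n : ℕ) : ∀ᵐ v ∂(Measure.pi fun _ : Fin (k + 1) => μ),
      F (fun j => (⇑T)^[n] (v j)) = (⇑T)^[n] (F v) := by
  have hTJ : ∀ n : ℕ, MeasurePreserving (fun (x : Fin (k + 1) → X) j => (⇑T)^[n] (x j))
      (Measure.pi fun _ => μ) (Measure.pi fun _ => μ) := fun n =>
    measurePreserving_pi _ _ fun _ => hT.iterate n
  induction n with
  | zero => exact Eventually.of_forall fun v => rfl
  | succ n ih =>
    filter_upwards [ih, mp_ae (hTJ n) hFT] with v h1 h2
    simp only [Function.iterate_succ_apply']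
    rw [← h1]
    exact h2

theorem KK.iter {μ : Measure X} [IsProbabilityMeasure μ] {T : X ≃ᵐ X}
    (hT : MeasurePreserving T μ μ) {k : ℕ} {F : (Fin (k + 1) → X) → X}
    (hFT : ∀ᵐ v ∂(Measure.pi fun _ : Fin (k + 1) => μ), F (fun j => T (v j)) = T (F v))
    {f : X → ℂ} (hf : KK μ F f) (n : ℕ) : KK μ F fun x => f ((⇑T)^[n] x) := by
  obtain ⟨mf, uf, u, mu, uu, hu⟩ := hf
  refine ⟨mf.comp (T.measurable.iterate n), fun x => uf _, fun l x => u l ((⇑T)^[n] x),
    fun l => (mu l).comp (T.measurable.iterate n), fun l x => uu _ _, ?_⟩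
  have hTJ : MeasurePreserving (fun (x : Fin (k + 1) → X) j => (⇑T)^[n] (x j))
      (Measure.pi fun _ => μ) (Measure.pi fun _ => μ) :=
    measurePreserving_pi _ _ fun _ => hT.iterate n
  filter_upwards [equiv_iter hT hFT n, mp_ae hTJ hu] with v h1 h2
  rw [← h1, h2]

theorem int_unit {μ : Measure X} [IsProbabilityMeasure μ] {f : X → ℂ} (mf : Measurable f)
    (uf : ∀ x, ‖f x‖ = 1) : Integrable f μ :=
  Integrable.of_bound mf.aestronglyMeasurable 1 (Eventually.of_forall fun x => (uf x).le)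

/-- a unimodular function with integral of modulus one is constant -/
theorem const_of_int {μ : Measure X} [IsProbabilityMeasure μ] {f : X → ℂ} (mf : Measurable f)
    (uf : ∀ x, ‖f x‖ = 1) (h : ‖∫ x, f x ∂μ‖ = 1) : ∀ᵐ x ∂μ, f x = ∫ y, f y ∂μ := by
  set c := ∫ y, f y ∂μ with hc
  have fi := int_unit (μ := μ) mf uf
  have h1 : ∀ x, ((‖f x - c‖ ^ 2 : ℝ) : ℂ)
      = 2 - f x * (starRingEnd ℂ) c - (starRingEnd ℂ) (f x) * c := by
    intro x
    rw [← Complex.normSq_eq_norm_sq, ← Complex.mul_conj, map_sub]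
    have h2 := unit_mul_conj (uf x)
    have h3 := unit_mul_conj h
    calc (f x - c) * ((starRingEnd ℂ) (f x) - (starRingEnd ℂ) c)
        = f x * (starRingEnd ℂ) (f x) + c * (starRingEnd ℂ) c - f x * (starRingEnd ℂ) c
          - (starRingEnd ℂ) (f x) * c := by ring
      _ = _ := by rw [h2, h3]; ring
  have i1 : Integrable (fun x => f x * (starRingEnd ℂ) c) μ := fi.mul_const _
  have ic : Integrable (fun x => (starRingEnd ℂ) (f x)) μ :=
    int_unit (conj_meas mf) fun x => by rw [RCLike.norm_conj, uf]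
  have i2 : Integrable (fun x => (starRingEnd ℂ) (f x) * c) μ := ic.mul_const _
  have h4 : ∫ x, ((‖f x - c‖ ^ 2 : ℝ) : ℂ) ∂μ = 0 := by
    simp only [h1]
    have i0 : Integrable (fun x : X => (2 : ℂ) - f x * (starRingEnd ℂ) c) μ :=
      (integrable_const _).sub i1
    rw [integral_sub i0 i2, integral_sub (integrable_const _) i1,
      integral_mul_const, integral_mul_const, integral_conj, ← hc, unit_mul_conj h,
      unit_conj_mul h]
    simp
    norm_num
  rw [integral_complex_ofReal] at h4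
  have h5 : ∫ x, ‖f x - c‖ ^ 2 ∂μ = 0 := by exact_mod_cast h4
  have i3 : Integrable (fun x => ‖f x - c‖ ^ 2) μ := by
    refine Integrable.of_bound ((mf.sub_const c).norm.pow_const 2).aestronglyMeasurable 4
      (Eventually.of_forall fun x => ?_)
    rw [Real.norm_eq_abs, abs_of_nonneg (by positivity)]
    have h6 : ‖f x - c‖ ≤ 2 := by
      calc ‖f x - c‖ ≤ ‖f x‖ + ‖c‖ := norm_sub_le _ _
        _ = 2 := by rw [uf, h]; norm_num
    nlinarith [norm_nonneg (f x - c)]
  have h6 := (integral_eq_zero_iff_of_nonneg (fun x => by positivity) i3).1 h5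
  filter_upwards [h6] with x hx
  have hx' : ‖f x - c‖ ^ 2 = 0 := hx
  have h7 : ‖f x - c‖ = 0 := by simpa using hx'
  exact sub_eq_zero.1 (norm_eq_zero.1 h7)

variable [MeasurableEq X]

/-- integrals of functions in `KK` have modulus zero or one -/
theorem KK.integral {μ : Measure X} [IsProbabilityMeasure μ] {T : X → X} {k : ℕ} (hk : 1 ≤ k)
    {p : Fin (k + 2)} {F : (Fin (k + 1) → X) → X} (hF : Measurable F)
    {γ : Measure (Fin (k + 2) → X)} (hγ : OnGr μ T p F γ) {f : X → ℂ} (hf : KK μ F f) :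
    ∫ x, f x ∂μ = 0 ∨ ‖∫ x, f x ∂μ‖ = 1 := by
  obtain ⟨mf, uf, u, mu, uu, hu⟩ := hf
  by_cases h0 : ∫ x, f x ∂μ = 0
  · exact Or.inl h0
  right
  have hFmp := hγ.mpF hF
  have e1 : ∫ x, f x ∂μ = ∏ l, ∫ x, u l x ∂μ := by
    rw [← mp_int hFmp mf.aestronglyMeasurable, integral_congr_ae hu]
    exact integral_fintype_prod_eq_prod (fun l : Fin (k + 1) => u l)
  have e2 : ∀ l, ‖∫ x, u l x ∂μ‖ = 1 := by
    intro l
    obtain ⟨j, hj⟩ : ∃ j : Fin (k + 1), j ≠ l := by
      have : Nontrivial (Fin (k + 1)) := Fin.nontrivial_iff_two_le.2 (by omega)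
      exact exists_ne l
    -- first computation
    have a1 : ∫ v : Fin (k + 1) → X, f (F v) * (starRingEnd ℂ) (u l (v l))
        ∂(Measure.pi fun _ => μ) = (∫ x, f x ∂μ) * ∫ x, (starRingEnd ℂ) (u l x) ∂μ := by
      let w : Fin (k + 1) → X → ℂ := fun i =>
        if i = j then f else if i = l then fun x => (starRingEnd ℂ) (u l x) else fun _ => 1
      have hw : ∀ y : Fin (k + 1) → X, ∏ i, w i (y i) = f (y j) * (starRingEnd ℂ) (u l (y l)) := by
        intro y
        rw [Fintype.prod_eq_mul j l hj (by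
          rintro i ⟨h1, h2⟩
          simp [w, h1, h2])]
        simp [w, hj.symm]
      have b1 := mp_int (hγ.upd hF j) (f := fun y => f (y j) * (starRingEnd ℂ) (u l (y l)))
        (((mf.comp (measurable_pi_apply j)).mul
          (conj_meas ((mu l).comp (measurable_pi_apply l)))).aestronglyMeasurable)
      have b2 : ∀ v : Fin (k + 1) → X, f (Function.update v j (F v) j)
          * (starRingEnd ℂ) (u l (Function.update v j (F v) l))
          = f (F v) * (starRingEnd ℂ) (u l (v l)) := by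
        intro v
        rw [Function.update_self, Function.update_of_ne hj.symm]
      simp only [b2] at b1
      rw [b1]
      simp only [← hw]
      rw [integral_fintype_prod_eq_prod (fun i : Fin (k + 1) => w i)]
      rw [Fintype.prod_eq_mul j l hj (by
          rintro i ⟨h1, h2⟩
          simp [w, h1, h2])]
      simp [w, hj.symm]
    have a2 : ∫ v : Fin (k + 1) → X, f (F v) * (starRingEnd ℂ) (u l (v l))
        ∂(Measure.pi fun _ => μ) = ∏ i ∈ Finset.univ.erase l, ∫ x, u i x ∂μ := by
      let w : Fin (k + 1) → X → ℂ := fun i => if i = l then fun _ => 1 else u i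
      have hw : ∀ᵐ v ∂(Measure.pi fun _ : Fin (k + 1) => μ),
          f (F v) * (starRingEnd ℂ) (u l (v l)) = ∏ i, w i (v i) := by
        filter_upwards [hu] with v hv
        rw [hv, ← Finset.mul_prod_erase Finset.univ (fun i => u i (v i)) (Finset.mem_univ l),
          ← Finset.mul_prod_erase Finset.univ (fun i => w i (v i)) (Finset.mem_univ l)]
        have c1 : ∏ i ∈ Finset.univ.erase l, w i (v i) = ∏ i ∈ Finset.univ.erase l, u i (v i) :=
          Finset.prod_congr rfl fun i hi => by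
            simp only [w, if_neg (Finset.ne_of_mem_erase hi)]
        rw [c1]
        simp only [w, if_true]
        calc u l (v l) * (∏ x ∈ Finset.univ.erase l, u x (v x)) * (starRingEnd ℂ) (u l (v l))
            = (u l (v l) * (starRingEnd ℂ) (u l (v l))) * ∏ x ∈ Finset.univ.erase l, u x (v x) := by
              ring
          _ = _ := by rw [unit_mul_conj (uu _ _)]
      rw [integral_congr_ae hw, integral_fintype_prod_eq_prod (fun i : Fin (k + 1) => w i),
        ← Finset.mul_prod_erase Finset.univ _ (Finset.mem_univ l)]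
      have c2 : ∏ i ∈ Finset.univ.erase l, ∫ x, w i x ∂μ
          = ∏ i ∈ Finset.univ.erase l, ∫ x, u i x ∂μ :=
        Finset.prod_congr rfl fun i hi => by
          simp only [w, if_neg (Finset.ne_of_mem_erase hi)]
      rw [c2]
      simp [w]
    have a3 : (∫ x, f x ∂μ) * ((∫ x, u l x ∂μ) * (starRingEnd ℂ) (∫ x, u l x ∂μ))
        = ∫ x, f x ∂μ := by
      have a4 := a1.symm.trans a2
      rw [integral_conj] at a4
      calc (∫ x, f x ∂μ) * ((∫ x, u l x ∂μ) * (starRingEnd ℂ) (∫ x, u l x ∂μ))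
          = (∫ x, u l x ∂μ) * ((∫ x, f x ∂μ) * (starRingEnd ℂ) (∫ x, u l x ∂μ)) := by ring
        _ = (∫ x, u l x ∂μ) * ∏ i ∈ Finset.univ.erase l, ∫ x, u i x ∂μ := by rw [a4]
        _ = ∏ i, ∫ x, u i x ∂μ :=
          Finset.mul_prod_erase _ (fun i => ∫ x, u i x ∂μ) (Finset.mem_univ l)
        _ = _ := e1.symm
    have a5 : (∫ x, u l x ∂μ) * (starRingEnd ℂ) (∫ x, u l x ∂μ) = 1 :=
      mul_left_cancel₀ h0 (a3.trans (mul_one _).symm)
    rw [Complex.mul_conj, Complex.normSq_eq_norm_sq] at a5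
    have a6 : ‖∫ x, u l x ∂μ‖ ^ 2 = 1 := by exact_mod_cast a5
    nlinarith [norm_nonneg (∫ x, u l x ∂μ)]
  rw [e1, norm_prod]
  exact Finset.prod_eq_one fun l _ => e2 l

end

end Pool.Agent.Y313.RM
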