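import Pool.Agent.TH268.NP.Ker

set_option autoImplicit false
set_option linter.unusedSectionVars false

/-!
# Bounded symmetric kernels: compactness and eigenfunctions
-/

open MeasureTheory Set Filter Topology
open scoped ENNReal NNReal

namespace Pool.Agent.Y313.RM

open Pool.Agent.TH268.NP.Ker (Rep exists_op)

variable {α : Type*} [MeasurableSpace α] {μ : Measure α} [IsProbabilityMeasure μ]

theorem norm_sq_lp (φ : Lp ℝ 2 μ) : ‖φ‖ ^ 2 = ∫ x, (φ x) ^ 2 ∂μ := by
  rw [← real_inner_self_eq_norm_sq, L2.inner_def]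
  refine integral_congr_ae (Eventually.of_forall fun x => ?_)
  simp [sq]

theorem inner_lp (φ ψ : Lp ℝ 2 μ) : inner ℝ φ ψ = ∫ x, φ x * ψ x ∂μ := by
  rw [L2.inner_def]
  refine integral_congr_ae (Eventually.of_forall fun x => ?_)
  simp [mul_comm]

theorem memLp_of_bdd {f : α → ℝ} (hf : Measurable f) {C : ℝ} (hC : ∀ x, |f x| ≤ C) {p : ℝ≥0∞} :
    MemLp f p μ :=
  (memLp_top_of_bound hf.aestronglyMeasurable C (Eventually.of_forall hC)).mono_exponent le_top

theorem cs_int {f g : α → ℝ} (hf : MemLp f 2 μ) (hg : MemLp g 2 μ) :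
    (∫ x, f x * g x ∂μ) ^ 2 ≤ (∫ x, (f x) ^ 2 ∂μ) * ∫ x, (g x) ^ 2 ∂μ := by
  have h1 := abs_real_inner_le_norm (hf.toLp f) (hg.toLp g)
  have h2 : inner ℝ (hf.toLp f) (hg.toLp g) = ∫ x, f x * g x ∂μ := by
    rw [inner_lp]
    refine integral_congr_ae ?_
    filter_upwards [hf.coeFn_toLp, hg.coeFn_toLp] with x a1 a2
    rw [a1, a2]
  have h3 : ‖hf.toLp f‖ ^ 2 = ∫ x, (f x) ^ 2 ∂μ := by
    rw [norm_sq_lp]
    refine integral_congr_ae ?_
    filter_upwards [hf.coeFn_toLp] with x a1
    rw [a1]
  have h4 : ‖hg.toLp g‖ ^ 2 = ∫ x, (g x) ^ 2 ∂μ := by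
    rw [norm_sq_lp]
    refine integral_congr_ae ?_
    filter_upwards [hg.coeFn_toLp] with x a1
    rw [a1]
  rw [← h2, ← h3, ← h4, ← mul_pow, ← sq_abs]
  exact pow_le_pow_left₀ (abs_nonneg _) h1 2

theorem rep_bound (k : α → α → ℝ) (hk : Measurable (Function.uncurry k)) (C : ℝ)
    (hC : ∀ x y, |k x y| ≤ C) (T : Lp ℝ 2 μ →L[ℝ] Lp ℝ 2 μ) (hT : Rep μ k T) (φ : Lp ℝ 2 μ) :
    ‖T φ‖ ^ 2 ≤ (∫ x, ∫ y, (k x y) ^ 2 ∂μ ∂μ) * ‖φ‖ ^ 2 := by
  have hrow : ∀ x, Measurable (k x) := fun x => hk.comp (measurable_const.prodMk measurable_id)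
  have hC0 : 0 ≤ C := by
    obtain ⟨x⟩ : Nonempty α := (inferInstance : NeZero μ).out |> fun h => by
      by_contra hc
      rw [not_nonempty_iff] at hc
      exact h (Measure.eq_zero_of_isEmpty μ)
    exact (abs_nonneg _).trans (hC x x)
  have hsq : ∀ x y, |(k x y) ^ 2| ≤ C ^ 2 := by
    intro x y
    rw [abs_pow]
    exact pow_le_pow_left₀ (abs_nonneg _) (hC x y) 2
  rw [norm_sq_lp]
  have h1 : ∀ᵐ x ∂μ, (T φ x) ^ 2 ≤ (∫ y, (k x y) ^ 2 ∂μ) * ‖φ‖ ^ 2 := by
    filter_upwards [hT φ] with x hx
    rw [hx, norm_sq_lp]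
    exact cs_int (memLp_of_bdd (hrow x) (hC x)) (Lp.memLp φ)
  rw [← integral_mul_const]
  refine integral_mono_ae ?_ ?_ h1
  · exact (Lp.memLp (T φ)).integrable_sq
  · refine Integrable.mul_const ?_ _
    have hm : Measurable (fun x => ∫ y, (k x y) ^ 2 ∂μ) := by
      have h2 : Measurable (fun p : α × α => (k p.1 p.2) ^ 2) := hk.pow_const 2
      exact h2.stronglyMeasurable.integral_prod_right.measurable
    refine (memLp_of_bdd hm (C := C ^ 2) ?_ (p := 1)).integrable le_rfl
    intro x
    have h3 : ‖∫ y, (k x y) ^ 2 ∂μ‖ ≤ C ^ 2 * μ.real univ :=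
      norm_integral_le_of_norm_le_const (Eventually.of_forall (hsq x))
    simpa using h3

theorem exists_rep (k : α → α → ℝ) (hk : Measurable (Function.uncurry k)) (C : ℝ)
    (hC : ∀ x y, |k x y| ≤ C) : ∃ T : Lp ℝ 2 μ →L[ℝ] Lp ℝ 2 μ, Rep μ k T := by
  have hC0 : 0 ≤ C := by
    obtain ⟨x⟩ : Nonempty α := (inferInstance : NeZero μ).out |> fun h => by
      by_contra hc
      rw [not_nonempty_iff] at hc
      exact h (Measure.eq_zero_of_isEmpty μ)
    exact (abs_nonneg _).trans (hC x x)
  obtain ⟨T, hT, -, -⟩ := exists_op (μ := μ) k C hC0 hk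
    (Eventually.of_forall fun x => by
      calc ∫⁻ y, ENNReal.ofReal |k x y| ∂μ ≤ ∫⁻ _y, ENNReal.ofReal C ∂μ :=
            lintegral_mono fun y => ENNReal.ofReal_le_ofReal (hC x y)
        _ = ENNReal.ofReal C := by simp)
    (Eventually.of_forall fun y => by
      calc ∫⁻ x, ENNReal.ofReal |k x y| ∂μ ≤ ∫⁻ _x, ENNReal.ofReal C ∂μ :=
            lintegral_mono fun x => ENNReal.ofReal_le_ofReal (hC x y)
        _ = ENNReal.ofReal C := by simp)
  exact ⟨T, hT⟩

theorem rep_unique {k : α → α → ℝ} {T T' : Lp ℝ 2 μ →L[ℝ] Lp ℝ 2 μ} (hT : Rep μ k T)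
    (hT' : Rep μ k T') : T = T' := by
  ext1 φ
  apply Lp.ext
  filter_upwards [hT φ, hT' φ] with x h1 h2
  rw [h1, h2]

theorem integ_row {k : α → α → ℝ} (hk : Measurable (Function.uncurry k)) {C : ℝ}
    (hC : ∀ x y, |k x y| ≤ C) (φ : Lp ℝ 2 μ) (x : α) : Integrable (fun y => k x y * φ y) μ := by
  have hrow : Measurable (k x) := hk.comp (measurable_const.prodMk measurable_id)
  exact (memLp_of_bdd hrow (hC x) (p := 2)).integrable_mul (Lp.memLp φ)

theorem rep_add {k l : α → α → ℝ} (hk : Measurable (Function.uncurry k))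
    (hl : Measurable (Function.uncurry l)) {C D : ℝ} (hC : ∀ x y, |k x y| ≤ C)
    (hD : ∀ x y, |l x y| ≤ D) {T S : Lp ℝ 2 μ →L[ℝ] Lp ℝ 2 μ} (hT : Rep μ k T)
    (hS : Rep μ l S) : Rep μ (fun x y => k x y + l x y) (T + S) := by
  intro φ
  filter_upwards [hT φ, hS φ, Lp.coeFn_add (T φ) (S φ)] with x h1 h2 h3
  rw [add_apply, h3, Pi.add_apply, h1, h2,
    ← integral_add (integ_row hk hC φ x) (integ_row hl hD φ x)]
  refine integral_congr_ae (Eventually.of_forall fun y => ?_)
  simp only
  ring

theorem rep_smul {k : α → α → ℝ} (c : ℝ) {T : Lp ℝ 2 μ →L[ℝ] Lp ℝ 2 μ} (hT : Rep μ k T) :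
    Rep μ (fun x y => c * k x y) (c • T) := by
  intro φ
  filter_upwards [hT φ, Lp.coeFn_smul c (T φ)] with x h1 h3
  rw [smul_apply, h3, Pi.smul_apply, h1, smul_eq_mul, ← integral_const_mul]
  refine integral_congr_ae (Eventually.of_forall fun y => ?_)
  simp only
  ring

theorem norm_le_of_rep {k : α → α → ℝ} (hk : Measurable (Function.uncurry k)) {C : ℝ}
    (hC : ∀ x y, |k x y| ≤ C) {T : Lp ℝ 2 μ →L[ℝ] Lp ℝ 2 μ} (hT : Rep μ k T) {ε : ℝ} (hε : 0 ≤ ε)
    (h : (∫ x, ∫ y, (k x y) ^ 2 ∂μ ∂μ) ≤ ε ^ 2) : ‖T‖ ≤ ε := by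
  refine ContinuousLinearMap.opNorm_le_bound _ hε fun φ => ?_
  have h1 := rep_bound k hk C hC T hT φ
  have h2 : ‖T φ‖ ^ 2 ≤ (ε * ‖φ‖) ^ 2 := by
    rw [mul_pow]
    exact h1.trans (mul_le_mul_of_nonneg_right h (sq_nonneg _))
  exact (sq_le_sq₀ (norm_nonneg _) (by positivity)).1 h2

theorem compact_rect {A B : Set α} (hA : MeasurableSet A) (hB : MeasurableSet B)
    {T : Lp ℝ 2 μ →L[ℝ] Lp ℝ 2 μ}
    (hT : Rep μ (fun x y => (A ×ˢ B).indicator (fun _ => (1 : ℝ)) (x, y)) T) :
    IsCompactOperator T := by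
  let a : Lp ℝ 2 μ := indicatorConstLp 2 hA (measure_ne_top μ A) (1 : ℝ)
  let b : Lp ℝ 2 μ := indicatorConstLp 2 hB (measure_ne_top μ B) (1 : ℝ)
  have h1 : T = (ContinuousLinearMap.toSpanSingleton ℝ a) ∘L (innerSL ℝ b) := by
    ext1 φ
    apply Lp.ext
    have ha : (a : α → ℝ) =ᵐ[μ] A.indicator fun _ => (1 : ℝ) := indicatorConstLp_coeFn
    have hb : (b : α → ℝ) =ᵐ[μ] B.indicator fun _ => (1 : ℝ) := indicatorConstLp_coeFn
    have h5 := Lp.coeFn_smul (inner ℝ b φ) a
    filter_upwards [hT φ, ha, h5] with x h2 h3 h4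
    show T φ x = ((inner ℝ b φ) • a : Lp ℝ 2 μ) x
    rw [h2, h4, Pi.smul_apply, h3, inner_lp, smul_eq_mul, ← integral_mul_const]
    refine integral_congr_ae ?_
    filter_upwards [hb] with y hy
    rw [hy]
    by_cases hx : x ∈ A <;> by_cases hy' : y ∈ B <;> simp [hx, hy']
  rw [h1]
  exact (isCompactOperator_of_locallyCompactSpace_dom (innerSL ℝ b)).clm_comp
    (ContinuousLinearMap.toSpanSingleton ℝ a)

theorem indk_meas {S : Set (α × α)} (hS : MeasurableSet S) :
    Measurable (Function.uncurry fun x y => S.indicator (fun _ => (1 : ℝ)) (x, y)) := by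
  have : Measurable (S.indicator (fun _ => (1 : ℝ))) := measurable_const.indicator hS
  exact this

theorem indk_bdd (S : Set (α × α)) (x y : α) : |S.indicator (fun _ => (1 : ℝ)) (x, y)| ≤ 1 := by
  by_cases h : (x, y) ∈ S <;> simp [h]

theorem indk_sq (S : Set (α × α)) (hS : MeasurableSet S) :
    (∫ x, ∫ y, (S.indicator (fun _ => (1 : ℝ)) (x, y)) ^ 2 ∂μ ∂μ) = (μ.prod μ).real S := by
  have h1 : ∀ x y, (S.indicator (fun _ => (1 : ℝ)) (x, y)) ^ 2
      = S.indicator (fun _ => (1 : ℝ)) (x, y) := by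
    intro x y
    by_cases h : (x, y) ∈ S <;> simp [h]
  simp only [h1]
  have h2 : Integrable (S.indicator (fun _ => (1 : ℝ))) (μ.prod μ) :=
    (integrable_const _).indicator hS
  rw [integral_integral (f := fun x y => S.indicator (fun _ => (1 : ℝ)) (x, y)) h2]
  rw [integral_indicator hS]
  simp

theorem compact_ind (S : Set (α × α)) (hS : MeasurableSet S) :
    ∀ T : Lp ℝ 2 μ →L[ℝ] Lp ℝ 2 μ,
      Rep μ (fun x y => S.indicator (fun _ => (1 : ℝ)) (x, y)) T → IsCompactOperator T := by
  induction S, hS using MeasurableSpace.induction_on_inter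
    (generateFrom_prod (α := α) (β := α)).symm isPiSystem_prod with
  | empty =>
    intro T hT
    have h0 : T = 0 := by
      refine rep_unique hT ?_
      intro φ
      filter_upwards [Lp.coeFn_zero ℝ 2 μ] with x hx
      rw [zero_apply, hx]
      simp
    rw [h0]
    exact isCompactOperator_zero
  | basic t ht =>
    intro T hT
    obtain ⟨A, hA, B, hB, rfl⟩ := ht
    exact compact_rect hA hB hT
  | compl t ht ih =>
    intro T hT
    obtain ⟨T1, hT1⟩ := exists_rep (μ := μ)
      (fun x y => (univ ×ˢ univ : Set (α × α)).indicator (fun _ => (1 : ℝ)) (x, y))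
      (indk_meas (MeasurableSet.univ.prod MeasurableSet.univ)) 1 (indk_bdd _)
    obtain ⟨T2, hT2⟩ := exists_rep (μ := μ)
      (fun x y => t.indicator (fun _ => (1 : ℝ)) (x, y)) (indk_meas ht) 1 (indk_bdd _)
    have c1 := compact_rect MeasurableSet.univ MeasurableSet.univ hT1
    have c2 := ih T2 hT2
    have h1 : T = T1 + (-1 : ℝ) • T2 := by
      refine rep_unique hT ?_
      have h2 := rep_add (indk_meas (MeasurableSet.univ.prod MeasurableSet.univ))
        (l := fun x y => (-1 : ℝ) * t.indicator (fun _ => (1 : ℝ)) (x, y))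
        ((indk_meas ht).const_mul _) (indk_bdd _) (D := 1) (by
          intro x y
          rw [abs_mul]
          simpa using indk_bdd t x y) hT1 (rep_smul (-1) hT2)
      have h3 : (fun x y => (univ ×ˢ univ : Set (α × α)).indicator (fun _ => (1 : ℝ)) (x, y) +
          (-1 : ℝ) * t.indicator (fun _ => (1 : ℝ)) (x, y))
          = fun x y => tᶜ.indicator (fun _ => (1 : ℝ)) (x, y) := by
        funext x y
        by_cases h : (x, y) ∈ t <;> simp [h]
      rw [h3] at h2
      exact h2
    rw [h1]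
    exact c1.add (c2.smul (-1 : ℝ))
  | iUnion f hd hf ih =>
    intro T hT
    have hU : ∀ n, MeasurableSet (⋃ i ∈ Finset.range n, f i) := fun n =>
      Finset.measurableSet_biUnion _ fun i _ => hf i
    choose S hS using fun i => exists_rep (μ := μ)
      (fun x y => (f i).indicator (fun _ => (1 : ℝ)) (x, y)) (indk_meas (hf i)) 1 (indk_bdd _)
    have hrep : ∀ n, Rep μ (fun x y => (⋃ i ∈ Finset.range n, f i).indicator
        (fun _ => (1 : ℝ)) (x, y)) (∑ i ∈ Finset.range n, S i) := by
      intro n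
      induction n with
      | zero =>
        intro φ
        filter_upwards [Lp.coeFn_zero ℝ 2 μ] with x hx
        simp only [Finset.range_zero, Finset.sum_empty]
        rw [zero_apply, hx]
        simp
      | succ n ihn =>
        rw [Finset.sum_range_succ]
        have h2 := rep_add (indk_meas (hU n)) (indk_meas (hf n)) (indk_bdd _) (indk_bdd _) ihn
          (hS n)
        have h3 : (fun x y => (⋃ i ∈ Finset.range n, f i).indicator (fun _ => (1 : ℝ)) (x, y) +
            (f n).indicator (fun _ => (1 : ℝ)) (x, y))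
            = fun x y => (⋃ i ∈ Finset.range (n + 1), f i).indicator
              (fun _ => (1 : ℝ)) (x, y) := by
          funext x y
          have hdis : ∀ i < n, (x, y) ∈ f i → (x, y) ∉ f n := by
            intro i hi h1 h2
            exact Set.disjoint_left.1 (hd (Nat.ne_of_lt hi)) h1 h2
          by_cases h : ∃ i < n, (x, y) ∈ f i
          · obtain ⟨i, hi, hxi⟩ := h
            have h4 := hdis i hi hxi
            have h5 : (x, y) ∈ ⋃ i ∈ Finset.range n, f i := by
              simp only [Finset.mem_range, mem_iUnion, exists_prop]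
              exact ⟨i, hi, hxi⟩
            have h6 : (x, y) ∈ ⋃ i ∈ Finset.range (n + 1), f i := by
              simp only [Finset.mem_range, mem_iUnion, exists_prop]
              exact ⟨i, by omega, hxi⟩
            rw [Set.indicator_of_mem h5, Set.indicator_of_notMem h4, Set.indicator_of_mem h6]
            norm_num
          · have h5 : (x, y) ∉ ⋃ i ∈ Finset.range n, f i := by
              simp only [Finset.mem_range, mem_iUnion, exists_prop]
              exact h
            by_cases h7 : (x, y) ∈ f n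
            · have h6 : (x, y) ∈ ⋃ i ∈ Finset.range (n + 1), f i := by
                simp only [Finset.mem_range, mem_iUnion, exists_prop]
                exact ⟨n, by omega, h7⟩
              rw [Set.indicator_of_notMem h5, Set.indicator_of_mem h7, Set.indicator_of_mem h6]
              norm_num
            · have h6 : (x, y) ∉ ⋃ i ∈ Finset.range (n + 1), f i := by
                simp only [Finset.mem_range, mem_iUnion, exists_prop]
                rintro ⟨i, hi, hxi⟩
                rcases Nat.lt_or_ge i n with h8 | h8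
                · exact h ⟨i, h8, hxi⟩
                · have : i = n := by omega
                  rw [this] at hxi
                  exact h7 hxi
              rw [Set.indicator_of_notMem h5, Set.indicator_of_notMem h7,
                Set.indicator_of_notMem h6]
              norm_num
        rw [h3] at h2
        exact h2
    have hcomp : ∀ n, IsCompactOperator (∑ i ∈ Finset.range n, S i : Lp ℝ 2 μ →L[ℝ] Lp ℝ 2 μ) := by
      intro n
      induction n with
      | zero =>
        simp only [Finset.range_zero, Finset.sum_empty]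
        exact isCompactOperator_zero
      | succ n ihn =>
        rw [Finset.sum_range_succ]
        exact ihn.add (ih n (S n) (hS n))
    refine isCompactOperator_of_tendsto (l := atTop)
      (F := fun n => (∑ i ∈ Finset.range n, S i : Lp ℝ 2 μ →L[ℝ] Lp ℝ 2 μ)) (f := T) ?_
      (Eventually.of_forall hcomp)
    rw [tendsto_iff_norm_sub_tendsto_zero]
    -- the tail
    let R : ℕ → Set (α × α) := fun n => (⋃ i, f i) \ ⋃ i ∈ Finset.range n, f i
    have hR : ∀ n, MeasurableSet (R n) := fun n => (MeasurableSet.iUnion hf).diff (hU n)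
    have hdiff : ∀ n, Rep μ (fun x y => (-1 : ℝ) * (R n).indicator (fun _ => (1 : ℝ)) (x, y))
        ((∑ i ∈ Finset.range n, S i) - T) := by
      intro n
      have h2 := rep_add (indk_meas (hU n))
        (l := fun x y => (-1 : ℝ) * (⋃ i, f i).indicator (fun _ => (1 : ℝ)) (x, y))
        ((indk_meas (MeasurableSet.iUnion hf)).const_mul _) (indk_bdd _) (D := 1) (by
          intro x y
          rw [abs_mul]
          simpa using indk_bdd (⋃ i, f i) x y) (hrep n) (rep_smul (-1) hT)
      have h3 : (fun x y => (⋃ i ∈ Finset.range n, f i).indicator (fun _ => (1 : ℝ)) (x, y) +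
          (-1 : ℝ) * (⋃ i, f i).indicator (fun _ => (1 : ℝ)) (x, y))
          = fun x y => (-1 : ℝ) * (R n).indicator (fun _ => (1 : ℝ)) (x, y) := by
        funext x y
        have hsub : (⋃ i ∈ Finset.range n, f i) ⊆ ⋃ i, f i :=
          iUnion_mono fun i => iUnion_subset fun _ => subset_rfl
        by_cases h : (x, y) ∈ ⋃ i ∈ Finset.range n, f i
        · have h4 := hsub h
          have h5 : (x, y) ∉ R n := fun h6 => h6.2 h
          rw [Set.indicator_of_mem h, Set.indicator_of_mem h4, Set.indicator_of_notMem h5]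
          norm_num
        · by_cases h4 : (x, y) ∈ ⋃ i, f i
          · have h5 : (x, y) ∈ R n := ⟨h4, h⟩
            rw [Set.indicator_of_notMem h, Set.indicator_of_mem h4, Set.indicator_of_mem h5]
            norm_num
          · have h5 : (x, y) ∉ R n := fun h6 => h4 h6.1
            rw [Set.indicator_of_notMem h, Set.indicator_of_notMem h4,
              Set.indicator_of_notMem h5]
            norm_num
      rw [h3] at h2
      have h4 : (∑ i ∈ Finset.range n, S i) - T = (∑ i ∈ Finset.range n, S i) + (-1 : ℝ) • T := by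
        rw [neg_one_smul, sub_eq_add_neg]
      rw [h4]
      exact h2
    have hb : ∀ n, ‖(∑ i ∈ Finset.range n, S i) - T‖ ≤ Real.sqrt ((μ.prod μ).real (R n)) := by
      intro n
      refine norm_le_of_rep ((indk_meas (hR n)).const_mul _) (C := 1) ?_ (hdiff n)
        (Real.sqrt_nonneg _) ?_
      · intro x y
        rw [abs_mul]
        simpa using indk_bdd (R n) x y
      · rw [Real.sq_sqrt measureReal_nonneg, ← indk_sq (R n) (hR n)]
        simp
    have hlim : Tendsto (fun n => (μ.prod μ).real (R n)) atTop (𝓝 0) := by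
      have h1 : Tendsto (fun n => (μ.prod μ) (R n)) atTop (𝓝 ((μ.prod μ) (⋂ n, R n))) := by
        refine tendsto_measure_iInter_atTop (fun n => (hR n).nullMeasurableSet) ?_ ⟨0, by finiteness⟩
        intro m n hmn
        refine sdiff_subset_sdiff_right ?_
        refine biUnion_subset_biUnion_left ?_
        intro i hi
        have h5 : i < m := by simpa using hi
        have h6 : i < n := by omega
        simpa using h6
      have h2 : (⋂ n, R n) = ∅ := by
        ext p
        simp only [mem_iInter, mem_empty_iff_false, iff_false, not_forall]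
        by_cases hp : p ∈ ⋃ i, f i
        · obtain ⟨i, hi⟩ := mem_iUnion.1 hp
          refine ⟨i + 1, fun h3 => h3.2 ?_⟩
          simp only [Finset.mem_range, mem_iUnion, exists_prop]
          exact ⟨i, by omega, hi⟩
        · exact ⟨0, fun h3 => hp h3.1⟩
      rw [h2, measure_empty] at h1
      have h3 := (ENNReal.tendsto_toReal (by simp : (0 : ℝ≥0∞) ≠ ⊤)).comp h1
      simpa [Measure.real, Function.comp_def] using h3
    refine squeeze_zero (fun n => norm_nonneg _) hb ?_
    have := (Real.continuous_sqrt.tendsto 0).comp hlim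
    simpa [Function.comp_def] using this

end Pool.Agent.Y313.RM
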