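import Pool.Agent.Y313.RM.KerC

set_option autoImplicit false
set_option linter.unusedSectionVars false

/-!
# Bounded symmetric kernels: compactness and eigenfunctions, part 2
-/

open MeasureTheory Set Filter Topology
open scoped ENNReal NNReal

namespace Pool.Agent.Y313.RM

open Pool.Agent.TH268.NP.Ker (Rep exists_op)

variable {α : Type*} [MeasurableSpace α] {μ : Measure α} [IsProbabilityMeasure μ]

theorem sf_meas (s : SimpleFunc (α × α) ℝ) : Measurable (Function.uncurry fun x y => s (x, y)) :=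
  s.measurable

theorem sf_bdd (s : SimpleFunc (α × α) ℝ) : ∃ C, ∀ x y, |s (x, y)| ≤ C := by
  obtain ⟨C, hC⟩ := s.exists_forall_norm_le
  exact ⟨C, fun x y => hC (x, y)⟩

theorem compact_simple (s : SimpleFunc (α × α) ℝ) : ∀ T : Lp ℝ 2 μ →L[ℝ] Lp ℝ 2 μ,
    Rep μ (fun x y => s (x, y)) T → IsCompactOperator T := by
  induction s using SimpleFunc.induction with
  | @const c S hS =>
    intro T hT
    obtain ⟨T1, hT1⟩ := exists_rep (μ := μ)
      (fun x y => S.indicator (fun _ => (1 : ℝ)) (x, y)) (indk_meas hS) 1 (indk_bdd _)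
    have h1 : T = c • T1 := by
      refine rep_unique hT ?_
      have h2 := rep_smul c hT1
      have h3 : (fun x y => c * S.indicator (fun _ => (1 : ℝ)) (x, y)) =
          fun x y => (SimpleFunc.piecewise S hS (SimpleFunc.const (α × α) c)
            (SimpleFunc.const (α × α) 0)) (x, y) := by
        funext x y
        by_cases h : (x, y) ∈ S <;> simp [h]
      rw [h3] at h2
      exact h2
    rw [h1]
    exact (compact_ind S hS T1 hT1).smul c
  | @add f g _ hf hg =>
    intro T hT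
    obtain ⟨C, hC⟩ := sf_bdd f
    obtain ⟨D, hD⟩ := sf_bdd g
    obtain ⟨T1, hT1⟩ := exists_rep (μ := μ) _ (sf_meas f) C hC
    obtain ⟨T2, hT2⟩ := exists_rep (μ := μ) _ (sf_meas g) D hD
    have h1 : T = T1 + T2 := by
      refine rep_unique hT ?_
      exact rep_add (sf_meas f) (sf_meas g) hC hD hT1 hT2
    rw [h1]
    exact (hf T1 hT1).add (hg T2 hT2)

theorem compact_bdd (k : α → α → ℝ) (hk : Measurable (Function.uncurry k)) (C : ℝ)
    (hC : ∀ x y, |k x y| ≤ C) (T : Lp ℝ 2 μ →L[ℝ] Lp ℝ 2 μ) (hT : Rep μ k T) :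
    IsCompactOperator T := by
  have hkL : MemLp (Function.uncurry k) 2 (μ.prod μ) :=
    memLp_of_bdd (μ := μ.prod μ) hk (C := C) (fun p => hC p.1 p.2)
  have hex : ∀ n : ℕ, ∃ S : Lp ℝ 2 μ →L[ℝ] Lp ℝ 2 μ, IsCompactOperator S ∧
      ‖S - T‖ ≤ 1 / ((n : ℝ) + 1) := by
    intro n
    have hε : (0 : ℝ) < 1 / ((n : ℝ) + 1) := by positivity
    obtain ⟨s, hs1, hs2⟩ := hkL.exists_simpleFunc_eLpNorm_sub_lt (by norm_num)
      (ε := ENNReal.ofReal (1 / ((n : ℝ) + 1))) (by
        simpa using hε)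
    obtain ⟨D, hD⟩ := sf_bdd s
    obtain ⟨S, hS⟩ := exists_rep (μ := μ) _ (sf_meas s) D hD
    refine ⟨S, compact_simple s S hS, ?_⟩
    have h1 : Rep μ (fun x y => s (x, y) + (-1) * k x y) (S - T) := by
      rw [sub_eq_add_neg, ← neg_one_smul ℝ T]
      exact rep_add (sf_meas s) (l := fun x y => (-1) * k x y) (hk.const_mul _) hD (D := C)
        (by intro x y; rw [abs_mul]; simpa using hC x y) hS (rep_smul (-1) hT)
    have hm : Measurable (Function.uncurry fun x y => s (x, y) + (-1) * k x y) :=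
      (sf_meas s).add (hk.const_mul _)
    have hb : ∀ x y, |s (x, y) + (-1) * k x y| ≤ D + C := by
      intro x y
      calc |s (x, y) + (-1) * k x y| ≤ |s (x, y)| + |(-1) * k x y| := abs_add_le _ _
        _ ≤ D + C := by
          have := hD x y
          have h2 := hC x y
          rw [abs_mul, abs_neg, abs_one, one_mul]
          linarith
    refine norm_le_of_rep hm hb h1 hε.le ?_
    have hL : MemLp (Function.uncurry k - ⇑s) 2 (μ.prod μ) := hkL.sub hs2
    have h3 : (∫ x, ∫ y, (s (x, y) + (-1) * k x y) ^ 2 ∂μ ∂μ)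
        = ‖hL.toLp _‖ ^ 2 := by
      rw [norm_sq_lp]
      have h4 : Integrable (fun p : α × α => (s p + (-1) * k p.1 p.2) ^ 2) (μ.prod μ) := by
        refine (memLp_of_bdd (μ := μ.prod μ) (hm.pow_const 2) (C := (D + C) ^ 2) ?_
          (p := 1)).integrable le_rfl
        intro p
        show |(s (p.1, p.2) + (-1) * k p.1 p.2) ^ 2| ≤ _
        rw [abs_pow]
        exact pow_le_pow_left₀ (abs_nonneg _) (hb p.1 p.2) 2
      rw [integral_integral (f := fun x y => (s (x, y) + (-1) * k x y) ^ 2) h4]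
      refine integral_congr_ae ?_
      filter_upwards [hL.coeFn_toLp] with p hp
      rw [hp]
      simp only [Pi.sub_apply, Function.uncurry]
      ring
    rw [h3]
    refine pow_le_pow_left₀ (norm_nonneg _) ?_ 2
    rw [Lp.norm_toLp]
    have h5 := ENNReal.toReal_mono (by simp) hs1.le
    rwa [ENNReal.toReal_ofReal hε.le] at h5
  choose S hS1 hS2 using hex
  refine isCompactOperator_of_tendsto (l := atTop) (F := S) (f := T) ?_
    (Eventually.of_forall hS1)
  rw [tendsto_iff_norm_sub_tendsto_zero]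
  exact squeeze_zero (fun n => norm_nonneg _) hS2 tendsto_one_div_add_atTop_nhds_zero_nat

theorem sym_of_rep (k : α → α → ℝ) (hk : Measurable (Function.uncurry k)) (C : ℝ)
    (hC : ∀ x y, |k x y| ≤ C) (hsym : ∀ x y, k x y = k y x) (T : Lp ℝ 2 μ →L[ℝ] Lp ℝ 2 μ)
    (hT : Rep μ k T) : (T : Lp ℝ 2 μ →ₗ[ℝ] Lp ℝ 2 μ).IsSymmetric := by
  intro φ ψ
  have hrow : ∀ x, Measurable (k x) := fun x => hk.comp (measurable_const.prodMk measurable_id)
  have hφ : Measurable (φ : α → ℝ) := (Lp.stronglyMeasurable φ).measurable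
  have hψ : Measurable (ψ : α → ℝ) := (Lp.stronglyMeasurable ψ).measurable
  show inner ℝ (T φ) ψ = inner ℝ φ (T ψ)
  rw [inner_lp, inner_lp]
  have e1 : ∫ x, T φ x * ψ x ∂μ = ∫ x, ∫ y, k x y * φ y * ψ x ∂μ ∂μ := by
    refine integral_congr_ae ?_
    filter_upwards [hT φ] with x hx
    rw [hx, integral_mul_const]
  have e2 : ∫ x, φ x * T ψ x ∂μ = ∫ x, ∫ y, k y x * ψ y * φ x ∂μ ∂μ := by
    refine integral_congr_ae ?_
    filter_upwards [hT ψ] with x hx
    rw [hx, ← integral_const_mul]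
    refine integral_congr_ae (Eventually.of_forall fun y => ?_)
    simp only
    rw [hsym x y]
    ring
  rw [e1, e2, integral_integral_swap]
  · refine integral_congr_ae (Eventually.of_forall fun y => ?_)
    refine integral_congr_ae (Eventually.of_forall fun x => ?_)
    simp only
    ring
  · have h1 : Integrable (fun p : α × α => ψ p.1 * φ p.2) (μ.prod μ) :=
      ((Lp.memLp ψ).integrable one_le_two).mul_prod ((Lp.memLp φ).integrable one_le_two)
    have h2 : Integrable (fun p : α × α => k p.1 p.2 * (ψ p.1 * φ p.2)) (μ.prod μ) :=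
      h1.bdd_mul (c := C) hk.aestronglyMeasurable
        (Eventually.of_forall fun p => by simpa using hC p.1 p.2)
    refine h2.congr (Eventually.of_forall fun p => ?_)
    simp only [Function.uncurry]
    ring

/-- A bounded symmetric kernel which is not zero has a nonzero eigenvalue with a finite
orthonormal basis of eigenfunctions. -/
theorem exists_eigen (k : α → α → ℝ) (hk : Measurable (Function.uncurry k)) (C : ℝ)
    (hC : ∀ x y, |k x y| ≤ C) (hsym : ∀ x y, k x y = k y x)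
    (hne : ∃ B : Set α, MeasurableSet B ∧ ∫ x in B, ∫ y in B, k x y ∂μ ∂μ ≠ 0) :
    ∃ (s : ℝ) (d : ℕ) (e : Fin d → α → ℝ), s ≠ 0 ∧ 0 < d ∧ (∀ j, Measurable (e j)) ∧
      (∀ j, MemLp (e j) 2 μ) ∧ (∀ i j, ∫ x, e i x * e j x ∂μ = if i = j then 1 else 0) ∧
      (∀ j, ∀ᵐ x ∂μ, ∫ y, k x y * e j y ∂μ = s * e j x) ∧
      (∀ φ : α → ℝ, MemLp φ 2 μ → (∀ᵐ x ∂μ, ∫ y, k x y * φ y ∂μ = s * φ x) →
        ∃ c : Fin d → ℝ, ∀ᵐ x ∂μ, φ x = ∑ j, c j * e j x) := by
  obtain ⟨T, hT⟩ := exists_rep (μ := μ) k hk C hC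
  have hcomp := compact_bdd k hk C hC T hT
  have hsymm := sym_of_rep k hk C hC hsym T hT
  have hT0 : T ≠ 0 := by
    intro h0
    obtain ⟨B, hB, hB2⟩ := hne
    apply hB2
    let b : Lp ℝ 2 μ := indicatorConstLp 2 hB (measure_ne_top μ B) (1 : ℝ)
    have hb : (b : α → ℝ) =ᵐ[μ] B.indicator fun _ => (1 : ℝ) := indicatorConstLp_coeFn
    have h1 : ∀ᵐ x ∂μ, ∫ y in B, k x y ∂μ = 0 := by
      filter_upwards [hT b, Lp.coeFn_zero ℝ 2 μ] with x hx h2
      rw [h0, zero_apply, h2] at hx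
      rw [← integral_indicator hB]
      have h3 : ∫ y, k x y * b y ∂μ = ∫ y, B.indicator (fun y => k x y) y ∂μ := by
        refine integral_congr_ae ?_
        filter_upwards [hb] with y hy
        rw [hy]
        by_cases h : y ∈ B <;> simp [h]
      rw [← h3, ← hx]
      rfl
    rw [setIntegral_congr_ae hB (g := fun _ => (0 : ℝ))
      (h1.mono fun x hx _ => hx)]
    simp
  have hex : ∃ s : ℝ, Module.End.HasEigenvalue (T : Module.End ℝ (Lp ℝ 2 μ)) s ∧ s ≠ 0 := by
    by_contra hcon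
    push Not at hcon
    exact hT0 ((ContinuousLinearMap.eq_zero_of_forall_hasEigenvalue_eq_zero hcomp hsymm).1 hcon)
  obtain ⟨s, hs1, hs2⟩ := hex
  have hfin : FiniteDimensional ℝ (Module.End.eigenspace (T : Module.End ℝ (Lp ℝ 2 μ)) s) :=
    ContinuousLinearMap.finite_dimensional_eigenspace hcomp s hs2
  set E := Module.End.eigenspace (T : Module.End ℝ (Lp ℝ 2 μ)) s with hE
  let b := stdOrthonormalBasis ℝ E
  have hmem : ∀ φ : Lp ℝ 2 μ, φ ∈ E ↔ ∀ᵐ x ∂μ, ∫ y, k x y * φ y ∂μ = s * φ x := by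
    intro φ
    rw [hE, Module.End.mem_eigenspace_iff]
    constructor
    · intro h
      have h' : T φ = s • φ := h
      filter_upwards [hT φ, Lp.coeFn_smul s φ] with x h1 h2
      rw [← h1, h', h2]
      rfl
    · intro h
      show T φ = s • φ
      apply Lp.ext
      filter_upwards [hT φ, Lp.coeFn_smul s φ, h] with x h1 h2 h3
      rw [h1, h2, h3]
      rfl
  refine ⟨s, Module.finrank ℝ E, fun j => ((b j : E) : Lp ℝ 2 μ), hs2, ?_, ?_, ?_, ?_, ?_, ?_⟩
  · have h1 : E ≠ ⊥ := hs1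
    exact Module.finrank_pos_iff.2 (Submodule.nontrivial_iff_ne_bot.2 h1)
  · intro j
    exact (Lp.stronglyMeasurable _).measurable
  · intro j
    exact Lp.memLp _
  · intro i j
    have h1 := (orthonormal_iff_ite.1 b.orthonormal) i j
    have h2 : inner ℝ (b i) (b j) = inner ℝ ((b i : E) : Lp ℝ 2 μ) ((b j : E) : Lp ℝ 2 μ) := rfl
    rw [h2, inner_lp] at h1
    exact h1
  · intro j
    exact (hmem _).1 (b j).2
  · intro φ hφ h
    have h1 : hφ.toLp φ ∈ E := by
      rw [hmem]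
      have h2 : ∀ x, ∫ y, k x y * (hφ.toLp φ) y ∂μ = ∫ y, k x y * φ y ∂μ := by
        intro x
        refine integral_congr_ae ?_
        filter_upwards [hφ.coeFn_toLp] with y hy
        rw [hy]
      filter_upwards [h, hφ.coeFn_toLp] with x h3 h4
      rw [h2, h3, h4]
    refine ⟨fun j => b.repr ⟨_, h1⟩ j, ?_⟩
    have h3 := congrArg (fun v : E => (v : Lp ℝ 2 μ)) (b.sum_repr ⟨_, h1⟩)
    simp only [Submodule.coe_sum, Submodule.coe_smul] at h3
    have h4 : ∀ S : Finset (Fin (Module.finrank ℝ E)),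
        ∀ᵐ x ∂μ, (∑ j ∈ S, (b.repr ⟨_, h1⟩) j • ((b j : E) : Lp ℝ 2 μ) : Lp ℝ 2 μ) x
          = ∑ j ∈ S, (b.repr ⟨_, h1⟩) j * ((b j : E) : Lp ℝ 2 μ) x := by
      classical
      intro S
      induction S using Finset.induction_on with
      | empty =>
        filter_upwards [Lp.coeFn_zero ℝ 2 μ] with x hx
        simp only [Finset.sum_empty]
        rw [hx]
        rfl
      | insert j S hj ih =>
        simp only [Finset.sum_insert hj]
        filter_upwards [ih, Lp.coeFn_add ((b.repr ⟨_, h1⟩) j • ((b j : E) : Lp ℝ 2 μ))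
          (∑ j ∈ S, (b.repr ⟨_, h1⟩) j • ((b j : E) : Lp ℝ 2 μ)),
          Lp.coeFn_smul ((b.repr ⟨_, h1⟩) j) ((b j : E) : Lp ℝ 2 μ)] with x a1 a2 a3
        rw [a2, Pi.add_apply, a1, a3]
        rfl
    filter_upwards [h4 Finset.univ, hφ.coeFn_toLp] with x h5 h6
    rw [← h5, h3, h6]

end Pool.Agent.Y313.RM
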