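import Mathlib

set_option autoImplicit false

/-!
# Common eigenvectors of commuting matrices
-/

namespace Pool.Agent.Y313.RM

theorem exists_common {V : Type*} [AddCommGroup V] [Module ℂ V] [FiniteDimensional ℂ V]
    [Nontrivial V] (S : Set (Module.End ℂ V)) (hS : ∀ A ∈ S, ∀ B ∈ S, A * B = B * A) :
    ∃ v : V, v ≠ 0 ∧ ∀ A ∈ S, ∃ c : ℂ, A v = c • v := by
  classical
  have hex : ∃ n : ℕ, ∃ W : Submodule ℂ V, W ≠ ⊥ ∧ (∀ A ∈ S, ∀ v ∈ W, A v ∈ W) ∧
      Module.finrank ℂ W = n :=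
    ⟨_, ⊤, top_ne_bot, fun A _ v _ => Submodule.mem_top, rfl⟩
  obtain ⟨W, hW1, hW2, hW3⟩ := Nat.find_spec hex
  have hmin := fun m => Nat.find_min hex (m := m)
  obtain ⟨v, hvW, hv0⟩ := (Submodule.ne_bot_iff W).1 hW1
  have hnt : Nontrivial W := (Submodule.nontrivial_iff_ne_bot).2 hW1
  refine ⟨v, hv0, fun A hA => ?_⟩
  obtain ⟨c, hc⟩ := Module.End.exists_eigenvalue (LinearMap.restrict A (hW2 A hA))
  obtain ⟨w, hw⟩ := hc.exists_hasEigenvector
  have hw1 : A (w : V) = c • (w : V) := by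
    have h1 := hw.apply_eq_smul
    have h2 := congrArg (fun z : W => (z : V)) h1
    simpa [LinearMap.restrict_apply] using h2
  have hw0 : (w : V) ≠ 0 := by
    intro h
    exact hw.2 (by ext; simpa using h)
  let W' : Submodule ℂ V := W ⊓ LinearMap.ker (A - c • (1 : Module.End ℂ V))
  have hmem : ∀ z : V, z ∈ W' ↔ z ∈ W ∧ A z = c • z := by
    intro z
    simp only [W', Submodule.mem_inf, LinearMap.mem_ker, LinearMap.sub_apply,
      LinearMap.smul_apply, Module.End.one_apply, sub_eq_zero]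
  have hW'1 : W' ≠ ⊥ := by
    rw [Submodule.ne_bot_iff]
    exact ⟨w, (hmem _).2 ⟨w.2, hw1⟩, hw0⟩
  have hW'2 : ∀ B ∈ S, ∀ z ∈ W', B z ∈ W' := by
    intro B hB z hz
    rw [hmem] at hz ⊢
    refine ⟨hW2 B hB z hz.1, ?_⟩
    have h3 : A (B z) = B (A z) := by
      have := LinearMap.congr_fun (hS A hA B hB) z
      simpa using this
    rw [h3, hz.2, map_smul]
  have hle : W' ≤ W := inf_le_left
  have h4 : ¬ Module.finrank ℂ W' < Nat.find hex := by
    intro hlt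
    exact hmin _ hlt ⟨W', hW'1, hW'2, rfl⟩
  have h5 : W' = W := Submodule.eq_of_le_of_finrank_le hle (by rw [hW3]; omega)
  refine ⟨c, ?_⟩
  have h6 : v ∈ W' := by rw [h5]; exact hvW
  exact ((hmem v).1 h6).2

theorem exists_row_eigen {d : ℕ} (hd : 0 < d) (S : Set (Matrix (Fin d) (Fin d) ℝ))
    (hS : ∀ A ∈ S, ∀ B ∈ S, A * B = B * A) :
    ∃ r : Fin d → ℂ, r ≠ 0 ∧ ∀ A ∈ S, ∃ c : ℂ, ∀ j, ∑ i, r i * (A i j : ℂ) = c * r j := by
  have hne : Nonempty (Fin d) := ⟨⟨0, hd⟩⟩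
  let Φ : Matrix (Fin d) (Fin d) ℝ → Module.End ℂ (Fin d → ℂ) := fun A =>
    Matrix.mulVecLin ((A.map (algebraMap ℝ ℂ)).transpose)
  have hΦ : ∀ A B : Matrix (Fin d) (Fin d) ℝ, Φ A * Φ B = Φ (B * A) := by
    intro A B
    simp only [Φ]
    rw [Matrix.map_mul, Matrix.transpose_mul, Matrix.mulVecLin_mul]
    rfl
  obtain ⟨r, hr0, hr⟩ := exists_common (Φ '' S) (by
    rintro _ ⟨A, hA, rfl⟩ _ ⟨B, hB, rfl⟩
    rw [hΦ, hΦ, hS A hA B hB])
  refine ⟨r, hr0, fun A hA => ?_⟩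
  obtain ⟨c, hc⟩ := hr (Φ A) ⟨A, hA, rfl⟩
  refine ⟨c, fun j => ?_⟩
  have h1 := congrFun hc j
  simp only [Φ, Matrix.mulVecLin_apply, Matrix.mulVec, dotProduct, Matrix.transpose_apply,
    Matrix.map_apply, Pi.smul_apply, smul_eq_mul] at h1
  rw [← h1]
  refine Finset.sum_congr rfl fun i _ => ?_
  rw [mul_comm]
  rfl

theorem norm_one_of_orth {d : ℕ} {A : Matrix (Fin d) (Fin d) ℝ} (hA : A * A.transpose = 1)
    {r : Fin d → ℂ} (hr : r ≠ 0) {c : ℂ} (h : ∀ j, ∑ i, r i * (A i j : ℂ) = c * r j) :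
    ‖c‖ = 1 := by
  have h1 : ∀ i i', ∑ j, (A i j : ℂ) * (A i' j : ℂ) = if i = i' then 1 else 0 := by
    intro i i'
    have h2 := congrFun (congrFun hA i) i'
    rw [Matrix.mul_apply, Matrix.one_apply] at h2
    simp only [Matrix.transpose_apply] at h2
    have h3 := congrArg (fun t : ℝ => (t : ℂ)) h2
    push_cast at h3
    rw [h3]
    split_ifs <;> simp
  have h2 : ∑ j, (∑ i, r i * (A i j : ℂ)) * (starRingEnd ℂ) (∑ i, r i * (A i j : ℂ))
      = ∑ i, r i * (starRingEnd ℂ) (r i) := by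
    have h3 : ∀ j, (∑ i, r i * (A i j : ℂ)) * (starRingEnd ℂ) (∑ i, r i * (A i j : ℂ))
        = ∑ i, ∑ i', r i * (starRingEnd ℂ) (r i') * ((A i j : ℂ) * (A i' j : ℂ)) := by
      intro j
      rw [map_sum, Finset.sum_mul_sum]
      refine Finset.sum_congr rfl fun i _ => Finset.sum_congr rfl fun i' _ => ?_
      rw [map_mul, Complex.conj_ofReal]
      ring
    simp only [h3]
    rw [Finset.sum_comm]
    refine Finset.sum_congr rfl fun i _ => ?_
    rw [Finset.sum_comm]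
    have h4 : ∀ i', ∑ j, r i * (starRingEnd ℂ) (r i') * ((A i j : ℂ) * (A i' j : ℂ))
        = if i = i' then r i * (starRingEnd ℂ) (r i') else 0 := by
      intro i'
      rw [← Finset.mul_sum, h1]
      split_ifs <;> simp
    simp only [h4]
    simp
  have h3 : ∑ j, (c * r j) * (starRingEnd ℂ) (c * r j) = ∑ i, r i * (starRingEnd ℂ) (r i) := by
    rw [← h2]
    exact Finset.sum_congr rfl fun j _ => by rw [h j]
  have h4 : ∀ z : ℂ, z * (starRingEnd ℂ) z = ((‖z‖ ^ 2 : ℝ) : ℂ) := by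
    intro z
    rw [Complex.mul_conj, Complex.normSq_eq_norm_sq]
  simp only [h4] at h3
  rw [← Complex.ofReal_sum, ← Complex.ofReal_sum] at h3
  have h5 := Complex.ofReal_injective h3
  simp only [norm_mul, mul_pow] at h5
  rw [← Finset.mul_sum] at h5
  have h6 : 0 < ∑ i, ‖r i‖ ^ 2 := by
    obtain ⟨i, hi⟩ := Function.ne_iff.1 hr
    refine Finset.sum_pos' (fun j _ => by positivity) ⟨i, Finset.mem_univ _, ?_⟩
    have : r i ≠ 0 := hi
    positivity
  have h7 : ‖c‖ ^ 2 = 1 := by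
    have := mul_right_cancel₀ h6.ne' (h5.trans (one_mul _).symm)
    exact this
  have h8 := norm_nonneg c
  nlinarith

/-- the algebraic core: `N y' y'' = A₁ A₂ᵀ` -/
theorem alg_core {d : ℕ} {a b c e : Matrix (Fin d) (Fin d) ℝ} (ha : a.transpose * a = 1)
    (hbc : b * c.transpose = e)
    (hcomm : ∀ U : Matrix (Fin d) (Fin d) ℝ, U = (a * b) * (a * c).transpose → U * a = a * U) :
    e = (a * b) * (a * c).transpose := by
  have h1 := hcomm _ rfl
  have h2 : (a * b) * (a * c).transpose = a * e * a.transpose := by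
    rw [Matrix.transpose_mul, ← hbc]
    simp only [Matrix.mul_assoc]
  rw [h2] at h1 ⊢
  have h3 : a * e * a.transpose * a = a * e := by
    rw [Matrix.mul_assoc (a * e), ha, Matrix.mul_one]
  rw [h3] at h1
  have h4 : a.transpose * (a * e) = a.transpose * (a * (a * e * a.transpose)) :=
    congrArg (fun z => a.transpose * z) h1
  rw [← Matrix.mul_assoc, ha, Matrix.one_mul, ← Matrix.mul_assoc, ha, Matrix.one_mul] at h4
  exact h4

end Pool.Agent.Y313.RM
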