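import Pool.Agent.Y313.RM.Split

set_option autoImplicit false
set_option linter.unusedSectionVars false

/-!
# The closure relation splits characters
-/

open MeasureTheory Set Filter Topology ProbabilityTheory
open scoped ENNReal NNReal

namespace Pool.Agent.Y313.RM

section
variable {X : Type*} [MeasurableSpace X]

/-- insert a column of the graph -/
def colIns {k : ℕ} (p : Fin (k + 2)) (F : (Fin (k + 1) → X) → X) (a l : Fin (k + 1))
    (q : X × ((Fin k → X) × (Fin k → Fin (k + 2) → X))) : Fin (k + 1) → Fin (k + 2) → X :=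
  l.insertNth (α := fun _ => Fin (k + 2) → X)
    (p.insertNth (α := fun _ => X) (F (a.insertNth (α := fun _ => X) q.1 q.2.1))
      (a.insertNth (α := fun _ => X) q.1 q.2.1)) q.2.2

theorem row_same {k : ℕ} (p : Fin (k + 2)) (F : (Fin (k + 1) → X) → X) (a l : Fin (k + 1))
    (q : X × ((Fin k → X) × (Fin k → Fin (k + 2) → X))) :
    (fun l' => colIns p F a l q l' (p.succAbove a))
      = l.insertNth (α := fun _ => X) q.1 (fun l' => q.2.2 l' (p.succAbove a)) := by
  ext l'
  unfold colIns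
  refine Fin.succAboveCases l ?_ (fun j => ?_) l'
  · simp
  · simp

theorem row_other {k : ℕ} (p : Fin (k + 2)) (F : (Fin (k + 1) → X) → X) (a l : Fin (k + 1))
    (a' : Fin k) (q : X × ((Fin k → X) × (Fin k → Fin (k + 2) → X))) :
    (fun l' => colIns p F a l q l' (p.succAbove (a.succAbove a')))
      = l.insertNth (α := fun _ => X) (q.2.1 a')
        (fun l' => q.2.2 l' (p.succAbove (a.succAbove a'))) := by
  ext l'
  unfold colIns
  refine Fin.succAboveCases l ?_ (fun j => ?_) l'
  · simp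
  · simp

theorem row_out {k : ℕ} (p : Fin (k + 2)) (F : (Fin (k + 1) → X) → X) (a l : Fin (k + 1))
    (q : X × ((Fin k → X) × (Fin k → Fin (k + 2) → X))) :
    (fun l' => colIns p F a l q l' p)
      = l.insertNth (α := fun _ => X) (F (a.insertNth (α := fun _ => X) q.1 q.2.1))
        (fun l' => q.2.2 l' p) := by
  ext l'
  unfold colIns
  refine Fin.succAboveCases l ?_ (fun j => ?_) l'
  · simp
  · simp

theorem ins_meas {k : ℕ} (l : Fin (k + 1)) :
    Measurable (fun q : X × (Fin k → X) => l.insertNth (α := fun _ => X) q.1 q.2) :=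
  (MeasurableEquiv.piFinSuccAbove (fun _ => X) l).symm.measurable

variable [MeasurableEq X]

theorem colIns_mp {μ : Measure X} [IsProbabilityMeasure μ] {T : X → X} {k : ℕ}
    {p : Fin (k + 2)} {F : (Fin (k + 1) → X) → X} (hF : Measurable F)
    {γ : Measure (Fin (k + 2) → X)} (hγ : OnGr μ T p F γ)
    {Γ : Fin (k + 1) → Measure (Fin (k + 2) → X)} [∀ l, IsProbabilityMeasure (Γ l)]
    (a l : Fin (k + 1)) (hl : Γ l = γ) :
    MeasurePreserving (colIns p F a l)
      (μ.prod ((Measure.pi fun _ : Fin k => μ).prod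
        (Measure.pi fun j : Fin k => Γ (l.succAbove j)))) (Measure.pi Γ) := by
  have pγ := hγ.prob
  have a0 := mp_insert Γ l
  rw [hl] at a0
  have a1 := a0.comp (((hγ.iota hF).comp (mp_cons μ k a)).prod
    (MeasurePreserving.id (Measure.pi fun j : Fin k => Γ (l.succAbove j))))
  exact a1.comp (measurePreserving_prodAssoc μ (Measure.pi fun _ : Fin k => μ)
    (Measure.pi fun j : Fin k => Γ (l.succAbove j))).symm

/-- transfer of a splitting from `X × X^k` to `X^(k+1)` -/
theorem spl_of {μ : Measure X} [IsProbabilityMeasure μ] {k : ℕ} {l : Fin (k + 1)}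
    {H : (Fin (k + 1) → X) → ℂ}
    (h : ∃ (θ : X → ℂ) (Ξ : (Fin k → X) → ℂ), Measurable θ ∧ Measurable Ξ ∧
      (∀ x, ‖θ x‖ = 1) ∧ (∀ y, ‖Ξ y‖ = 1) ∧ ∀ᵐ q ∂(μ.prod (Measure.pi fun _ : Fin k => μ)),
        H (l.insertNth (α := fun _ => X) q.1 q.2) = θ q.1 * Ξ q.2) : Spl μ l H := by
  obtain ⟨θ, Ξ, a1, a2, a3, a4, a5⟩ := h
  refine ⟨θ, Ξ, a1, a2, a3, a4, ?_⟩
  have h1 := mp_ae (measurePreserving_piFinSuccAbove (α := fun _ => X)
    (fun _ : Fin (k + 1) => μ) l) a5
  filter_upwards [h1] with v hv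
  have e1 : l.insertNth (α := fun _ => X) (v l) (l.removeNth v) = v :=
    Fin.insertNth_self_removeNth l v
  have hv' : H (l.insertNth (α := fun _ => X) (v l) (l.removeNth v))
    = θ (v l) * Ξ (l.removeNth v) := hv
  rw [e1] at hv'
  exact hv'

/-- The factors of a function in `KK` are in `KK`. -/
theorem KK_factor {μ : Measure X} [IsProbabilityMeasure μ] {T : X → X} {k : ℕ}
    {p : Fin (k + 2)} {F : (Fin (k + 1) → X) → X} (hF : Measurable F)
    {γ : Measure (Fin (k + 2) → X)} (hγ : OnGr μ T p F γ)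
    {Γ : Fin (k + 1) → Measure (Fin (k + 2) → X)} [∀ l, IsProbabilityMeasure (Γ l)]
    (hΓ : ∀ l, Good μ (Γ l)) {j1 : Fin (k + 1)} (hΓl : ∀ l, l ≠ j1 → Γ l = γ)
    (hcl : ∀ᵐ C ∂(Measure.pi Γ), C ∈ Cl p F)
    {f : X → ℂ} {u : Fin (k + 1) → X → ℂ} (mu : ∀ l, Measurable (u l))
    (uu : ∀ l x, ‖u l x‖ = 1)
    (hfu : ∀ᵐ v ∂(Measure.pi fun _ : Fin (k + 1) => μ), f (F v) = ∏ l, u l (v l))
    (a : Fin (k + 1)) : KK μ F (u a) := by
  have hFmp := hγ.mpF hF
  have hstar : ∀ᵐ C ∂(Measure.pi Γ),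
      ∏ a', u a' (F fun l' => C l' (p.succAbove a')) = ∏ l', u l' (C l' p) := by
    filter_upwards [hcl, mp_ae (rows_mp hΓ p) hfu, mp_ae (outs_mp hFmp hΓ p) hfu] with C h1 h2 h3
    have h1' : F (fun l => C l p) = F (fun j => F fun l => C l (p.succAbove j)) := h1
    rw [← h2, ← h3, h1']
  refine ⟨mu a, uu a, hybrid j1 ((mu a).comp hF) (fun v => uu a _) fun l hl => ?_⟩
  refine spl_of ?_
  have mp1 := colIns_mp hF hγ (Γ := Γ) a l (hΓl l hl)
  have pull := mp_ae mp1 hstar
  let R : ((Fin k → X) × (Fin k → Fin (k + 2) → X)) → ℂ := fun w =>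
    (∏ a' : Fin k, u (a.succAbove a') (F (l.insertNth (α := fun _ => X) (w.1 a')
      (fun l' => w.2 l' (p.succAbove (a.succAbove a')))))) *
    (starRingEnd ℂ) (∏ l' : Fin k, u (l.succAbove l') (w.2 l' p))
  refine split_lemma (m := (Measure.pi fun _ : Fin k => μ).prod
    (Measure.pi fun j : Fin k => Γ (l.succAbove j)))
    (α := fun w => fun l' => w.2 l' (p.succAbove a)) (β := fun w => w.1)
    (b := Measure.pi fun _ : Fin k => μ)
    (U := fun q => u a (F (l.insertNth (α := fun _ => X) q.1 q.2)))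
    (S := fun q => u l (F (a.insertNth (α := fun _ => X) q.1 q.2))) (R := R)
    ?_ ((mu a).comp (hF.comp (ins_meas l))) ((mu l).comp (hF.comp (ins_meas a)))
    (fun q => uu a _) (fun q => uu l _) ?_ ?_
  · exact (Measure.measurePreserving_swap).comp
      ((MeasurePreserving.id (Measure.pi fun _ : Fin k => μ)).prod
        (rows_mp (fun j => hΓ (l.succAbove j)) (p.succAbove a)))
  · intro w
    simp only [R]
    rw [norm_mul, RCLike.norm_conj, norm_prod_one _ _ fun i => uu _ _,
      norm_prod_one _ _ fun i => uu _ _, one_mul]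
  · filter_upwards [pull] with q hq
    rw [Fin.prod_univ_succAbove _ a, Fin.prod_univ_succAbove _ l] at hq
    rw [row_same] at hq
    simp only [row_other] at hq
    have e1 : colIns p F a l q l p = F (a.insertNth (α := fun _ => X) q.1 q.2.1) := by
      have := congrFun (row_out p F a l q) l
      simpa using this
    have e2 : ∀ l', colIns p F a l q (l.succAbove l') p = q.2.2 l' p := by
      intro l'
      have := congrFun (row_out p F a l q) (l.succAbove l')
      simpa using this
    simp only [e1, e2] at hq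
    simp only [R]
    rw [← mul_assoc, hq, mul_assoc, unit_mul_conj (norm_prod_one _ _ fun i => uu _ _), mul_one]

/-- The first factor of the static theorem is in `KK`. -/
theorem KK_first {μ : Measure X} [IsProbabilityMeasure μ] {T : X → X} {k : ℕ} (hk : 1 ≤ k)
    {p : Fin (k + 2)} {F : (Fin (k + 1) → X) → X} (hF : Measurable F)
    {γ : Measure (Fin (k + 2) → X)} (hγ : OnGr μ T p F γ)
    {Γ : Fin (k + 1) → Measure (Fin (k + 2) → X)} [∀ l, IsProbabilityMeasure (Γ l)]
    (hΓ : ∀ l, Good μ (Γ l)) {j1 : Fin (k + 1)} (hΓl : ∀ l, l ≠ j1 → Γ l = γ)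
    (hcl : ∀ᵐ C ∂(Measure.pi Γ), C ∈ Cl p F)
    {f u : X → ℂ} {χ : (Fin k → X) → ℂ} (mu : Measurable u) (mχ : Measurable χ)
    (uu : ∀ x, ‖u x‖ = 1) (uχ : ∀ x, ‖χ x‖ = 1)
    (hfu : ∀ᵐ q ∂(μ.prod (Measure.pi fun _ : Fin k => μ)), f (F2 F q) = u q.1 * χ q.2) :
    KK μ F u := by
  have hFmp := hγ.mpF hF
  have hfu' : ∀ᵐ v ∂(Measure.pi fun _ : Fin (k + 1) => μ),
      f (F v) = u (v 0) * χ (fun j => v j.succ) := by
    filter_upwards [mp_ae (mp_uncons μ k) hfu] with v hv
    have e1 : F2 F (v 0, fun j : Fin k => v j.succ) = F v := by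
      unfold F2
      congr 1
      ext j
      refine Fin.cases ?_ (fun j => ?_) j
      · simp
      · simp
    rw [← e1]
    exact hv
  have hstar : ∀ᵐ C ∂(Measure.pi Γ),
      u (F fun l' => C l' (p.succAbove 0)) * χ (fun a' => F fun l' => C l' (p.succAbove a'.succ))
        = u (C 0 p) * χ (fun l' => C l'.succ p) := by
    filter_upwards [hcl, mp_ae (rows_mp hΓ p) hfu', mp_ae (outs_mp hFmp hΓ p) hfu']
      with C h1 h2 h3
    have h1' : F (fun l => C l p) = F (fun j => F fun l => C l (p.succAbove j)) := h1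
    rw [← h2, ← h3, h1']
  refine ⟨mu, uu, hybrid j1 (mu.comp hF) (fun v => uu _) fun l hl => ?_⟩
  refine spl_of ?_
  have mp1 := colIns_mp hF hγ (Γ := Γ) 0 l (hΓl l hl)
  have pull := mp_ae mp1 hstar
  let outv : X × ((Fin k → X) × (Fin k → X)) → (Fin (k + 1) → X) := fun q =>
    l.insertNth (α := fun _ => X) (F ((0 : Fin (k + 1)).insertNth (α := fun _ => X) q.1 q.2.1))
      q.2.2
  have m1 : Measurable (fun q : X × ((Fin k → X) × (Fin k → X)) => (q.1, q.2.1)) := by fun_prop
  have m2 : Measurable (fun q : X × ((Fin k → X) × (Fin k → X)) =>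
      F ((0 : Fin (k + 1)).insertNth (α := fun _ => X) q.1 q.2.1)) :=
    hF.comp ((ins_meas 0).comp m1)
  have mout : Measurable outv :=
    (ins_meas l).comp (m2.prodMk (measurable_snd.comp measurable_snd))
  refine split_lemma (m := (Measure.pi fun _ : Fin k => μ).prod
    (Measure.pi fun j : Fin k => Γ (l.succAbove j)))
    (α := fun w => fun l' => w.2 l' (p.succAbove 0)) (β := fun w => (w.1, fun l' => w.2 l' p))
    (b := (Measure.pi fun _ : Fin k => μ).prod (Measure.pi fun _ : Fin k => μ))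
    (U := fun q => u (F (l.insertNth (α := fun _ => X) q.1 q.2)))
    (S := fun q => u (outv q 0) * χ (fun j => outv q j.succ))
    (R := fun w => χ (fun a' => F (l.insertNth (α := fun _ => X) (w.1 a')
      (fun l' => w.2 l' (p.succAbove ((0 : Fin (k + 1)).succAbove a'))))))
    ?_ (mu.comp (hF.comp (ins_meas l))) ?_
    (fun q => uu _) (fun q => ?_) (fun w => uχ _) ?_
  · exact (mp_lcomm (μ := Measure.pi fun _ : Fin k => μ) (ν := Measure.pi fun _ : Fin k => μ)
      (τ := Measure.pi fun _ : Fin k => μ)).comp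
      ((MeasurePreserving.id (Measure.pi fun _ : Fin k => μ)).prod
        (mp_zip (fun j : Fin k => Γ (l.succAbove j)) μ μ
          fun j => (hΓ (l.succAbove j)).pair hk p))
  · refine (mu.comp ((measurable_pi_apply 0).comp mout)).mul (mχ.comp ?_)
    exact measurable_pi_iff.2 fun j => (measurable_pi_apply _).comp mout
  · rw [norm_mul, uu, uχ, one_mul]
  · filter_upwards [pull] with q hq
    rw [row_same] at hq
    have e3 : (fun a' : Fin k => F fun l' => colIns p F 0 l q l' (p.succAbove a'.succ))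
        = fun a' => F (l.insertNth (α := fun _ => X) (q.2.1 a')
          (fun l' => q.2.2 l' (p.succAbove ((0 : Fin (k + 1)).succAbove a')))) := by
      ext a'
      congr 1
      exact row_other p F 0 l a' q
    rw [e3] at hq
    have e1 : colIns p F 0 l q 0 p = outv (q.1, (q.2.1, fun l' => q.2.2 l' p)) 0 :=
      congrFun (row_out p F 0 l q) 0
    have e2 : (fun l' : Fin k => colIns p F 0 l q l'.succ p)
        = fun l' => outv (q.1, (q.2.1, fun l' => q.2.2 l' p)) l'.succ := by
      ext l'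
      exact congrFun (row_out p F 0 l q) l'.succ
    rw [e1, e2] at hq
    exact hq

end

end Pool.Agent.Y313.RM
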