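import Pool.Agent.Y313.RM.Inst

set_option autoImplicit false
set_option linter.unusedSectionVars false

/-!
# Splitting off coordinates
-/

open MeasureTheory Set Filter Topology ProbabilityTheory
open scoped ENNReal NNReal

namespace Pool.Agent.Y313.RM

theorem unit_mul_conj {z : ℂ} (h : ‖z‖ = 1) : z * (starRingEnd ℂ) z = 1 := by
  rw [Complex.mul_conj, Complex.normSq_eq_norm_sq, h]
  simp

theorem unit_conj_mul {z : ℂ} (h : ‖z‖ = 1) : (starRingEnd ℂ) z * z = 1 := by
  rw [mul_comm]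
  exact unit_mul_conj h

theorem norm_prod_one {ι : Type*} (S : Finset ι) (f : ι → ℂ) (h : ∀ i, ‖f i‖ = 1) :
    ‖∏ i ∈ S, f i‖ = 1 := by
  rw [norm_prod]
  exact Finset.prod_eq_one fun i _ => h i

theorem conj_meas {α : Type*} [MeasurableSpace α] {f : α → ℂ} (hf : Measurable f) :
    Measurable fun x => (starRingEnd ℂ) (f x) :=
  Complex.continuous_conj.measurable.comp hf

section
variable {X : Type*} [MeasurableSpace X]

theorem split_lemma {A B W : Type*} [MeasurableSpace A] [MeasurableSpace B]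
    [MeasurableSpace W] {μ : Measure X} [IsProbabilityMeasure μ] {a : Measure A}
    [IsProbabilityMeasure a] {b : Measure B} [IsProbabilityMeasure b] {m : Measure W}
    [IsProbabilityMeasure m] {α : W → A} {β : W → B}
    (hαβ : MeasurePreserving (fun w => (α w, β w)) m (a.prod b))
    {U : X × A → ℂ} {S : X × B → ℂ} {R : W → ℂ} (mU : Measurable U) (mS : Measurable S)
    (uU : ∀ q, ‖U q‖ = 1) (uS : ∀ q, ‖S q‖ = 1) (uR : ∀ w, ‖R w‖ = 1)
    (h : ∀ᵐ q ∂(μ.prod m), U (q.1, α q.2) * R q.2 = S (q.1, β q.2)) :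
    ∃ (θ : X → ℂ) (Ξ : A → ℂ), Measurable θ ∧ Measurable Ξ ∧ (∀ x, ‖θ x‖ = 1) ∧
      (∀ y, ‖Ξ y‖ = 1) ∧ ∀ᵐ q ∂(μ.prod a), U q = θ q.1 * Ξ q.2 := by
  have k1 : MeasurePreserving (fun z : (X × X) × W => (z.1.1, z.2)) ((μ.prod μ).prod m)
      (μ.prod m) := (measurePreserving_fst (μ := μ) (ν := μ)).prod (MeasurePreserving.id m)
  have k2 : MeasurePreserving (fun z : (X × X) × W => (z.1.2, z.2)) ((μ.prod μ).prod m)
      (μ.prod m) := (measurePreserving_snd (μ := μ) (ν := μ)).prod (MeasurePreserving.id m)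
  have h2 : ∀ᵐ z ∂((μ.prod μ).prod (a.prod b)),
      U (z.1.1, z.2.1) * (starRingEnd ℂ) (U (z.1.2, z.2.1))
        = S (z.1.1, z.2.2) * (starRingEnd ℂ) (S (z.1.2, z.2.2)) := by
    refine mp_ae_of ((MeasurePreserving.id (μ.prod μ)).prod hαβ)
      (measurableSet_eq_fun ?_ ?_) ?_
    · exact (mU.comp (by fun_prop)).mul (conj_meas (mU.comp (by fun_prop)))
    · exact (mS.comp (by fun_prop)).mul (conj_meas (mS.comp (by fun_prop)))
    · filter_upwards [mp_ae k1 h, mp_ae k2 h] with z g1 g2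
      show U (z.1.1, α z.2) * (starRingEnd ℂ) (U (z.1.2, α z.2))
        = S (z.1.1, β z.2) * (starRingEnd ℂ) (S (z.1.2, β z.2))
      rw [← g1, ← g2, map_mul]
      have := unit_mul_conj (uR z.2)
      calc U (z.1.1, α z.2) * (starRingEnd ℂ) (U (z.1.2, α z.2))
          = U (z.1.1, α z.2) * (starRingEnd ℂ) (U (z.1.2, α z.2))
            * (R z.2 * (starRingEnd ℂ) (R z.2)) := by rw [this, mul_one]
        _ = _ := by ring
  have h3 := Measure.ae_ae_of_ae_prod (mp_ae ((mp_mid μ a μ b).comp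
    (Measure.measurePreserving_swap (μ := μ.prod b) (ν := μ.prod a))) h2)
  obtain ⟨⟨v', b0⟩, hv⟩ := h3.exists
  refine ⟨fun v => S (v, b0) * (starRingEnd ℂ) (S (v', b0)), fun y => U (v', y),
    (mS.comp (by fun_prop)).mul measurable_const, mU.comp (by fun_prop), ?_, ?_, ?_⟩
  · intro x
    rw [norm_mul, RCLike.norm_conj, uS, uS, one_mul]
  · intro y
    exact uU _
  · filter_upwards [hv] with q hq
    have hq' : U (q.1, q.2) * (starRingEnd ℂ) (U (v', q.2))
        = S (q.1, b0) * (starRingEnd ℂ) (S (v', b0)) := hq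
    rw [← hq', mul_assoc, unit_conj_mul (uU _), mul_one]

/-- `H` splits off the coordinate `l`. -/
def Spl (μ : Measure X) {n : ℕ} (l : Fin (n + 1)) (H : (Fin (n + 1) → X) → ℂ) : Prop :=
  ∃ (θ : X → ℂ) (Ξ : (Fin n → X) → ℂ), Measurable θ ∧ Measurable Ξ ∧ (∀ x, ‖θ x‖ = 1) ∧
    (∀ y, ‖Ξ y‖ = 1) ∧
    ∀ᵐ v ∂(Measure.pi fun _ : Fin (n + 1) => μ), H v = θ (v l) * Ξ (fun j => v (l.succAbove j))

theorem mp_update {μ : Measure X} [IsProbabilityMeasure μ] {n : ℕ} (l : Fin (n + 1)) :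
    MeasurePreserving (fun q : (Fin (n + 1) → X) × X => Function.update q.1 l q.2)
      ((Measure.pi fun _ => μ).prod μ) (Measure.pi fun _ => μ) := by
  have h1 := measurePreserving_piFinSuccAbove (α := fun _ => X) (fun _ : Fin (n + 1) => μ) l
  have h2 := (measurePreserving_snd (μ := μ) (ν := Measure.pi fun _ : Fin n => μ)).comp h1
  have h3 := (mp_cons μ n l).comp ((Measure.measurePreserving_swap
    (μ := Measure.pi fun _ : Fin n => μ) (ν := μ)).comp (h2.prod (MeasurePreserving.id μ)))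
  have e1 : (fun q : X × (Fin n → X) => l.insertNth (α := fun _ => X) q.1 q.2) ∘
      Prod.swap ∘ Prod.map (Prod.snd ∘ (MeasurableEquiv.piFinSuccAbove (fun _ => X) l)) id
      = fun q : (Fin (n + 1) → X) × X => Function.update q.1 l q.2 := by
    ext q j
    simp only [Function.comp_apply, Prod.map, Prod.swap, id]
    refine Fin.succAboveCases l ?_ (fun j => ?_) j
    · simp
    · simp [Fin.removeNth]
  rwa [e1] at h3

theorem hybrid {μ : Measure X} [IsProbabilityMeasure μ] {n : ℕ} (j1 : Fin (n + 1))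
    {H : (Fin (n + 1) → X) → ℂ} (mH : Measurable H) (uH : ∀ v, ‖H v‖ = 1)
    (h : ∀ l, l ≠ j1 → Spl μ l H) :
    ∃ g : Fin (n + 1) → X → ℂ, (∀ l, Measurable (g l)) ∧ (∀ l x, ‖g l x‖ = 1) ∧
      ∀ᵐ v ∂(Measure.pi fun _ : Fin (n + 1) => μ), H v = ∏ l, g l (v l) := by
  classical
  have h' : ∀ l : Fin (n + 1), ∃ (θ : X → ℂ) (Ξ : (Fin n → X) → ℂ), Measurable θ ∧
      Measurable Ξ ∧ (∀ x, ‖θ x‖ = 1) ∧ (∀ y, ‖Ξ y‖ = 1) ∧ (l = j1 → ∀ x, θ x = 1) ∧
      (l ≠ j1 → ∀ᵐ v ∂(Measure.pi fun _ : Fin (n + 1) => μ),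
        H v = θ (v l) * Ξ (fun j => v (l.succAbove j))) := by
    intro l
    by_cases hl : l = j1
    · exact ⟨fun _ => 1, fun _ => 1, measurable_const, measurable_const, by simp, by simp,
        fun _ _ => rfl, fun hn => absurd hl hn⟩
    · obtain ⟨θ, Ξ, a1, a2, a3, a4, a5⟩ := h l hl
      exact ⟨θ, Ξ, a1, a2, a3, a4, fun hn => absurd hn hl, fun _ => a5⟩
  choose θ Ξ mθ mΞ uθ uΞ hθ1 hH using h'
  let cθ : (Fin (n + 1) → X) → ℂ := fun v => ∏ l, (starRingEnd ℂ) (θ l (v l))
  have mcθ : Measurable cθ := Finset.measurable_prod _ fun l _ =>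
    conj_meas ((mθ l).comp (measurable_pi_apply l))
  have ucθ : ∀ v, ‖cθ v‖ = 1 := fun v => norm_prod_one _ _ fun l => by
    rw [RCLike.norm_conj, uθ]
  let H' : (Fin (n + 1) → X) → ℂ := fun v => H v * cθ v
  have mH' : Measurable H' := mH.mul mcθ
  let Ψ : Fin (n + 1) → (Fin (n + 1) → X) → ℂ := fun l v =>
    Ξ l (fun j => v (l.succAbove j)) * ∏ l' ∈ Finset.univ.erase l, (starRingEnd ℂ) (θ l' (v l'))
  have hΨ : ∀ l, l ≠ j1 → ∀ᵐ v ∂(Measure.pi fun _ : Fin (n + 1) => μ), H' v = Ψ l v := by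
    intro l hl
    filter_upwards [hH l hl] with v hv
    simp only [H', Ψ, cθ]
    rw [hv, ← Finset.mul_prod_erase Finset.univ _ (Finset.mem_univ l)]
    calc θ l (v l) * Ξ l (fun j => v (l.succAbove j)) * ((starRingEnd ℂ) (θ l (v l)) *
          ∏ x ∈ Finset.univ.erase l, (starRingEnd ℂ) (θ x (v x)))
        = (θ l (v l) * (starRingEnd ℂ) (θ l (v l))) * (Ξ l (fun j => v (l.succAbove j)) *
          ∏ x ∈ Finset.univ.erase l, (starRingEnd ℂ) (θ x (v x))) := by ring
      _ = _ := by rw [unit_mul_conj (uθ _ _), one_mul]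
  have hΨu : ∀ l v x, Ψ l (Function.update v l x) = Ψ l v := by
    intro l v x
    simp only [Ψ]
    congr 1
    · congr 1
      ext j
      rw [Function.update_of_ne (Fin.succAbove_ne l j)]
    · refine Finset.prod_congr rfl fun l' hl' => ?_
      rw [Function.update_of_ne (Finset.ne_of_mem_erase hl')]
  have key : ∀ S : Finset (Fin (n + 1)), j1 ∉ S → ∃ Φ : (Fin (n + 1) → X) → ℂ, Measurable Φ ∧
      (∀ v, ‖Φ v‖ = 1) ∧ (∀ v w, (∀ l, l ∉ S → v l = w l) → Φ v = Φ w) ∧
      ∀ᵐ v ∂(Measure.pi fun _ : Fin (n + 1) => μ), H' v = Φ v := by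
    intro S
    induction S using Finset.induction_on with
    | empty =>
      intro _
      refine ⟨H', mH', ?_, ?_, Eventually.of_forall fun v => rfl⟩
      · intro v
        simp only [H']
        rw [norm_mul, uH, ucθ, one_mul]
      · intro v w hvw
        have : v = w := funext fun l => hvw l (Finset.notMem_empty l)
        rw [this]
    | insert l S hl ih =>
      intro hj
      have hlj : l ≠ j1 := fun hlj => hj (by rw [← hlj]; exact Finset.mem_insert_self l S)
      have hjS : j1 ∉ S := fun hjS => hj (Finset.mem_insert_of_mem hjS)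
      obtain ⟨Φ, mΦ, uΦ, pΦ, eΦ⟩ := ih hjS
      have a1 := mp_ae (mp_update (μ := μ) l) eΦ
      have a2 := mp_ae (mp_update (μ := μ) l) (hΨ l hlj)
      have a3 : ∀ᵐ q ∂((Measure.pi fun _ : Fin (n + 1) => μ).prod μ), H' q.1 = Ψ l q.1 :=
        mp_ae measurePreserving_fst (hΨ l hlj)
      have a4 : ∀ᵐ q ∂((Measure.pi fun _ : Fin (n + 1) => μ).prod μ),
          H' q.1 = Φ (Function.update q.1 l q.2) := by
        filter_upwards [a1, a2, a3] with q g1 g2 g3
        rw [← g1, g2, hΨu, ← g3]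
      have a5 := Measure.ae_ae_of_ae_prod (mp_ae (Measure.measurePreserving_swap (μ := μ)
        (ν := Measure.pi fun _ : Fin (n + 1) => μ)) a4)
      obtain ⟨x0, hx0⟩ := a5.exists
      refine ⟨fun v => Φ (Function.update v l x0), mΦ.comp ?_, fun v => uΦ _, ?_, hx0⟩
      · exact measurable_update_left
      · intro v w hvw
        refine pΦ _ _ fun l' hl' => ?_
        by_cases hll : l' = l
        · subst hll
          simp
        · rw [Function.update_of_ne hll, Function.update_of_ne hll]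
          exact hvw l' (by simp [hl', hll])
  obtain ⟨Φ, mΦ, uΦ, pΦ, eΦ⟩ := key (Finset.univ.erase j1) (Finset.notMem_erase _ _)
  refine ⟨fun l => if l = j1 then (fun x => Φ fun _ => x) else θ l, ?_, ?_, ?_⟩
  · intro l
    by_cases hl : l = j1
    · simp only [hl, if_true]
      exact mΦ.comp (measurable_pi_iff.2 fun _ => measurable_id)
    · simp only [if_neg hl]
      exact mθ l
  · intro l x
    by_cases hl : l = j1
    · simp only [hl, if_true]
      exact uΦ _
    · simp only [if_neg hl]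
      exact uθ l x
  · filter_upwards [eΦ] with v hv
    rw [← Finset.mul_prod_erase Finset.univ _ (Finset.mem_univ j1)]
    have e1 : ∏ l ∈ Finset.univ.erase j1, (if l = j1 then (fun x => Φ fun _ => x) else θ l) (v l)
        = ∏ l ∈ Finset.univ.erase j1, θ l (v l) :=
      Finset.prod_congr rfl fun l hl => by rw [if_neg (Finset.ne_of_mem_erase hl)]
    have e2 : ∏ l, θ l (v l) = ∏ l ∈ Finset.univ.erase j1, θ l (v l) := by
      rw [← Finset.mul_prod_erase Finset.univ _ (Finset.mem_univ j1), hθ1 j1 rfl, one_mul]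
    have e3 : cθ v * ∏ l, θ l (v l) = 1 := by
      simp only [cθ]
      rw [← Finset.prod_mul_distrib]
      exact Finset.prod_eq_one fun l _ => unit_conj_mul (uθ l _)
    have e4 : Φ v = Φ fun _ => v j1 := by
      refine pΦ _ _ fun l hl => ?_
      have : l = j1 := by
        by_contra hne
        exact hl (Finset.mem_erase.2 ⟨hne, Finset.mem_univ l⟩)
      rw [this]
    rw [e1, ← e2, if_pos rfl, ← e4, ← hv]
    simp only [H']
    rw [mul_assoc, e3, mul_one]

/-- functions whose composition with `F` is a product of functions of one variable -/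
def KK (μ : Measure X) {k : ℕ} (F : (Fin (k + 1) → X) → X) (f : X → ℂ) : Prop :=
  Measurable f ∧ (∀ x, ‖f x‖ = 1) ∧ ∃ u : Fin (k + 1) → X → ℂ, (∀ l, Measurable (u l)) ∧
    (∀ l x, ‖u l x‖ = 1) ∧
    ∀ᵐ v ∂(Measure.pi fun _ : Fin (k + 1) => μ), f (F v) = ∏ l, u l (v l)

end

end Pool.Agent.Y313.RM
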