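import Pool.Agent.Y313.RM.KerD
import Pool.Agent.Y313.RM.MPx

set_option autoImplicit false

/-!
# Static theorem, analytic part
-/

open MeasureTheory Set Filter Topology
open scoped ENNReal NNReal

namespace Pool.Agent.Y313.RM

section
variable {X Y Z : Type*} [MeasurableSpace X] [MeasurableSpace Y] [MeasurableSpace Z]

/-- The hypotheses of the static theorem. -/
structure Stat (μ : Measure X) (ν : Measure Y) (τ : Measure Z) (F : X × Y → X) (G : Y × Z → Y)
    (ρ : Measure (Y × Z × Y)) : Prop where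
  mF : Measurable F
  mG : Measurable G
  h1 : MeasurePreserving (fun p : X × Y => (p.1, F p)) (μ.prod ν) (μ.prod μ)
  h2 : MeasurePreserving (fun p : X × Y => (F p, p.2)) (μ.prod ν) (μ.prod ν)
  h3 : MeasurePreserving (fun p : Y × Z => (p.1, G p)) (ν.prod τ) (ν.prod ν)
  h4 : MeasurePreserving (fun p : Y × Z => (G p, p.2)) (ν.prod τ) (ν.prod τ)
  h5 : MeasurePreserving (fun p : Y × Z × Y => (p.1, p.2.1)) ρ (ν.prod τ)
  h6 : MeasurePreserving (fun p : Y × Z × Y => (p.1, p.2.2)) ρ (ν.prod ν)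
  h7 : MeasurePreserving (fun p : Y × Z × Y => (p.2.1, p.2.2)) ρ (τ.prod ν)
  cl : ∀ᵐ p ∂((μ.prod ν).prod ρ),
    F (F (p.1.1, p.2.1), G (p.1.2, p.2.2.1)) = F (F p.1, p.2.2.2)

variable {μ : Measure X} {ν : Measure Y} {τ : Measure Z} {F : X × Y → X} {G : Y × Z → Y}
  {ρ : Measure (Y × Z × Y)}

/-- the correlation kernel -/
noncomputable def ker (ν : Measure Y) (F : X × Y → X) (g : X → ℝ) (a b : X) : ℝ :=
  ∫ z, g (F (a, z)) * g (F (b, z)) ∂ν

theorem ker_meas [SFinite ν] (hF : Measurable F) {g : X → ℝ} (hg : Measurable g) :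
    Measurable (Function.uncurry (ker ν F g)) := by
  have h : StronglyMeasurable fun q : (X × X) × Y =>
      g (F (q.1.1, q.2)) * g (F (q.1.2, q.2)) :=
    ((hg.comp (hF.comp (by fun_prop))).mul (hg.comp (hF.comp (by fun_prop)))).stronglyMeasurable
  exact (h.integral_prod_right' (ν := ν)).measurable

theorem ker_bound [IsProbabilityMeasure ν] {g : X → ℝ} {C : ℝ} (hC : ∀ x, |g x| ≤ C) (a b : X) :
    |ker ν F g a b| ≤ C ^ 2 := by
  have h := norm_integral_le_of_norm_le_const (μ := ν)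
    (f := fun z => g (F (a, z)) * g (F (b, z))) (C := C ^ 2) (Eventually.of_forall fun z => by
      rw [Real.norm_eq_abs, abs_mul, sq]
      exact mul_le_mul (hC _) (hC _) (abs_nonneg _) ((abs_nonneg _).trans (hC a)))
  rw [Real.norm_eq_abs] at h
  simpa [ker] using h

omit [MeasurableSpace X] in
theorem ker_symm {g : X → ℝ} (a b : X) : ker ν F g a b = ker ν F g b a := by
  unfold ker
  exact integral_congr_ae (Eventually.of_forall fun z => mul_comm _ _)

/-- map used for the first side -/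
theorem mp_theta1 [IsProbabilityMeasure μ] [IsProbabilityMeasure ν] [IsProbabilityMeasure τ]
    [IsProbabilityMeasure ρ] (h : Stat μ ν τ F G ρ) :
    MeasurePreserving (fun p : Y × (Y × Z × Y) => ((p.2.1, p.1), G (p.1, p.2.2.1)))
      (ν.prod ρ) ((ν.prod ν).prod ν) := by
  have a := (MeasurePreserving.id ν).prod h.h5
  have b := mp_lcomm (μ := ν) (ν := ν) (τ := τ)
  have c := (MeasurePreserving.id ν).prod h.h3
  have d := (measurePreserving_prodAssoc ν ν ν).symm
  exact d.comp (c.comp (b.comp a))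

theorem mp_theta2 [IsProbabilityMeasure μ] [IsProbabilityMeasure ν] [IsProbabilityMeasure τ]
    [IsProbabilityMeasure ρ] (h : Stat μ ν τ F G ρ) :
    MeasurePreserving (fun p : Y × (Y × Z × Y) => ((p.2.1, p.1), p.2.2.2))
      (ν.prod ρ) ((ν.prod ν).prod ν) := by
  have a := (MeasurePreserving.id ν).prod h.h6
  have b := mp_lcomm (μ := ν) (ν := ν) (τ := ν)
  have d := (measurePreserving_prodAssoc ν ν ν).symm
  exact d.comp (b.comp a)

/-- pullbacks of the closure relation to the space with two first variables -/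
theorem mp_pick1 [IsProbabilityMeasure μ] [IsProbabilityMeasure ν] [IsProbabilityMeasure ρ] :
    MeasurePreserving (fun p : (X × X) × (Y × (Y × Z × Y)) => ((p.1.1, p.2.1), p.2.2))
      ((μ.prod μ).prod (ν.prod ρ)) ((μ.prod ν).prod ρ) := by
  have a := (measurePreserving_fst (μ := μ) (ν := μ)).prod (MeasurePreserving.id (ν.prod ρ))
  have b := (measurePreserving_prodAssoc μ ν ρ).symm
  exact b.comp a

theorem mp_pick2 [IsProbabilityMeasure μ] [IsProbabilityMeasure ν] [IsProbabilityMeasure ρ] :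
    MeasurePreserving (fun p : (X × X) × (Y × (Y × Z × Y)) => ((p.1.2, p.2.1), p.2.2))
      ((μ.prod μ).prod (ν.prod ρ)) ((μ.prod ν).prod ρ) := by
  have a := (measurePreserving_snd (μ := μ) (ν := μ)).prod (MeasurePreserving.id (ν.prod ρ))
  have b := (measurePreserving_prodAssoc μ ν ρ).symm
  exact b.comp a

theorem bdd_integrable {α : Type*} [MeasurableSpace α] {m : Measure α} [IsFiniteMeasure m]
    {f : α → ℝ} (hf : Measurable f) {C : ℝ} (hC : ∀ x, |f x| ≤ C) : Integrable f m :=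
  Integrable.of_bound hf.aestronglyMeasurable C
    (Eventually.of_forall fun x => by rw [Real.norm_eq_abs]; exact hC x)

theorem K1 [IsProbabilityMeasure μ] [IsProbabilityMeasure ν] [IsProbabilityMeasure τ]
    [IsProbabilityMeasure ρ] (h : Stat μ ν τ F G ρ) {g : X → ℝ} (hg : Measurable g) {C : ℝ}
    (hC : ∀ x, |g x| ≤ C) :
    ∀ᵐ p ∂((μ.prod μ).prod (ν.prod ν)),
      ker ν F g (F (p.1.1, p.2.1)) (F (p.1.2, p.2.1))
        = ker ν F g (F (p.1.1, p.2.2)) (F (p.1.2, p.2.2)) := by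
  have mF := h.mF
  have mG := h.mG
  have mk := ker_meas (ν := ν) mF hg
  have bk := ker_bound (ν := ν) (F := F) hC
  have hC0 : 0 ≤ C := by
    have := h.h5
    by_cases hne : Nonempty X
    · exact (abs_nonneg _).trans (hC hne.some)
    · exfalso
      rw [not_nonempty_iff] at hne
      have : μ univ = 0 := by rw [univ_eq_empty_iff.2 hne, measure_empty]
      simp at this
  let H1 : (X × X) × (Y × Y) → ℝ := fun p => ker ν F g (F (p.1.1, p.2.1)) (F (p.1.2, p.2.1))
  let H2 : (X × X) × (Y × Y) → ℝ := fun p => ker ν F g (F (p.1.1, p.2.2)) (F (p.1.2, p.2.2))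
  have mH1 : Measurable H1 := mk.comp ((mF.comp (by fun_prop)).prodMk (mF.comp (by fun_prop)))
  have mH2 : Measurable H2 := mk.comp ((mF.comp (by fun_prop)).prodMk (mF.comp (by fun_prop)))
  have bH1 : ∀ p, |H1 p| ≤ C ^ 2 := fun p => bk _ _
  have bH2 : ∀ p, |H2 p| ≤ C ^ 2 := fun p => bk _ _
  let α : (X × X) × (Y × Y) → ℝ := fun p => H1 p - H2 p
  have mα : Measurable α := mH1.sub mH2
  have bα : ∀ p, |α p| ≤ 2 * C ^ 2 := by
    intro p
    calc |H1 p - H2 p| ≤ |H1 p| + |H2 p| := abs_sub _ _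
      _ ≤ 2 * C ^ 2 := by linarith [bH1 p, bH2 p]
  let Ψ1 : ((X × X) × (Y × Y)) × Y → ℝ := fun q =>
    α q.1 * (g (F (F (q.1.1.1, q.1.2.1), q.2)) * g (F (F (q.1.1.2, q.1.2.1), q.2)))
  let Ψ2 : ((X × X) × (Y × Y)) × Y → ℝ := fun q =>
    α q.1 * (g (F (F (q.1.1.1, q.1.2.2), q.2)) * g (F (F (q.1.1.2, q.1.2.2), q.2)))
  have mΨ1 : Measurable Ψ1 := by
    refine (mα.comp measurable_fst).mul (Measurable.mul ?_ ?_)
    · exact hg.comp (mF.comp ((mF.comp (by fun_prop)).prodMk measurable_snd))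
    · exact hg.comp (mF.comp ((mF.comp (by fun_prop)).prodMk measurable_snd))
  have mΨ2 : Measurable Ψ2 := by
    refine (mα.comp measurable_fst).mul (Measurable.mul ?_ ?_)
    · exact hg.comp (mF.comp ((mF.comp (by fun_prop)).prodMk measurable_snd))
    · exact hg.comp (mF.comp ((mF.comp (by fun_prop)).prodMk measurable_snd))
  have bb : ∀ a b c : ℝ, |a| ≤ 2 * C ^ 2 → |b| ≤ C → |c| ≤ C → |a * (b * c)| ≤ 2 * C ^ 2 * C ^ 2 := by
    intro a b c ha hb hc
    rw [abs_mul, abs_mul]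
    refine mul_le_mul ha ?_ (by positivity) (by positivity)
    rw [sq]
    exact mul_le_mul hb hc (abs_nonneg _) hC0
  have iΨ1 : Integrable Ψ1 (((μ.prod μ).prod (ν.prod ν)).prod ν) :=
    bdd_integrable mΨ1 (C := 2 * C ^ 2 * C ^ 2) fun q => bb _ _ _ (bα _) (hC _) (hC _)
  have iΨ2 : Integrable Ψ2 (((μ.prod μ).prod (ν.prod ν)).prod ν) :=
    bdd_integrable mΨ2 (C := 2 * C ^ 2 * C ^ 2) fun q => bb _ _ _ (bα _) (hC _) (hC _)
  have e1 : ∫ p, α p * H1 p ∂((μ.prod μ).prod (ν.prod ν))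
      = ∫ q, Ψ1 q ∂(((μ.prod μ).prod (ν.prod ν)).prod ν) := by
    rw [integral_prod _ iΨ1]
    refine integral_congr_ae (Eventually.of_forall fun p => ?_)
    simp only [Ψ1, H1]
    rw [integral_const_mul]
    rfl
  have e2 : ∫ p, α p * H2 p ∂((μ.prod μ).prod (ν.prod ν))
      = ∫ q, Ψ2 q ∂(((μ.prod μ).prod (ν.prod ν)).prod ν) := by
    rw [integral_prod _ iΨ2]
    refine integral_congr_ae (Eventually.of_forall fun p => ?_)
    simp only [Ψ2, H2]
    rw [integral_const_mul]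
    rfl
  have t1 := (measurePreserving_prodAssoc (μ.prod μ) (ν.prod ν) ν).symm.comp
    ((MeasurePreserving.id (μ.prod μ)).prod (mp_theta1 h))
  have t2 := (measurePreserving_prodAssoc (μ.prod μ) (ν.prod ν) ν).symm.comp
    ((MeasurePreserving.id (μ.prod μ)).prod (mp_theta2 h))
  have f1 := mp_int t1 mΨ1.aestronglyMeasurable
  have f2 := mp_int t2 mΨ2.aestronglyMeasurable
  have c1 := mp_ae (mp_pick1 (μ := μ) (ν := ν) (ρ := ρ)) h.cl
  have c2 := mp_ae (mp_pick2 (μ := μ) (ν := ν) (ρ := ρ)) h.cl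
  have e3 : ∫ p, α p * H1 p ∂((μ.prod μ).prod (ν.prod ν))
      = ∫ p, α p * H2 p ∂((μ.prod μ).prod (ν.prod ν)) := by
    rw [e1, e2, ← f1, ← f2]
    refine integral_congr_ae ?_
    filter_upwards [c1, c2] with p hp1 hp2
    have hp1' : F (F (p.1.1, p.2.2.1), G (p.2.1, p.2.2.2.1)) = F (F (p.1.1, p.2.1), p.2.2.2.2) :=
      hp1
    have hp2' : F (F (p.1.2, p.2.2.1), G (p.2.1, p.2.2.2.1)) = F (F (p.1.2, p.2.1), p.2.2.2.2) :=
      hp2
    show α (p.1, (p.2.2.1, p.2.1)) * (g (F (F (p.1.1, p.2.2.1), G (p.2.1, p.2.2.2.1)))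
      * g (F (F (p.1.2, p.2.2.1), G (p.2.1, p.2.2.2.1))))
      = α (p.1, (p.2.2.1, p.2.1)) * (g (F (F (p.1.1, p.2.1), p.2.2.2.2))
        * g (F (F (p.1.2, p.2.1), p.2.2.2.2)))
    rw [hp1', hp2']
  have i1 : Integrable (fun p => α p * H1 p) ((μ.prod μ).prod (ν.prod ν)) :=
    bdd_integrable (mα.mul mH1) (C := 2 * C ^ 2 * C ^ 2) fun p => by
      rw [abs_mul]
      exact mul_le_mul (bα p) (bH1 p) (abs_nonneg _) (by positivity)
  have i2 : Integrable (fun p => α p * H2 p) ((μ.prod μ).prod (ν.prod ν)) :=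
    bdd_integrable (mα.mul mH2) (C := 2 * C ^ 2 * C ^ 2) fun p => by
      rw [abs_mul]
      exact mul_le_mul (bα p) (bH2 p) (abs_nonneg _) (by positivity)
  have e4 : ∫ p, (α p) ^ 2 ∂((μ.prod μ).prod (ν.prod ν)) = 0 := by
    have h5 : ∀ p, (α p) ^ 2 = α p * H1 p - α p * H2 p := by
      intro p
      simp only [α]
      ring
    simp only [h5]
    rw [integral_sub i1 i2, e3, sub_self]
  have i3 : Integrable (fun p => (α p) ^ 2) ((μ.prod μ).prod (ν.prod ν)) := by
    have h5 : (fun p => (α p) ^ 2) = fun p => α p * H1 p - α p * H2 p := by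
      ext p
      simp only [α]
      ring
    rw [h5]
    exact i1.sub i2
  have e5 := (integral_eq_zero_iff_of_nonneg (fun p => sq_nonneg (α p)) i3).1 e4
  filter_upwards [e5] with p hp
  have : (α p) ^ 2 = 0 := hp
  have h6 : α p = 0 := by simpa using this
  exact sub_eq_zero.1 h6

end

end Pool.Agent.Y313.RM
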