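import Pool.Agent.Y313.RM.Stat1

set_option autoImplicit false

/-!
# Static theorem, eigenfunctions of the correlation kernel
-/

open MeasureTheory Set Filter Topology
open scoped ENNReal NNReal

namespace Pool.Agent.Y313.RM

section
variable {X Y Z : Type*} [MeasurableSpace X] [MeasurableSpace Y] [MeasurableSpace Z]
variable {μ : Measure X} {ν : Measure Y} {τ : Measure Z} {F : X × Y → X} {G : Y × Z → Y}
  {ρ : Measure (Y × Z × Y)}

theorem ae_zero_of_rect [IsFiniteMeasure μ] [IsFiniteMeasure ν] {f : X × Y → ℝ}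
    (hf : Integrable f (μ.prod ν))
    (h : ∀ B C, MeasurableSet B → MeasurableSet C → ∫ p in B ×ˢ C, f p ∂(μ.prod ν) = 0) :
    f =ᵐ[μ.prod ν] 0 := by
  refine Integrable.ae_eq_zero_of_forall_setIntegral_eq_zero hf ?_
  intro S hS _
  induction S, hS using MeasurableSpace.induction_on_inter generateFrom_prod.symm
    isPiSystem_prod with
  | empty => simp
  | basic S hS =>
    obtain ⟨B, hB, C, hC, rfl⟩ := hS
    exact h B C hB hC
  | compl S hS ih =>
    have h1 := integral_add_compl hS hf
    have h2 : ∫ p, f p ∂(μ.prod ν) = 0 := by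
      have := h univ univ MeasurableSet.univ MeasurableSet.univ
      rwa [univ_prod_univ, setIntegral_univ] at this
    have h3 := ih (measure_lt_top _ _)
    rw [h3, h2, zero_add] at h1
    exact h1
  | iUnion S hd hS ih =>
    rw [integral_iUnion hS hd hf.integrableOn]
    simp [fun i => ih i (measure_lt_top _ _)]

theorem ker_ne [IsProbabilityMeasure μ] [IsProbabilityMeasure ν] [IsProbabilityMeasure τ]
    (h : Stat μ ν τ F G ρ) {g : X → ℝ} (hg : Measurable g) {C : ℝ}
    (hC : ∀ x, |g x| ≤ C) (hne : ¬ (∀ᵐ x ∂μ, g x = 0)) :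
    ∃ B : Set X, MeasurableSet B ∧ ∫ x in B, ∫ y in B, ker ν F g x y ∂μ ∂μ ≠ 0 := by
  by_contra hcon
  push Not at hcon
  apply hne
  have mF := h.mF
  have mgF : Measurable fun p : X × Y => g (F p) := hg.comp mF
  have igF : Integrable (fun p : X × Y => g (F p)) (μ.prod ν) := bdd_integrable mgF fun p => hC _
  have hC0 : 0 ≤ C := by
    obtain ⟨x⟩ : Nonempty X := by
      by_contra hn
      rw [not_nonempty_iff] at hn
      have : μ univ = 0 := by rw [univ_eq_empty_iff.2 hn, measure_empty]
      simp at this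
    exact (abs_nonneg _).trans (hC x)
  have hrow : ∀ B, MeasurableSet B → ∀ᵐ z ∂ν, ∫ a in B, g (F (a, z)) ∂μ = 0 := by
    intro B hB
    let φ : Y → ℝ := fun z => ∫ a in B, g (F (a, z)) ∂μ
    have mφ : Measurable φ := by
      have h1 : StronglyMeasurable fun q : Y × X => g (F (q.2, q.1)) :=
        (hg.comp (mF.comp (by fun_prop))).stronglyMeasurable
      exact (h1.integral_prod_right' (ν := μ.restrict B)).measurable
    have bφ : ∀ z, |φ z| ≤ C := by
      intro z
      have h1 := norm_integral_le_of_norm_le_const (μ := μ.restrict B)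
        (f := fun a => g (F (a, z))) (C := C)
        (Eventually.of_forall fun a => by rw [Real.norm_eq_abs]; exact hC _)
      rw [Real.norm_eq_abs] at h1
      refine h1.trans ?_
      have h2 : (μ.restrict B).real univ ≤ 1 := by
        rw [measureReal_restrict_apply MeasurableSet.univ, univ_inter]
        exact measureReal_le_one
      calc C * (μ.restrict B).real univ ≤ C * 1 := mul_le_mul_of_nonneg_left h2 hC0
        _ = C := mul_one C
    have e1 : ∫ x in B, ∫ y in B, ker ν F g x y ∂μ ∂μ = ∫ z, (φ z) ^ 2 ∂ν := by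
      have i1 : Integrable (fun q : (X × X) × Y => g (F (q.1.1, q.2)) * g (F (q.1.2, q.2)))
          (((μ.restrict B).prod (μ.restrict B)).prod ν) := by
        refine bdd_integrable (C := C ^ 2) ?_ ?_
        · exact (hg.comp (mF.comp (by fun_prop))).mul (hg.comp (mF.comp (by fun_prop)))
        · intro q
          rw [abs_mul, sq]
          exact mul_le_mul (hC _) (hC _) (abs_nonneg _) hC0
      have i2 : Integrable (fun q : X × X => ker ν F g q.1 q.2)
          ((μ.restrict B).prod (μ.restrict B)) :=
        bdd_integrable (ker_meas mF hg) fun q => ker_bound hC q.1 q.2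
      rw [← integral_prod (fun q : X × X => ker ν F g q.1 q.2) i2]
      unfold ker
      rw [← integral_prod _ i1, ← integral_prod_swap]
      have i3 := i1.swap
      rw [integral_prod (fun z : Y × X × X => g (F (z.swap.1.1, z.swap.2))
        * g (F (z.swap.1.2, z.swap.2))) i3]
      refine integral_congr_ae (Eventually.of_forall fun z => ?_)
      show ∫ q : X × X, g (F (q.1, z)) * g (F (q.2, z)) ∂((μ.restrict B).prod (μ.restrict B))
        = (φ z) ^ 2
      rw [integral_prod_mul (fun a => g (F (a, z))) (fun a => g (F (a, z))), sq]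
    have e2 := hcon B hB
    rw [e1] at e2
    have i3 : Integrable (fun z => (φ z) ^ 2) ν :=
      bdd_integrable (mφ.pow_const 2) (C := C ^ 2) fun z => by
        rw [abs_pow]
        exact pow_le_pow_left₀ (abs_nonneg _) (bφ z) 2
    have e3 := (integral_eq_zero_iff_of_nonneg (fun z => sq_nonneg (φ z)) i3).1 e2
    filter_upwards [e3] with z hz
    have h3 : (φ z) ^ 2 = 0 := hz
    simpa using h3
  have hz : (fun p : X × Y => g (F p)) =ᵐ[μ.prod ν] 0 := by
    refine ae_zero_of_rect igF ?_
    intro B D hB hD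
    have i4 : Integrable (fun p : X × Y => g (F p)) ((μ.restrict B).prod (ν.restrict D)) :=
      bdd_integrable mgF fun p => hC _
    have i5 := i4.swap
    rw [← Measure.prod_restrict, ← integral_prod_swap,
      integral_prod (fun z : Y × X => g (F z.swap)) i5]
    have h1 : ∀ᵐ z ∂(ν.restrict D), ∫ a, g (F (a, z)) ∂(μ.restrict B) = 0 :=
        ae_restrict_of_ae (hrow B hB)
    exact (integral_congr_ae (g := fun _ => (0 : ℝ)) h1).trans (by simp)
  have h4 : MeasurePreserving (fun p : X × Y => F p) (μ.prod ν) μ :=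
    (measurePreserving_fst (μ := μ) (ν := ν)).comp h.h2
  exact mp_ae_of h4 (measurableSet_eq_fun hg measurable_const) hz

/-- Eigenfunctions transported by two measure preserving maps with the same correlations. -/
theorem span_rel [IsProbabilityMeasure μ] {k : X → X → ℝ} (hk : Measurable (Function.uncurry k))
    {C : ℝ} (hC : ∀ x y, |k x y| ≤ C) {s : ℝ} (hs : s ≠ 0) {d : ℕ} {e : Fin d → X → ℝ}
    (hem : ∀ j, Measurable (e j)) (heL : ∀ j, MemLp (e j) 2 μ)
    (horth : ∀ i j, ∫ x, e i x * e j x ∂μ = if i = j then 1 else 0)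
    (heig : ∀ j, ∀ᵐ x ∂μ, ∫ y, k x y * e j y ∂μ = s * e j x)
    (hspan : ∀ φ : X → ℝ, MemLp φ 2 μ → (∀ᵐ x ∂μ, ∫ y, k x y * φ y ∂μ = s * φ x) →
        ∃ c : Fin d → ℝ, ∀ᵐ x ∂μ, φ x = ∑ j, c j * e j x)
    {a b : X → X} (ha : MeasurePreserving a μ μ) (hb : MeasurePreserving b μ μ)
    (hab : ∀ᵐ p ∂(μ.prod μ), k (a p.1) (a p.2) = k (b p.1) (b p.2)) (i : Fin d) :
    ∀ᵐ w ∂μ, e i (a w) = ∑ j, (∫ v, e i (a v) * e j (b v) ∂μ) * e j (b w) := by
  have hφL : MemLp (fun w => e i (a w)) 2 μ := (heL i).comp_measurePreserving ha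
  have hφI : Integrable (fun w => e i (a w)) μ := hφL.integrable one_le_two
  have mφ : Measurable fun w => e i (a w) := (hem i).comp ha.measurable
  have hC0 : 0 ≤ C := by
    obtain ⟨x⟩ : Nonempty X := by
      by_contra hn
      rw [not_nonempty_iff] at hn
      have : μ univ = 0 := by rw [univ_eq_empty_iff.2 hn, measure_empty]
      simp at this
    exact (abs_nonneg _).trans (hC x x)
  have krow : ∀ x, Measurable (k x) := fun x => hk.comp (measurable_const.prodMk measurable_id)
  have h1 : ∀ᵐ w ∂μ, ∫ v, k (b w) (b v) * e i (a v) ∂μ = s * e i (a w) := by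
    have h2 := mp_ae ha (heig i)
    have h3 := Measure.ae_ae_of_ae_prod hab
    filter_upwards [h2, h3] with w hw2 hw3
    rw [← hw2, ← mp_int ha (f := fun y => k (a w) y * e i y)
      ((krow _).mul (hem i)).aestronglyMeasurable]
    refine integral_congr_ae ?_
    filter_upwards [hw3] with v hv
    rw [← hv]
  let ψ : X → ℝ := fun z => s⁻¹ * ∫ v, k z (b v) * e i (a v) ∂μ
  have mψ : Measurable ψ := by
    have h2 : StronglyMeasurable fun q : X × X => k q.1 (b q.2) * e i (a q.2) :=
      ((hk.comp (measurable_fst.prodMk (hb.measurable.comp measurable_snd))).mul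
        (mφ.comp measurable_snd)).stronglyMeasurable
    exact ((h2.integral_prod_right' (ν := μ)).measurable).const_mul _
  have bψ : ∀ z, |ψ z| ≤ |s⁻¹| * (C * ∫ v, |e i (a v)| ∂μ) := by
    intro z
    simp only [ψ]
    rw [abs_mul]
    refine mul_le_mul_of_nonneg_left ?_ (abs_nonneg _)
    rw [← integral_const_mul]
    refine (abs_integral_le_integral_abs).trans ?_
    refine integral_mono_of_nonneg (Eventually.of_forall fun v => abs_nonneg _)
      (hφI.abs.const_mul C) (Eventually.of_forall fun v => ?_)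
    show |k z (b v) * e i (a v)| ≤ C * |e i (a v)|
    rw [abs_mul]
    exact mul_le_mul_of_nonneg_right (hC _ _) (abs_nonneg _)
  have hφψ : ∀ᵐ w ∂μ, e i (a w) = ψ (b w) := by
    filter_upwards [h1] with w hw
    simp only [ψ]
    rw [hw, ← mul_assoc, inv_mul_cancel₀ hs, one_mul]
  have hψeig : ∀ z, ∫ y, k z y * ψ y ∂μ = s * ψ z := by
    intro z
    rw [← mp_int hb (f := fun y => k z y * ψ y) ((krow _).mul mψ).aestronglyMeasurable]
    have h3 : ∫ v, k z (b v) * ψ (b v) ∂μ = ∫ v, k z (b v) * e i (a v) ∂μ := by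
      refine integral_congr_ae ?_
      filter_upwards [hφψ] with v hv
      rw [hv]
    have h4 : s * ψ z = ∫ v, k z (b v) * e i (a v) ∂μ := by
      simp only [ψ]
      rw [← mul_assoc, mul_inv_cancel₀ hs, one_mul]
    rw [h4]
    exact h3
  obtain ⟨c, hc⟩ := hspan ψ (memLp_of_bdd mψ bψ) (Eventually.of_forall hψeig)
  have hφc : ∀ᵐ w ∂μ, e i (a w) = ∑ j, c j * e j (b w) := by
    filter_upwards [hφψ, mp_ae hb hc] with w h1 h2
    rw [h1, h2]
  have horthb : ∀ l j, ∫ v, e l (b v) * e j (b v) ∂μ = if l = j then 1 else 0 := by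
    intro l j
    rw [← horth l j]
    exact mp_int hb (f := fun x => e l x * e j x) ((hem l).mul (hem j)).aestronglyMeasurable
  have hcoef : ∀ j, ∫ v, e i (a v) * e j (b v) ∂μ = c j := by
    intro j
    have h2 : ∫ v, e i (a v) * e j (b v) ∂μ = ∫ v, ∑ l, c l * (e l (b v) * e j (b v)) ∂μ := by
      refine integral_congr_ae ?_
      filter_upwards [hφc] with v hv
      rw [hv, Finset.sum_mul]
      exact Finset.sum_congr rfl fun l _ => by ring
    rw [h2, integral_finsetSum]
    · simp only [integral_const_mul, horthb]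
      simp
    · intro l _
      refine Integrable.const_mul ?_ _
      exact ((heL l).comp_measurePreserving hb).integrable_mul
        ((heL j).comp_measurePreserving hb)
  filter_upwards [hφc] with w hw
  rw [hw]
  exact Finset.sum_congr rfl fun j _ => by rw [hcoef j]

end

end Pool.Agent.Y313.RM
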