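import Pool.Agent.Y313.RM.Stat2
import Pool.Agent.Y313.RM.Lin

set_option autoImplicit false

/-!
# Static theorem, the matrix cocycle
-/

open MeasureTheory Set Filter Topology
open scoped ENNReal NNReal

namespace Pool.Agent.Y313.RM

section
variable {X Y Z : Type*} [MeasurableSpace X] [MeasurableSpace Y] [MeasurableSpace Z]
variable {μ : Measure X} {ν : Measure Y} {τ : Measure Z} {F : X × Y → X} {G : Y × Z → Y}
  {ρ : Measure (Y × Z × Y)}

theorem coef_of {d : ℕ} {ψ : Fin d → X → ℝ} (hL : ∀ j, MemLp (ψ j) 2 μ)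
    (horth : ∀ i j, ∫ x, ψ i x * ψ j x ∂μ = if i = j then 1 else 0) {φ : X → ℝ} {c : Fin d → ℝ}
    (h : ∀ᵐ w ∂μ, φ w = ∑ j, c j * ψ j w) (j : Fin d) : ∫ w, φ w * ψ j w ∂μ = c j := by
  have h2 : ∫ v, φ v * ψ j v ∂μ = ∫ v, ∑ l, c l * (ψ l v * ψ j v) ∂μ := by
    refine integral_congr_ae ?_
    filter_upwards [h] with v hv
    rw [hv, Finset.sum_mul]
    exact Finset.sum_congr rfl fun l _ => by ring
  rw [h2, integral_finsetSum]
  · simp only [integral_const_mul, horth]
    simp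
  · intro l _
    exact ((hL l).integrable_mul (hL j)).const_mul _

theorem gram_of {d : ℕ} {ψ : Fin d → X → ℝ} (hL : ∀ j, MemLp (ψ j) 2 μ)
    (horth : ∀ i j, ∫ x, ψ i x * ψ j x ∂μ = if i = j then 1 else 0) {φ : X → ℝ} {c : Fin d → ℝ}
    (h : ∀ᵐ w ∂μ, φ w = ∑ j, c j * ψ j w) {φ' : X → ℝ} {c' : Fin d → ℝ}
    (h' : ∀ᵐ w ∂μ, φ' w = ∑ j, c' j * ψ j w) : ∫ w, φ w * φ' w ∂μ = ∑ j, c j * c' j := by
  have hφL : MemLp φ 2 μ := by
    refine (memLp_finsetSum (p := 2) Finset.univ (f := fun j w => c j * ψ j w)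
      (fun j _ => (hL j).const_mul (c j))).ae_eq ?_
    filter_upwards [h] with w hw
    rw [hw]
  have h2 : ∫ v, φ v * φ' v ∂μ = ∫ v, ∑ l, c' l * (φ v * ψ l v) ∂μ := by
    refine integral_congr_ae ?_
    filter_upwards [h'] with v hv
    rw [hv, Finset.mul_sum]
    exact Finset.sum_congr rfl fun l _ => by ring
  rw [h2, integral_finsetSum]
  · simp only [integral_const_mul, coef_of hL horth h]
    exact Finset.sum_congr rfl fun l _ => by ring
  · intro l _
    exact (hφL.integrable_mul (hL l)).const_mul _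

theorem mp_F [IsProbabilityMeasure μ] [IsProbabilityMeasure ν] (h : Stat μ ν τ F G ρ) :
    MeasurePreserving F (μ.prod ν) μ :=
  (measurePreserving_fst (μ := μ) (ν := ν)).comp h.h2

theorem mp_G [IsProbabilityMeasure ν] [IsProbabilityMeasure τ] (h : Stat μ ν τ F G ρ) :
    MeasurePreserving G (ν.prod τ) ν :=
  (measurePreserving_snd (μ := ν) (ν := ν)).comp h.h3

theorem mp_mid {α β γ δ : Type*} [MeasurableSpace α] [MeasurableSpace β] [MeasurableSpace γ]
    [MeasurableSpace δ] (a : Measure α) (b : Measure β) (c : Measure γ) (e : Measure δ)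
    [SFinite a] [SFinite b] [SFinite c] [SFinite e] :
    MeasurePreserving (fun p : (α × β) × (γ × δ) => ((p.1.1, p.2.1), (p.1.2, p.2.2)))
      ((a.prod b).prod (c.prod e)) ((a.prod c).prod (b.prod e)) := by
  have h1 := measurePreserving_prodAssoc a b (c.prod e)
  have h2 := (MeasurePreserving.id a).prod (mp_lcomm (μ := b) (ν := c) (τ := e))
  have h3 := (measurePreserving_prodAssoc a c (b.prod e)).symm
  exact h3.comp (h2.comp h1)

theorem mp_big1 [IsProbabilityMeasure μ] [IsProbabilityMeasure ν] [IsProbabilityMeasure τ]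
    [IsProbabilityMeasure ρ] (h : Stat μ ν τ F G ρ) :
    MeasurePreserving (fun p : (X × Y) × (Y × Z × Y) => (F (p.1.1, p.2.1), G (p.1.2, p.2.2.1)))
      ((μ.prod ν).prod ρ) (μ.prod ν) := by
  have a := (MeasurePreserving.id (μ.prod ν)).prod h.h5
  have b := mp_mid μ ν ν τ
  have c := (mp_F h).prod (mp_G h)
  exact c.comp (b.comp a)

theorem mp_r2 [IsProbabilityMeasure ν] [IsProbabilityMeasure τ] (h : Stat μ ν τ F G ρ) :
    MeasurePreserving (fun p : Y × Z × Y => p.2.2) ρ ν :=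
  (measurePreserving_snd (μ := ν) (ν := ν)).comp h.h6

theorem mp_big2 [IsProbabilityMeasure μ] [IsProbabilityMeasure ν] [IsProbabilityMeasure τ]
    [IsProbabilityMeasure ρ] (h : Stat μ ν τ F G ρ) :
    MeasurePreserving (fun p : (X × Y) × (Y × Z × Y) => (F p.1, p.2.2.2))
      ((μ.prod ν).prod ρ) (μ.prod ν) :=
  (mp_F h).prod (mp_r2 h)

/-- `(y, (x, Z, Q)) ↦ G (y, Z)` -/
theorem mp_GyZ [IsProbabilityMeasure μ] [IsProbabilityMeasure ν] [IsProbabilityMeasure τ]
    [IsProbabilityMeasure ρ] (h : Stat μ ν τ F G ρ) :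
    MeasurePreserving (fun p : Y × (Y × Z × Y) => G (p.1, p.2.2.1)) (ν.prod ρ) ν :=
  (measurePreserving_snd (μ := ν.prod ν) (ν := ν)).comp (mp_theta1 h)

theorem ker_mean [IsProbabilityMeasure μ] [IsProbabilityMeasure ν]
    (hF : Measurable F) (hF2 : ∀ᵐ y ∂ν, MeasurePreserving (fun x => F (x, y)) μ μ)
    {g : X → ℝ} (hg : Measurable g) {C : ℝ}
    (hC : ∀ x, |g x| ≤ C) (hg0 : ∫ x, g x ∂μ = 0) (b : X) : ∫ a, ker ν F g a b ∂μ = 0 := by
  have i1 : Integrable (fun q : X × Y => g (F q) * g (F (b, q.2))) (μ.prod ν) := by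
    refine bdd_integrable (C := C * C) ?_ ?_
    · exact (hg.comp hF).mul (hg.comp (hF.comp (by fun_prop)))
    · intro q
      rw [abs_mul]
      exact mul_le_mul (hC _) (hC _) (abs_nonneg _) ((abs_nonneg _).trans (hC b))
  unfold ker
  rw [integral_integral_swap (f := fun a z => g (F (a, z)) * g (F (b, z))) i1]
  have h1 : ∀ᵐ y ∂ν, ∫ x, g (F (x, y)) * g (F (b, y)) ∂μ = 0 := by
    filter_upwards [hF2] with y hy
    rw [integral_mul_const, mp_int hy hg.aestronglyMeasurable, hg0, zero_mul]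
  rw [integral_congr_ae (g := fun _ => (0 : ℝ)) h1]
  simp

theorem eig_mean [IsProbabilityMeasure μ] {k : X → X → ℝ} (hk : Measurable (Function.uncurry k))
    {C : ℝ} (hC : ∀ x y, |k x y| ≤ C) {s : ℝ} (hs : s ≠ 0) {e : X → ℝ} (heL : MemLp e 2 μ)
    (heig : ∀ᵐ x ∂μ, ∫ y, k x y * e y ∂μ = s * e x)
    (hk0 : ∀ y, ∫ x, k x y ∂μ = 0) : ∫ x, e x ∂μ = 0 := by
  have h1 : s * ∫ x, e x ∂μ = ∫ x, ∫ y, k x y * e y ∂μ ∂μ := by
    rw [← integral_const_mul]
    exact (integral_congr_ae heig).symm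
  have i0 : Integrable (fun q : X × X => e q.2) (μ.prod μ) :=
    (heL.integrable one_le_two).comp_snd μ
  have i1 : Integrable (fun q : X × X => k q.1 q.2 * e q.2) (μ.prod μ) :=
    i0.bdd_mul (c := C) hk.aestronglyMeasurable
      (Eventually.of_forall fun p => by simpa using hC p.1 p.2)
  rw [integral_integral_swap (f := fun x y => k x y * e y) i1] at h1
  have h2 : ∀ y, ∫ x, k x y * e y ∂μ = 0 := by
    intro y
    rw [integral_mul_const, hk0, zero_mul]
  simp only [h2, integral_zero] at h1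
  rcases mul_eq_zero.1 h1 with h3 | h3
  · exact absurd h3 hs
  · exact h3

theorem fin_meas {α : Type*} [MeasurableSpace α] {d : ℕ} {f g : Fin d → α → ℝ}
    (hf : ∀ i, Measurable (f i)) (hg : ∀ i, Measurable (g i)) :
    MeasurableSet {x | ∀ i, f i x = g i x} := by
  have : {x | ∀ i, f i x = g i x} = ⋂ i, {x | f i x = g i x} := by
    ext x
    simp
  rw [this]
  exact MeasurableSet.iInter fun i => measurableSet_eq_fun (hf i) (hg i)

open Matrix in
theorem exists_MN [IsProbabilityMeasure μ] [IsProbabilityMeasure ν] [IsProbabilityMeasure τ]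
    [IsProbabilityMeasure ρ] [MeasurableSpace.CountablyGenerated X]
    (h : Stat μ ν τ F G ρ) {g : X → ℝ} (hg : Measurable g) {C : ℝ}
    (hC : ∀ x, |g x| ≤ C) (hg0 : ∫ x, g x ∂μ = 0) (hne : ¬ (∀ᵐ x ∂μ, g x = 0)) :
    ∃ (d : ℕ) (q : Fin d → X → ℝ) (M : Y → Matrix (Fin d) (Fin d) ℝ)
      (N : Y → Y → Matrix (Fin d) (Fin d) ℝ), 0 < d ∧ (∀ j, Measurable (q j)) ∧
      (∀ j, MemLp (q j) 2 μ) ∧ (∀ i j, ∫ x, q i x * q j x ∂μ = if i = j then 1 else 0) ∧
      (∀ j, ∫ x, q j x ∂μ = 0) ∧ (∀ i j, Measurable fun x => M x i j) ∧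
      (∀ i j, Measurable fun p : Y × Y => N p.1 p.2 i j) ∧
      (∀ᵐ x ∂ν, (M x)ᵀ * M x = 1) ∧ (∀ x y, (N x y)ᵀ = N y x) ∧
      (∀ᵐ r ∂(ν.prod ρ), N r.2.1 r.1 = (M (G (r.1, r.2.2.1)))ᵀ * M r.2.2.2) ∧
      (∀ᵐ p ∂(ν.prod ν), ∀ᵐ w ∂μ, ∀ i, q i (F (w, p.1)) = ∑ j, N p.1 p.2 i j * q j (F (w, p.2))) ∧
      (∀ᵐ p ∂(ν.prod (ν.prod ν)), N p.1 p.2.1 * N p.2.1 p.2.2 = N p.1 p.2.2) := by
  have mF := h.mF
  have mG := h.mG
  have mk := ker_meas (ν := ν) mF hg
  have bk := ker_bound (ν := ν) (F := F) hC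
  have hF2 : ∀ᵐ y ∂ν, MeasurePreserving (fun x => F (x, y)) μ μ := ae_mp' mF h.h2
  obtain ⟨s, d, e, hs, hd, hem, heL, horth, heig, hspan⟩ :=
    exists_eigen (μ := μ) (ker ν F g) mk (C ^ 2) bk ker_symm (ker_ne h hg hC hne)
  have hemean : ∀ j, ∫ x, e j x ∂μ = 0 := fun j =>
    eig_mean mk bk hs (heL j) (heig j) (ker_mean mF hF2 hg hC hg0)
  -- the choice of the base point
  have hK1 : ∀ᵐ p ∂(ν.prod ν), ∀ᵐ w ∂(μ.prod μ),
      ker ν F g (F (w.1, p.2)) (F (w.2, p.2)) = ker ν F g (F (w.1, p.1)) (F (w.2, p.1)) := by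
    have h1 := mp_ae ((Measure.measurePreserving_swap (μ := ν.prod ν) (ν := μ.prod μ)).comp
      ((Measure.measurePreserving_swap (μ := ν) (ν := ν)).prod
        (MeasurePreserving.id (μ.prod μ)))) (K1 h hg hC)
    exact Measure.ae_ae_of_ae_prod h1
  obtain ⟨x0, hx0, hx1⟩ := (hF2.and (Measure.ae_ae_of_ae_prod hK1)).exists
  let q : Fin d → X → ℝ := fun j w => e j (F (w, x0))
  let M : Y → Matrix (Fin d) (Fin d) ℝ := fun x i j => ∫ v, e i (F (v, x)) * q j v ∂μ
  let N : Y → Y → Matrix (Fin d) (Fin d) ℝ := fun x y i j => ∫ v, q i (F (v, x)) * q j (F (v, y)) ∂μ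
  have mq : ∀ j, Measurable (q j) := fun j => (hem j).comp hx0.measurable
  have qL : ∀ j, MemLp (q j) 2 μ := fun j => (heL j).comp_measurePreserving hx0
  have qorth : ∀ i j, ∫ x, q i x * q j x ∂μ = if i = j then 1 else 0 := by
    intro i j
    rw [← horth i j]
    exact mp_int hx0 (f := fun x => e i x * e j x) ((hem i).mul (hem j)).aestronglyMeasurable
  have qmean : ∀ j, ∫ x, q j x ∂μ = 0 := by
    intro j
    rw [← hemean j]
    exact mp_int hx0 (hem j).aestronglyMeasurable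
  have mM : ∀ i j, Measurable fun x => M x i j := by
    intro i j
    have h1 : StronglyMeasurable fun p : Y × X => e i (F (p.2, p.1)) * q j p.2 :=
      (((hem i).comp (mF.comp (by fun_prop))).mul
        ((mq j).comp measurable_snd)).stronglyMeasurable
    exact (h1.integral_prod_right' (ν := μ)).measurable
  have mN : ∀ i j, Measurable fun p : Y × Y => N p.1 p.2 i j := by
    intro i j
    have h1 : StronglyMeasurable fun p : (Y × Y) × X =>
        q i (F (p.2, p.1.1)) * q j (F (p.2, p.1.2)) :=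
      (((mq i).comp (mF.comp (by fun_prop))).mul
        ((mq j).comp (mF.comp (by fun_prop)))).stronglyMeasurable
    exact (h1.integral_prod_right' (ν := μ)).measurable
  -- P1
  have P1 : ∀ᵐ x ∂ν, ∀ᵐ w ∂μ, ∀ i, e i (F (w, x)) = ∑ j, M x i j * q j w := by
    filter_upwards [hF2, hx1] with x hx2 hx3
    rw [ae_all_iff]
    intro i
    exact span_rel mk bk hs hem heL horth heig hspan hx2 hx0 hx3 i
  have P2 : ∀ᵐ x ∂ν, (M x)ᵀ * M x = 1 := by
    filter_upwards [hF2, P1] with x hx2 hx3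
    have h1 : M x * (M x)ᵀ = 1 := by
      ext i j
      rw [Matrix.mul_apply, Matrix.one_apply]
      simp only [Matrix.transpose_apply]
      rw [← gram_of qL qorth (hx3.mono fun w hw => hw i) (hx3.mono fun w hw => hw j),
        ← horth i j]
      exact mp_int hx2 (f := fun x => e i x * e j x)
        ((hem i).mul (hem j)).aestronglyMeasurable
    exact mul_eq_one_comm.1 h1
  have P1' : ∀ᵐ p ∂(μ.prod ν), ∀ i, e i (F p) = ∑ j, M p.2 i j * q j p.1 := by
    have h1 : ∀ᵐ p ∂(ν.prod μ), ∀ i, e i (F (p.2, p.1)) = ∑ j, M p.1 i j * q j p.2 := by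
      refine ae_prod_of (fin_meas (fun i => (hem i).comp (mF.comp (by fun_prop))) fun i => ?_) P1
      refine Finset.measurable_sum _ fun j _ => ?_
      exact ((mM i j).comp measurable_fst).mul ((mq j).comp measurable_snd)
    exact mp_ae (Measure.measurePreserving_swap (μ := μ) (ν := ν)) h1
  -- C2
  have C2 : ∀ᵐ p ∂((μ.prod ν).prod ρ),
      (M (G (p.1.2, p.2.2.1))) *ᵥ (fun j => q j (F (p.1.1, p.2.1)))
        = (M p.2.2.2) *ᵥ (fun j => q j (F p.1)) := by
    filter_upwards [mp_ae (mp_big1 h) P1', mp_ae (mp_big2 h) P1', h.cl] with p h1 h2 h3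
    ext i
    have h1i := h1 i
    have h2i := h2 i
    rw [h3] at h1i
    simp only [Matrix.mulVec, dotProduct]
    rw [← h1i, ← h2i]
  have C2' : ∀ᵐ r ∂(ν.prod ρ), ∀ᵐ w ∂μ,
      (M (G (r.1, r.2.2.1))) *ᵥ (fun j => q j (F (w, r.2.1)))
        = (M r.2.2.2) *ᵥ (fun j => q j (F (w, r.1))) := by
    have h1 := mp_ae ((measurePreserving_prodAssoc μ ν ρ).symm.comp
      (Measure.measurePreserving_swap (μ := ν.prod ρ) (ν := μ))) C2
    exact Measure.ae_ae_of_ae_prod h1
  have C3 : ∀ᵐ r ∂(ν.prod ρ), ∀ᵐ w ∂μ, ∀ i,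
      q i (F (w, r.2.1)) = ∑ j, ((M (G (r.1, r.2.2.1)))ᵀ * M r.2.2.2) i j * q j (F (w, r.1)) := by
    filter_upwards [C2', mp_ae (mp_GyZ h) P2] with r h1 h2
    filter_upwards [h1] with w hw i
    have h3 := congrArg (fun v => (M (G (r.1, r.2.2.1)))ᵀ *ᵥ v) hw
    simp only [Matrix.mulVec_mulVec, h2, Matrix.one_mulVec] at h3
    exact congrFun h3 i
  have hfst : MeasurePreserving (fun r : Y × (Y × Z × Y) => r.1) (ν.prod ρ) ν :=
    measurePreserving_fst
  have C4 : ∀ᵐ r ∂(ν.prod ρ), N r.2.1 r.1 = (M (G (r.1, r.2.2.1)))ᵀ * M r.2.2.2 := by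
    filter_upwards [C3, mp_ae hfst hF2] with r h1 h2
    ext i j
    exact coef_of (ψ := fun j w => q j (F (w, r.1)))
      (fun j => (qL j).comp_measurePreserving h2)
      (fun i j => by
        rw [← qorth i j]
        exact mp_int h2 (f := fun x => q i x * q j x) ((mq i).mul (mq j)).aestronglyMeasurable)
      (h1.mono fun w hw => hw i) j
  have C5 : ∀ᵐ p ∂(ν.prod ν), ∀ᵐ w ∂μ, ∀ i,
      q i (F (w, p.1)) = ∑ j, N p.1 p.2 i j * q j (F (w, p.2)) := by
    have ms : MeasurableSet {p : (Y × Y) × X | ∀ i,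
        q i (F (p.2, p.1.1)) = ∑ j, N p.1.1 p.1.2 i j * q j (F (p.2, p.1.2))} := by
      refine fin_meas (fun i => (mq i).comp (mF.comp (by fun_prop))) fun i => ?_
      refine Finset.measurable_sum _ fun j _ => ?_
      exact ((mN i j).comp measurable_fst).mul ((mq j).comp (mF.comp (by fun_prop)))
    have mp2 : MeasurePreserving (fun r : Y × (Y × Z × Y) => (r.2.1, r.1)) (ν.prod ρ)
        (ν.prod ν) := (measurePreserving_fst (μ := ν.prod ν) (ν := ν)).comp (mp_theta2 h)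
    have mp1 := mp2.prod (MeasurePreserving.id μ)
    have h1 : ∀ᵐ p ∂((ν.prod ν).prod μ), ∀ i,
        q i (F (p.2, p.1.1)) = ∑ j, N p.1.1 p.1.2 i j * q j (F (p.2, p.1.2)) := by
      refine mp_ae_of mp1 ms ?_
      refine ae_prod_of (mp1.measurable ms) ?_
      filter_upwards [C3, C4] with r h3 h4
      filter_upwards [h3] with w hw i
      have := hw i
      rw [← h4] at this
      exact this
    exact Measure.ae_ae_of_ae_prod h1
  refine ⟨d, q, M, N, hd, mq, qL, qorth, qmean, mM, mN, P2, ?_, C4, C5, ?_⟩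
  · intro x y
    ext i j
    simp only [N]
    exact integral_congr_ae (Eventually.of_forall fun w => mul_comm _ _)
  · have m12 : MeasurePreserving (fun p : Y × (Y × Y) => (p.1, p.2.1)) (ν.prod (ν.prod ν))
        (ν.prod ν) := (MeasurePreserving.id ν).prod measurePreserving_fst
    have m23 : MeasurePreserving (fun p : Y × (Y × Y) => (p.2.1, p.2.2)) (ν.prod (ν.prod ν))
        (ν.prod ν) := measurePreserving_snd
    have m3 : MeasurePreserving (fun p : Y × (Y × Y) => p.2.2) (ν.prod (ν.prod ν)) ν :=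
      measurePreserving_snd.comp measurePreserving_snd
    filter_upwards [mp_ae m12 C5, mp_ae m23 C5, mp_ae m3 hF2] with p h1 h2 h3
    symm
    ext i j
    refine coef_of (ψ := fun j w => q j (F (w, p.2.2)))
      (fun j => (qL j).comp_measurePreserving h3)
      (fun i j => by
        rw [← qorth i j]
        exact mp_int h3 (f := fun x => q i x * q j x) ((mq i).mul (mq j)).aestronglyMeasurable)
      ?_ j (φ := fun w => q i (F (w, p.1)))
      (c := fun j => (N p.1 p.2.1 * N p.2.1 p.2.2) i j)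
    filter_upwards [h1, h2] with w hw1 hw2
    rw [hw1 i]
    simp only [Matrix.mul_apply, Finset.sum_mul]
    rw [Finset.sum_comm]
    refine Finset.sum_congr rfl fun l _ => ?_
    rw [hw2 l, Finset.mul_sum]
    exact Finset.sum_congr rfl fun j _ => by ring

end

end Pool.Agent.Y313.RM
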