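import Pool.Agent.Y313.RM.Stat3

set_option autoImplicit false

/-!
# Static theorem, the common eigenvector
-/

open MeasureTheory Set Filter Topology Matrix
open scoped ENNReal NNReal

namespace Pool.Agent.Y313.RM

section
variable {X Y Z : Type*} [MeasurableSpace X] [MeasurableSpace Y] [MeasurableSpace Z]
variable {μ : Measure X} {ν : Measure Y} {τ : Measure Z} {F : X × Y → X} {G : Y × Z → Y}
  {ρ : Measure (Y × Z × Y)}

theorem mat_meas {α : Type*} [MeasurableSpace α] {d : ℕ} {A B : α → Matrix (Fin d) (Fin d) ℝ}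
    (hA : ∀ i j, Measurable fun x => A x i j) (hB : ∀ i j, Measurable fun x => B x i j) :
    MeasurableSet {x | A x = B x} := by
  have : {x | A x = B x} = ⋂ i, ⋂ j, {x | A x i j = B x i j} := by
    ext x
    simp only [mem_ofPred_eq, mem_iInter]
    exact ⟨fun h i j => by rw [h], fun h => by ext i j; exact h i j⟩
  rw [this]
  exact MeasurableSet.iInter fun i => MeasurableSet.iInter fun j =>
    measurableSet_eq_fun (hA i j) (hB i j)

theorem mul_meas {α : Type*} [MeasurableSpace α] {d : ℕ} {A B : α → Matrix (Fin d) (Fin d) ℝ}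
    (hA : ∀ i j, Measurable fun x => A x i j) (hB : ∀ i j, Measurable fun x => B x i j)
    (i j : Fin d) : Measurable fun x => (A x * B x) i j := by
  simp only [Matrix.mul_apply]
  exact Finset.measurable_sum _ fun l _ => (hA i l).mul (hB l j)

theorem tr_meas {α : Type*} [MeasurableSpace α] {d : ℕ} {A : α → Matrix (Fin d) (Fin d) ℝ}
    (hA : ∀ i j, Measurable fun x => A x i j) (i j : Fin d) :
    Measurable fun x => (A x)ᵀ i j := hA j i

/-- matrices commuting with almost all `N s t` -/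
def Cm (ν : Measure Y) {d : ℕ} (N : Y → Y → Matrix (Fin d) (Fin d) ℝ)
    (A : Matrix (Fin d) (Fin d) ℝ) : Prop :=
  ∀ᵐ t ∂(ν.prod ν), A * N t.1 t.2 = N t.1 t.2 * A

theorem Cm.mul {d : ℕ} {N : Y → Y → Matrix (Fin d) (Fin d) ℝ}
    {A B : Matrix (Fin d) (Fin d) ℝ} (hA : Cm ν N A) (hB : Cm ν N B) : Cm ν N (A * B) := by
  filter_upwards [hA, hB] with t h1 h2
  rw [Matrix.mul_assoc, h2, ← Matrix.mul_assoc, h1, Matrix.mul_assoc]

theorem Cm.tr [SFinite ν] {d : ℕ} {N : Y → Y → Matrix (Fin d) (Fin d) ℝ}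
    (hNT : ∀ x y, (N x y)ᵀ = N y x)
    {A : Matrix (Fin d) (Fin d) ℝ} (hA : Cm ν N A) : Cm ν N Aᵀ := by
  filter_upwards [mp_ae (Measure.measurePreserving_swap (μ := ν) (ν := ν)) hA] with t h1
  have h2 := congrArg Matrix.transpose h1
  rw [Matrix.transpose_mul, Matrix.transpose_mul, hNT] at h2
  exact h2.symm

theorem Cm.all [SFinite ν] {d : ℕ} (N : Y → Y → Matrix (Fin d) (Fin d) ℝ) :
    ∀ᵐ s ∂(ν.prod ν), ∀ A, Cm ν N A → A * N s.1 s.2 = N s.1 s.2 * A := by
  let W : Submodule ℝ (Matrix (Fin d) (Fin d) ℝ) :=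
    { carrier := {A | Cm ν N A}
      add_mem' := by
        intro A B hA hB
        have hA' : Cm ν N A := hA
        have hB' : Cm ν N B := hB
        show Cm ν N (A + B)
        filter_upwards [hA', hB'] with t h1 h2
        rw [Matrix.add_mul, Matrix.mul_add, h1, h2]
      zero_mem' := by
        show Cm ν N 0
        exact Eventually.of_forall fun t => by simp
      smul_mem' := by
        intro c A hA
        have hA' : Cm ν N A := hA
        show Cm ν N (c • A)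
        filter_upwards [hA'] with t h1
        rw [Matrix.smul_mul, Matrix.mul_smul, h1] }
  obtain ⟨S, hS⟩ : W.FG := IsNoetherian.noetherian W
  have h1 : ∀ A ∈ S, Cm ν N A := by
    intro A hA
    have : A ∈ W := by rw [← hS]; exact Submodule.subset_span hA
    exact this
  have h2 : ∀ᵐ s ∂(ν.prod ν), ∀ A : S, A.1 * N s.1 s.2 = N s.1 s.2 * A.1 := by
    rw [ae_all_iff]
    intro A
    exact h1 A.1 A.2
  filter_upwards [h2] with s hs A hA
  have hAW : A ∈ Submodule.span ℝ (S : Set (Matrix (Fin d) (Fin d) ℝ)) := by rw [hS]; exact hA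
  induction hAW using Submodule.span_induction with
  | mem B hB => exact hs ⟨B, hB⟩
  | zero => simp
  | add B D _ _ hB hD => rw [Matrix.add_mul, Matrix.mul_add, hB (by
      have : B ∈ W := by rw [← hS]; assumption
      exact this), hD (by
      have : D ∈ W := by rw [← hS]; assumption
      exact this)]
  | smul c B _ hB => rw [Matrix.smul_mul, Matrix.mul_smul, hB (by
      have : B ∈ W := by rw [← hS]; assumption
      exact this)]

theorem lin_part [IsProbabilityMeasure μ] [IsProbabilityMeasure ν] [IsProbabilityMeasure τ]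
    [IsProbabilityMeasure ρ] [MeasurableSpace.CountablyGenerated Y]
    (h : Stat μ ν τ F G ρ) {d : ℕ} (hd : 0 < d) {M : Y → Matrix (Fin d) (Fin d) ℝ}
    {N : Y → Y → Matrix (Fin d) (Fin d) ℝ}
    (mM : ∀ i j, Measurable fun x => M x i j)
    (mN : ∀ i j, Measurable fun p : Y × Y => N p.1 p.2 i j)
    (hM : ∀ᵐ x ∂ν, (M x)ᵀ * M x = 1) (hNT : ∀ x y, (N x y)ᵀ = N y x)
    (hMN : ∀ᵐ r ∂(ν.prod ρ), N r.2.1 r.1 = (M (G (r.1, r.2.2.1)))ᵀ * M r.2.2.2)
    (hNN : ∀ᵐ p ∂(ν.prod (ν.prod ν)), N p.1 p.2.1 * N p.2.1 p.2.2 = N p.1 p.2.2) :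
    ∃ r : Fin d → ℂ, r ≠ 0 ∧ ∀ᵐ p ∂(ν.prod ν), ∃ c : ℂ, ‖c‖ = 1 ∧
      ∀ j, ∑ i, r i * (N p.1 p.2 i j : ℂ) = c * r j := by
  have mG := h.mG
  have hG2 : ∀ᵐ z ∂τ, MeasurePreserving (fun y => G (y, z)) ν ν := ae_mp' mG h.h4
  -- orthogonality of `N`
  have hNo : ∀ᵐ p ∂(ν.prod ν), (N p.1 p.2)ᵀ * N p.1 p.2 = 1 := by
    have mp2 : MeasurePreserving (fun r : Y × (Y × Z × Y) => (r.2.1, r.1)) (ν.prod ρ)
        (ν.prod ν) := (measurePreserving_fst (μ := ν.prod ν) (ν := ν)).comp (mp_theta2 h)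
    refine mp_ae_of mp2 (mat_meas (mul_meas (tr_meas mN) mN)
      (fun i j => measurable_const)) ?_
    have mpQ : MeasurePreserving (fun r : Y × (Y × Z × Y) => r.2.2.2) (ν.prod ρ) ν :=
      (mp_r2 h).comp measurePreserving_snd
    filter_upwards [hMN, mp_ae (mp_GyZ h) hM, mp_ae mpQ hM] with r h1 h2 h3
    have h2' := mul_eq_one_comm.1 h2
    show (N r.2.1 r.1)ᵀ * N r.2.1 r.1 = 1
    rw [h1, Matrix.transpose_mul, Matrix.transpose_transpose]
    calc (M r.2.2.2)ᵀ * M (G (r.1, r.2.2.1)) * ((M (G (r.1, r.2.2.1)))ᵀ * M r.2.2.2)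
        = (M r.2.2.2)ᵀ * (M (G (r.1, r.2.2.1)) * (M (G (r.1, r.2.2.1)))ᵀ) * M r.2.2.2 := by
          simp only [Matrix.mul_assoc]
      _ = 1 := by rw [h2', Matrix.mul_one, h3]
  -- basic identities at `((y, y'), (x, Z, Q))`
  have pk1 : MeasurePreserving (fun p : (Y × Y) × (Y × Z × Y) => (p.1.1, p.2))
      ((ν.prod ν).prod ρ) (ν.prod ρ) :=
    (measurePreserving_fst (μ := ν) (ν := ν)).prod (MeasurePreserving.id ρ)
  have pk2 : MeasurePreserving (fun p : (Y × Y) × (Y × Z × Y) => (p.1.2, p.2))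
      ((ν.prod ν).prod ρ) (ν.prod ρ) :=
    (measurePreserving_snd (μ := ν) (ν := ν)).prod (MeasurePreserving.id ρ)
  have mpx : MeasurePreserving (fun r : Y × Z × Y => r.1) ρ ν :=
    (measurePreserving_fst (μ := ν) (ν := τ)).comp h.h5
  have mpz : MeasurePreserving (fun r : Y × Z × Y => r.2.1) ρ τ :=
    (measurePreserving_snd (μ := ν) (ν := τ)).comp h.h5
  have pk3 : MeasurePreserving (fun p : (Y × Y) × (Y × Z × Y) => (p.1.1, (p.2.1, p.1.2)))
      ((ν.prod ν).prod ρ) (ν.prod (ν.prod ν)) := by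
    have a1 := (MeasurePreserving.id (ν.prod ν)).prod mpx
    have a2 := measurePreserving_prodAssoc ν ν ν
    have a3 := (MeasurePreserving.id ν).prod (Measure.measurePreserving_swap (μ := ν) (ν := ν))
    exact a3.comp (a2.comp a1)
  have pkQ : MeasurePreserving (fun p : (Y × Y) × (Y × Z × Y) => p.2.2.2)
      ((ν.prod ν).prod ρ) ν := (mp_r2 h).comp measurePreserving_snd
  have basic : ∀ᵐ p ∂((ν.prod ν).prod ρ),
      (M (G (p.1.1, p.2.2.1)) * (M (G (p.1.2, p.2.2.1)))ᵀ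
        = M p.2.2.2 * N p.1.1 p.1.2 * (M p.2.2.2)ᵀ) ∧
      ((M (G (p.1.1, p.2.2.1)))ᵀ * M (G (p.1.2, p.2.2.1))
        = N p.2.1 p.1.1 * N p.1.2 p.2.1) := by
    filter_upwards [mp_ae pk1 hMN, mp_ae pk2 hMN, mp_ae pk3 hNN, mp_ae pkQ hM]
      with p h1 h2 h3 h4
    have h1' : N p.2.1 p.1.1 = (M (G (p.1.1, p.2.2.1)))ᵀ * M p.2.2.2 := h1
    have h2' : N p.2.1 p.1.2 = (M (G (p.1.2, p.2.2.1)))ᵀ * M p.2.2.2 := h2
    have h3' : N p.1.1 p.2.1 * N p.2.1 p.1.2 = N p.1.1 p.1.2 := h3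
    have h4' := mul_eq_one_comm.1 h4
    have e1 : M p.2.2.2 * N p.1.1 p.2.1 = M (G (p.1.1, p.2.2.1)) := by
      rw [← hNT, h1', Matrix.transpose_mul, Matrix.transpose_transpose, ← Matrix.mul_assoc,
        h4', Matrix.one_mul]
    have e2 : M p.2.2.2 * N p.1.2 p.2.1 = M (G (p.1.2, p.2.2.1)) := by
      rw [← hNT, h2', Matrix.transpose_mul, Matrix.transpose_transpose, ← Matrix.mul_assoc,
        h4', Matrix.one_mul]
    have e1t : N p.2.1 p.1.1 * (M p.2.2.2)ᵀ = (M (G (p.1.1, p.2.2.1)))ᵀ := by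
      rw [← e1, Matrix.transpose_mul, hNT]
    have e2t : N p.2.1 p.1.2 * (M p.2.2.2)ᵀ = (M (G (p.1.2, p.2.2.1)))ᵀ := by
      rw [← e2, Matrix.transpose_mul, hNT]
    constructor
    · rw [← e1, ← e2t, ← h3']
      simp only [Matrix.mul_assoc]
    · rw [← e1t, ← e2]
      calc N p.2.1 p.1.1 * (M p.2.2.2)ᵀ * (M p.2.2.2 * N p.1.2 p.2.1)
          = N p.2.1 p.1.1 * ((M p.2.2.2)ᵀ * M p.2.2.2) * N p.1.2 p.2.1 := by
            simp only [Matrix.mul_assoc]
        _ = N p.2.1 p.1.1 * N p.1.2 p.2.1 := by rw [h4, Matrix.mul_one]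
  -- `M Qᵀ * M Q'` commutes with `N t`
  have comm1 : ∀ᵐ p ∂((ν.prod ν).prod (ν.prod ν)),
      ((M p.2.1)ᵀ * M p.2.2) * N p.1.1 p.1.2 = N p.1.1 p.1.2 * ((M p.2.1)ᵀ * M p.2.2) := by
    refine ae_prod_of (mat_meas ?_ ?_) ?_
    · exact mul_meas (mul_meas (tr_meas fun i j => (mM i j).comp (by fun_prop))
        fun i j => (mM i j).comp (by fun_prop))
        fun i j => (mN i j).comp measurable_fst
    · exact mul_meas (fun i j => (mN i j).comp measurable_fst)
        (mul_meas (tr_meas fun i j => (mM i j).comp (by fun_prop))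
        fun i j => (mM i j).comp (by fun_prop))
    · filter_upwards [Measure.ae_ae_of_ae_prod basic] with t ht
      have ms : MeasurableSet {w : Z × Y | M (G (t.1, w.1)) * (M (G (t.2, w.1)))ᵀ
          = M w.2 * N t.1 t.2 * (M w.2)ᵀ} := by
        refine mat_meas ?_ ?_
        · exact mul_meas (fun i j => (mM i j).comp (mG.comp (by fun_prop)))
            (tr_meas fun i j => (mM i j).comp (mG.comp (by fun_prop)))
        · exact mul_meas (mul_meas (fun i j => (mM i j).comp measurable_snd)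
            fun i j => measurable_const) (tr_meas fun i j => (mM i j).comp measurable_snd)
      have h1 := mp_ae_of h.h7 ms (ht.mono fun r hr => hr.1)
      obtain ⟨L, -, hL⟩ := const_of_two (f := fun z => M (G (t.1, z)) * (M (G (t.2, z)))ᵀ)
        (g := fun Q => M Q * N t.1 t.2 * (M Q)ᵀ) h1
      have k1 : ∀ᵐ p ∂(ν.prod ν), M p.1 * N t.1 t.2 * (M p.1)ᵀ = L :=
        mp_ae (measurePreserving_fst (μ := ν) (ν := ν)) hL
      have k2 : ∀ᵐ p ∂(ν.prod ν), M p.2 * N t.1 t.2 * (M p.2)ᵀ = L :=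
        mp_ae (measurePreserving_snd (μ := ν) (ν := ν)) hL
      have k3 : ∀ᵐ p ∂(ν.prod ν), (M p.1)ᵀ * M p.1 = 1 :=
        mp_ae (measurePreserving_fst (μ := ν) (ν := ν)) hM
      have k4 : ∀ᵐ p ∂(ν.prod ν), (M p.2)ᵀ * M p.2 = 1 :=
        mp_ae (measurePreserving_snd (μ := ν) (ν := ν)) hM
      filter_upwards [k1, k2, k3, k4] with p g1 g2 g3 g4
      have l1 : (M p.1)ᵀ * L * M p.2 = N t.1 t.2 * ((M p.1)ᵀ * M p.2) := by
        rw [← g1]
        calc (M p.1)ᵀ * (M p.1 * N t.1 t.2 * (M p.1)ᵀ) * M p.2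
            = ((M p.1)ᵀ * M p.1) * (N t.1 t.2 * ((M p.1)ᵀ * M p.2)) := by
              simp only [Matrix.mul_assoc]
          _ = _ := by rw [g3, Matrix.one_mul]
      have l2 : (M p.1)ᵀ * L * M p.2 = ((M p.1)ᵀ * M p.2) * N t.1 t.2 := by
        rw [← g2]
        calc (M p.1)ᵀ * (M p.2 * N t.1 t.2 * (M p.2)ᵀ) * M p.2
            = ((M p.1)ᵀ * M p.2) * N t.1 t.2 * ((M p.2)ᵀ * M p.2) := by
              simp only [Matrix.mul_assoc]
          _ = _ := by rw [g4, Matrix.mul_one]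
      show ((M p.1)ᵀ * M p.2) * N t.1 t.2 = N t.1 t.2 * ((M p.1)ᵀ * M p.2)
      rw [← l1, ← l2]
  -- pull back by `G`
  have mpGG : MeasurePreserving (fun w : Z × (Y × Y) => (G (w.2.1, w.1), G (w.2.2, w.1)))
      (τ.prod (ν.prod ν)) (ν.prod ν) := by
    have sk : MeasurePreserving (fun w : Z × (Y × Y) =>
        (w.1, (G (w.2.1, w.1), G (w.2.2, w.1))))
        (τ.prod (ν.prod ν)) (τ.prod (ν.prod ν)) := by
      refine MeasurePreserving.skew_product (f := id) (g := fun z (t : Y × Y) =>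
        (G (t.1, z), G (t.2, z))) (MeasurePreserving.id τ) ?_ ?_
      · exact (mG.comp (by fun_prop)).prodMk (mG.comp (by fun_prop))
      · filter_upwards [hG2] with z hz
        exact (hz.prod hz).map_eq
    exact measurePreserving_snd.comp sk
  have mpZy : MeasurePreserving (fun p : (Y × Y) × (Y × Z × Y) => (p.2.2.1, p.1))
      ((ν.prod ν).prod ρ) (τ.prod (ν.prod ν)) :=
    (Measure.measurePreserving_swap (μ := ν.prod ν) (ν := τ)).comp
      ((MeasurePreserving.id (ν.prod ν)).prod mpz)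
  have comm2 : ∀ᵐ p ∂((ν.prod ν).prod ((ν.prod ν).prod ρ)),
      (N p.2.2.1 p.2.1.1 * N p.2.1.2 p.2.2.1) * N p.1.1 p.1.2
        = N p.1.1 p.1.2 * (N p.2.2.1 p.2.1.1 * N p.2.1.2 p.2.2.1) := by
    have a1 := mp_ae ((MeasurePreserving.id (ν.prod ν)).prod (mpGG.comp mpZy)) comm1
    have a2 := mp_ae (measurePreserving_snd (μ := ν.prod ν) (ν := (ν.prod ν).prod ρ)) basic
    filter_upwards [a1, a2] with p g1 g2
    rw [← g2.2]
    exact g1
  have comm3 : ∀ᵐ w ∂((ν.prod ν).prod ν), Cm ν N (N w.2 w.1.1 * N w.1.2 w.2) := by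
    have ms : MeasurableSet {p : (Y × Y) × ((Y × Y) × Y) |
        (N p.2.2 p.2.1.1 * N p.2.1.2 p.2.2) * N p.1.1 p.1.2
        = N p.1.1 p.1.2 * (N p.2.2 p.2.1.1 * N p.2.1.2 p.2.2)} := by
      have g1 : ∀ i j, Measurable fun p : (Y × Y) × ((Y × Y) × Y) => N p.2.2 p.2.1.1 i j :=
        fun i j => (mN i j).comp (g := fun t : Y × Y => N t.1 t.2 i j)
          (f := fun p : (Y × Y) × ((Y × Y) × Y) => (p.2.2, p.2.1.1)) (by fun_prop)
      have g2 : ∀ i j, Measurable fun p : (Y × Y) × ((Y × Y) × Y) => N p.2.1.2 p.2.2 i j :=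
        fun i j => (mN i j).comp (g := fun t : Y × Y => N t.1 t.2 i j)
          (f := fun p : (Y × Y) × ((Y × Y) × Y) => (p.2.1.2, p.2.2)) (by fun_prop)
      have g3 : ∀ i j, Measurable fun p : (Y × Y) × ((Y × Y) × Y) => N p.1.1 p.1.2 i j :=
        fun i j => (mN i j).comp measurable_fst
      exact mat_meas (mul_meas (mul_meas g1 g2) g3) (mul_meas g3 (mul_meas g1 g2))
    have mp3 : MeasurePreserving (fun p : (Y × Y) × ((Y × Y) × (Y × Z × Y)) =>
        (p.1, (p.2.1, p.2.2.1))) ((ν.prod ν).prod ((ν.prod ν).prod ρ))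
        ((ν.prod ν).prod ((ν.prod ν).prod ν)) :=
      (MeasurePreserving.id _).prod ((MeasurePreserving.id _).prod mpx)
    have a1 := mp_ae_of mp3 ms comm2
    have a2 := mp_ae (Measure.measurePreserving_swap (μ := (ν.prod ν).prod ν)
      (ν := ν.prod ν)) a1
    exact Measure.ae_ae_of_ae_prod a2
  -- `N` lies in the algebra
  have hall := Cm.all (ν := ν) N
  have hNcm : ∀ᵐ t ∂(ν.prod ν), Cm ν N (N t.1 t.2) := by
    -- variables `((y', y''), (x, y))`
    have pa : MeasurePreserving (fun p : Y × (Y × Y) => ((p.2.2, p.1), p.2.1))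
        (ν.prod (ν.prod ν)) ((ν.prod ν).prod ν) := by
      have a1 := Measure.measurePreserving_swap (μ := ν) (ν := ν.prod ν)
      have a2 := measurePreserving_prodAssoc ν ν ν
      have a3 := Measure.measurePreserving_swap (μ := ν) (ν := ν.prod ν)
      exact a3.comp (a2.comp a1)
    have pf1 : MeasurePreserving (fun p : (Y × Y) × (Y × Y) => (p.1.1, p.2))
        ((ν.prod ν).prod (ν.prod ν)) (ν.prod (ν.prod ν)) :=
      (measurePreserving_fst (μ := ν) (ν := ν)).prod (MeasurePreserving.id _)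
    have pf2 : MeasurePreserving (fun p : (Y × Y) × (Y × Y) => (p.1.2, p.2))
        ((ν.prod ν).prod (ν.prod ν)) (ν.prod (ν.prod ν)) :=
      (measurePreserving_snd (μ := ν) (ν := ν)).prod (MeasurePreserving.id _)
    have pn : MeasurePreserving (fun p : (Y × Y) × (Y × Y) => (p.1.1, (p.2.1, p.1.2)))
        ((ν.prod ν).prod (ν.prod ν)) (ν.prod (ν.prod ν)) := by
      have a1 := (MeasurePreserving.id (ν.prod ν)).prod
        (measurePreserving_fst (μ := ν) (ν := ν))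
      have a2 := measurePreserving_prodAssoc ν ν ν
      have a3 := (MeasurePreserving.id ν).prod (Measure.measurePreserving_swap (μ := ν) (ν := ν))
      exact a3.comp (a2.comp a1)
    have a1 := Measure.ae_ae_of_ae_prod (mp_ae (pa.comp pf1) comm3)
    have a2 := Measure.ae_ae_of_ae_prod (mp_ae (pa.comp pf2) comm3)
    have a3 := Measure.ae_ae_of_ae_prod (mp_ae pn hNN)
    filter_upwards [a1, a2, a3] with t b1 b2 b3
    obtain ⟨w, c1, c2, c3, c4, c5⟩ := (b1.and (b2.and (b3.and (hall.and hNo)))).exists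
    have c1' : Cm ν N (N w.1 w.2 * N t.1 w.1) := c1
    have c2' : Cm ν N (N w.1 w.2 * N t.2 w.1) := c2
    have c3' : N t.1 w.1 * N w.1 t.2 = N t.1 t.2 := c3
    have hU : Cm ν N ((N w.1 w.2 * N t.1 w.1) * (N w.1 w.2 * N t.2 w.1)ᵀ) :=
      c1'.mul (Cm.tr hNT c2')
    have h5 : N t.1 t.2 = (N w.1 w.2 * N t.1 w.1) * (N w.1 w.2 * N t.2 w.1)ᵀ := by
      refine alg_core c5 ?_ ?_
      · rw [hNT]
        exact c3'
      · intro U hUe
        exact c4 U (by rw [hUe]; exact hU)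
    rw [h5]
    exact hU
  let S : Set (Matrix (Fin d) (Fin d) ℝ) := {A | Cm ν N A ∧ ∀ B, Cm ν N B → B * A = A * B}
  obtain ⟨r, hr0, hr⟩ := exists_row_eigen hd S (fun A hA B hB => (hA.2 B hB.1).symm)
  refine ⟨r, hr0, ?_⟩
  filter_upwards [hall, hNcm, hNo] with s h1 h2 h3
  obtain ⟨c, hc⟩ := hr (N s.1 s.2) ⟨h2, h1⟩
  exact ⟨c, norm_one_of_orth (mul_eq_one_comm.1 h3) hr0 hc, hc⟩

end

end Pool.Agent.Y313.RM
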